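import Pool.Agent.F1.Stmts

/-!
# The integral with Gaussian weight in dimension three: shared lemmas
-/

set_option autoImplicit false

open MeasureTheory Set Real
open scoped ENNReal InnerProductSpace
open Pool.Agent.Helper44.Ball3 (E3 sig)

namespace Pool.Agent.F1

theorem RR_sq : RR ^ 2 = 2 / 3 := Real.sq_sqrt (by norm_num)

theorem RR_pos : 0 < RR := Real.sqrt_pos.2 (by norm_num)

theorem RR_lt_one : RR < 1 := by
  have h1 := RR_sq
  have h2 := RR_pos
  nlinarith

theorem rho_nonneg (y : E3) : 0 ≤ rho y := by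
  unfold rho
  positivity

theorem measurable_rho : Measurable rho := by
  unfold rho
  fun_prop

theorem rho_eq_zero {y : E3} (h : 2 / 3 ≤ ‖y‖ ^ 2) : rho y = 0 := by
  unfold rho
  rw [Real.sqrt_eq_zero_of_nonpos (by linarith), div_zero]

theorem rho_pos {y : E3} (h : ‖y‖ ^ 2 < 2 / 3) : 0 < rho y := by
  unfold rho
  have h1 : 0 < √(2 / 3 - ‖y‖ ^ 2) := Real.sqrt_pos.2 (by linarith)
  positivity

theorem lintegral_mu {F : E3 → ℝ≥0∞} (hF : Measurable F) :
    ∫⁻ y, F y ∂mu = ∫⁻ y, ENNReal.ofReal (rho y) * F y := by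
  unfold mu
  rw [lintegral_withDensity_eq_lintegral_mul _ measurable_rho.ennreal_ofReal hF]
  rfl

theorem mu_outside : mu {y : E3 | 2 / 3 ≤ ‖y‖ ^ 2} = 0 := by
  have hm : MeasurableSet {y : E3 | 2 / 3 ≤ ‖y‖ ^ 2} :=
    measurableSet_le measurable_const (by fun_prop)
  unfold mu
  rw [withDensity_apply _ hm, lintegral_eq_zero_iff measurable_rho.ennreal_ofReal]
  filter_upwards [ae_restrict_mem hm] with y hy
  rw [rho_eq_zero hy]
  simp

theorem ae_mu : ∀ᵐ y ∂mu, ‖y‖ ^ 2 < 2 / 3 := by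
  rw [ae_iff]
  simp only [not_lt]
  exact mu_outside

theorem ae_mu_norm : ∀ᵐ y ∂mu, ‖y‖ < RR := by
  filter_upwards [ae_mu] with y hy
  have h1 := RR_sq
  have h2 := RR_pos
  have h3 := norm_nonneg y
  nlinarith

theorem mu_ac : mu ≪ volume := withDensity_absolutelyContinuous _ _

instance : NullSingletonClass mu := by
  refine ⟨fun x => mu_ac ?_⟩
  exact measure_singleton x

theorem measurableSet_cube : MeasurableSet (Ioo (0 : ℝ) 1 ×ˢ Ioo (0 : ℝ) 1 ×ˢ Ioo (0 : ℝ) 1) :=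
  measurableSet_Ioo.prod (measurableSet_Ioo.prod measurableSet_Ioo)

instance : IsProbabilityMeasure lam := by
  refine ⟨?_⟩
  unfold lam
  rw [Measure.restrict_apply_univ, Measure.volume_eq_prod, Measure.prod_prod,
    Measure.volume_eq_prod, Measure.prod_prod, Real.volume_Ioo]
  norm_num

theorem ae_lam : ∀ᵐ p ∂lam, p.1 ∈ Ioo (0 : ℝ) 1 ∧ p.2.1 ∈ Ioo (0 : ℝ) 1 ∧ p.2.2 ∈ Ioo (0 : ℝ) 1 := by
  unfold lam
  rw [ae_restrict_iff' measurableSet_cube]
  exact ae_of_all _ fun p hp => ⟨hp.1, hp.2.1, hp.2.2⟩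

/-- `mu` is a probability measure. -/
theorem isProb (h : St_Map) : IsProbabilityMeasure mu := by
  rw [← h.2]
  exact Measure.isProbabilityMeasure_map h.1.aemeasurable

theorem ww_nonneg (x : E3) : 0 ≤ ww x := abs_nonneg _

theorem measurable_ww : Measurable ww := by
  unfold ww
  fun_prop

theorem kap_eq : kap + 1 / 2 = log 6 / 2 := by
  unfold kap
  ring

end Pool.Agent.F1
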