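import Pool.Agent.F1.LStmts
import Pool.Agent.F1.Basic

/-!
# Block L: elementary facts on the parametrisation
-/

set_option autoImplicit false

open MeasureTheory Set Real
open scoped ENNReal
open Pool.Agent.Helper44.Ball3 (E3 sig)

namespace Pool.Agent.F1

theorem LJac_norm {p : C3} (h1 : 0 ≤ p.1) (h2 : p.1 ≤ 1) :
    ‖TT p‖ ^ 2 = 2 / 3 * (1 - (1 - p.1) * sin (π * p.2.2) ^ 2) := by
  unfold TT
  rw [EuclideanSpace.norm_sq_eq, Fin.sum_univ_three]
  simp only [Real.norm_eq_abs, sq_abs, Fin.isValue, Matrix.cons_val_zero,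
    Matrix.cons_val_one, Matrix.cons_val]
  have e1 : √p.1 ^ 2 = p.1 := sq_sqrt h1
  have e2 : √(1 - p.1) ^ 2 = 1 - p.1 := sq_sqrt (by linarith)
  have e3 := sin_sq_add_cos_sq (2 * π * p.2.1)
  have e4 := sin_sq_add_cos_sq (π * p.2.2)
  have e5 := RR_sq
  have e6 : cos (π * p.2.2) ^ 2 = 1 - sin (π * p.2.2) ^ 2 := by linarith
  have e7 : cos (2 * π * p.2.1) ^ 2 = 1 - sin (2 * π * p.2.1) ^ 2 := by linarith
  rw [mul_pow, mul_pow, mul_pow, mul_pow, mul_pow, mul_pow, e1, e2, e5, e6, e7]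
  ring

theorem LJac_TT_meas : Measurable TT := by
  unfold TT
  exact Pool.Agent.Helper44.Ball3.measurable_vec (by fun_prop) (by fun_prop) (by fun_prop)

theorem LJac_jac_meas : Measurable jac := by
  unfold jac
  fun_prop

theorem LJac_ae_cube : ∀ᵐ p ∂lam, p ∈ Ioo (0 : ℝ) 1 ×ˢ Ioo (0 : ℝ) 1 ×ˢ Ioo (0 : ℝ) 1 := by
  unfold lam
  exact ae_restrict_mem measurableSet_cube

theorem st_LJac : St_LJac := by
  intro p hp
  obtain ⟨⟨h1, h2⟩, ⟨h3, h4⟩, h5, h6⟩ := hp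
  have hs : 0 < sin (π * p.2.2) := sin_pos_of_pos_of_lt_pi (by positivity)
    (by nlinarith [pi_pos])
  have hq : 0 < √(1 - p.1) := sqrt_pos.2 (by linarith)
  have hR := RR_pos
  have hn := LJac_norm h1.le h2.le
  refine ⟨by unfold jac; positivity, ?_, hn⟩
  have e1 : 2 / 3 - ‖TT p‖ ^ 2 = (RR * √(1 - p.1) * sin (π * p.2.2)) ^ 2 := by
    rw [hn, mul_pow, mul_pow, RR_sq, sq_sqrt (by linarith : (0 : ℝ) ≤ 1 - p.1)]
    ring
  unfold rho jac
  rw [e1, sqrt_sq (by positivity)]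
  field_simp

end Pool.Agent.F1
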