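import Pool.Agent.F1.LStmts
import Pool.Agent.F1.LJac

/-!
# Block L: change of variables in n variables
-/

set_option autoImplicit false

open MeasureTheory Set Real
open scoped ENNReal
open Pool.Agent.Helper44.Ball3 (E3 sig)

namespace Pool.Agent.F1

theorem st_LCV (hM : St_Map) (hJ : St_LJac) : St_LCV := by
  intro n F hF
  have hprob : IsProbabilityMeasure mu := isProb hM
  have hsf : SigmaFinite ((volume : Measure E3).withDensity fun y => ENNReal.ofReal (rho y)) := by
    change SigmaFinite mu
    infer_instance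
  set g : E3 → ℝ≥0∞ := fun y => ENNReal.ofReal (1 / rho y) with hg
  have hgm : Measurable g := (measurable_rho.const_div 1).ennreal_ofReal
  have h1 : ∫⁻ p, F (fun i => TT (p i)) * ∏ i, ENNReal.ofReal (jac (p i))
      ∂(Measure.pi fun _ : Fin n => lam) =
      ∫⁻ p, F (fun i => TT (p i)) * ∏ i, g (TT (p i)) ∂(Measure.pi fun _ : Fin n => lam) := by
    refine lintegral_congr_ae ?_
    have h2 : ∀ᵐ p ∂(Measure.pi fun _ : Fin n => lam),
        ∀ i, p i ∈ Ioo (0 : ℝ) 1 ×ˢ Ioo (0 : ℝ) 1 ×ˢ Ioo (0 : ℝ) 1 := by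
      rw [ae_all_iff]
      intro i
      exact (Measure.quasiMeasurePreserving_eval (fun _ : Fin n => lam) i).ae LJac_ae_cube
    filter_upwards [h2] with p hp
    congr 1
    refine Finset.prod_congr rfl fun i _ => ?_
    obtain ⟨a1, a2, -⟩ := hJ (p i) (hp i)
    rw [hg]
    simp only
    rw [a2, one_div_one_div]
  have hGm : Measurable fun y : Fin n → E3 => F y * ∏ i, g (y i) :=
    hF.mul (Finset.measurable_prod _ fun i _ => hgm.comp (measurable_pi_apply i))
  have hTm : Measurable fun (p : Fin n → C3) (i : Fin n) => TT (p i) :=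
    measurable_pi_lambda _ fun i => LJac_TT_meas.comp (measurable_pi_apply i)
  have h3 : (Measure.pi fun _ : Fin n => lam).map (fun (p : Fin n → C3) (i : Fin n) => TT (p i)) =
      Measure.pi fun _ : Fin n => mu := by
    rw [← hM.2]
    exact Measure.pi_map_pi (fun _ => LJac_TT_meas.aemeasurable)
  rw [h1, ← lintegral_map hGm hTm, h3]
  have h4 : (Measure.pi fun _ : Fin n => mu) =
      (Measure.pi fun _ : Fin n => (volume : Measure E3)).withDensity
        (fun y => ∏ i, ENNReal.ofReal (rho (y i))) :=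
    Pool.Agent.Helper44.Ball3.pi_withDensity (fun _ : Fin n => (volume : Measure E3))
      (f := fun _ y => ENNReal.ofReal (rho y)) (fun _ => measurable_rho.ennreal_ofReal)
  have hDm : Measurable fun y : Fin n → E3 => ∏ i, ENNReal.ofReal (rho (y i)) :=
    Finset.measurable_prod _ fun i _ =>
      measurable_rho.ennreal_ofReal.comp (measurable_pi_apply i)
  rw [h4, lintegral_withDensity_eq_lintegral_mul _ hDm hGm]
  refine lintegral_mono fun y => ?_
  rw [Pi.mul_apply]
  have h5 : (∏ i, ENNReal.ofReal (rho (y i))) * ∏ i, g (y i) ≤ 1 := by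
    rw [← Finset.prod_mul_distrib]
    refine Finset.prod_le_one' fun i _ => ?_
    rw [hg]
    simp only
    by_cases h0 : rho (y i) ≤ 0
    · rw [ENNReal.ofReal_of_nonpos h0, zero_mul]
      exact zero_le_one
    · rw [← ENNReal.ofReal_mul (not_le.1 h0).le, mul_one_div_cancel (not_le.1 h0).ne',
        ENNReal.ofReal_one]
  calc (∏ i, ENNReal.ofReal (rho (y i))) * (F y * ∏ i, g (y i))
      = F y * ((∏ i, ENNReal.ofReal (rho (y i))) * ∏ i, g (y i)) := by ring
    _ ≤ F y * 1 := mul_le_mul_right h5 _
    _ = F y := mul_one _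

end Pool.Agent.F1
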