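import Pool.Agent.F1.LStmts
import Pool.Agent.F1.LJac

/-!
# Block L: the trial measures
-/

set_option autoImplicit false

open MeasureTheory Set Real
open scoped ENNReal
open Pool.Agent.Helper44.Ball3 (E3 sig)

namespace Pool.Agent.F1

theorem LSum_cell_meas (k i : ℕ) : MeasurableSet (cell k i) := by
  unfold cell
  exact measurableSet_Ioo.prod (measurableSet_Ioo.prod measurableSet_Ioo)

theorem LSum_dens_meas (k i : ℕ) : Measurable (dens k i) := by
  unfold dens
  split_ifs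
  · exact measurable_const.indicator (LSum_cell_meas k i)
  · exact measurable_const

/-- one factor of the cells -/
theorem LSum_sub {k a : ℕ} (hk : 0 < k) (ha : a < k) {x : ℝ}
    (hx : x ∈ Ioo ((a : ℝ) / k) ((a : ℝ) / k + 1 / k)) : x ∈ Ioo (0 : ℝ) 1 := by
  have hk' : (0 : ℝ) < k := Nat.cast_pos.2 hk
  have h1 : (a : ℝ) + 1 ≤ k := by exact_mod_cast ha
  refine ⟨lt_of_le_of_lt (by positivity) hx.1, lt_of_lt_of_le hx.2 ?_⟩
  rw [← add_div, div_le_one hk']
  exact h1

theorem LSum_cell_sub {k i : ℕ} (hk : 0 < k) (hi : i < k ^ 3) :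
    cell k i ⊆ Ioo (0 : ℝ) 1 ×ˢ Ioo (0 : ℝ) 1 ×ˢ Ioo (0 : ℝ) 1 := by
  have h3 : i / k / k < k := by
    rw [Nat.div_div_eq_div_mul, Nat.div_lt_iff_lt_mul (by positivity)]
    calc i < k ^ 3 := hi
      _ = k * (k * k) := by ring
  rintro p ⟨h1, h2, h4⟩
  exact ⟨LSum_sub hk (Nat.mod_lt _ hk) h1, LSum_sub hk (Nat.mod_lt _ hk) h2, LSum_sub hk h3 h4⟩

theorem LSum_eq {k a b : ℕ} (hk : 0 < k) {x : ℝ}
    (hx : x ∈ Ioo ((a : ℝ) / k) ((a : ℝ) / k + 1 / k))
    (hy : x ∈ Ioo ((b : ℝ) / k) ((b : ℝ) / k + 1 / k)) : a = b := by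
  have hk' : (0 : ℝ) < k := Nat.cast_pos.2 hk
  have key : ∀ {a b : ℕ}, x ∈ Ioo ((a : ℝ) / k) ((a : ℝ) / k + 1 / k) →
      x ∈ Ioo ((b : ℝ) / k) ((b : ℝ) / k + 1 / k) → a ≤ b := by
    intro a b h1 h2
    have h3 : (a : ℝ) / k < (b : ℝ) / k + 1 / k := h1.1.trans h2.2
    rw [← add_div, div_lt_div_iff_of_pos_right hk'] at h3
    have h4 : a < b + 1 := by exact_mod_cast h3
    omega
  exact le_antisymm (key hx hy) (key hy hx)

theorem LSum_disj {k i j : ℕ} (hk : 0 < k) {p : C3} (hi : p ∈ cell k i) (hj : p ∈ cell k j) :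
    i = j := by
  obtain ⟨a1, a2, a3⟩ := hi
  obtain ⟨b1, b2, b3⟩ := hj
  have e1 := LSum_eq hk a1 b1
  have e2 := LSum_eq hk a2 b2
  have e3 := LSum_eq hk a3 b3
  have h1 := Nat.div_add_mod i k
  have h2 := Nat.div_add_mod j k
  have h3 := Nat.div_add_mod (i / k) k
  have h4 := Nat.div_add_mod (j / k) k
  have h5 : i / k = j / k := by rw [← h3, ← h4, e2, e3]
  rw [← h1, ← h2, h5, e1]

theorem LSum_vol {k : ℕ} (hk : 0 < k) (i : ℕ) :
    (k : ℝ≥0∞) ^ 3 * (volume : Measure C3) (cell k i) = 1 := by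
  have hk' : (0 : ℝ) < k := Nat.cast_pos.2 hk
  unfold cell
  rw [Measure.volume_eq_prod, Measure.prod_prod, Measure.volume_eq_prod, Measure.prod_prod,
    Real.volume_Ioo, Real.volume_Ioo, Real.volume_Ioo]
  simp only [add_sub_cancel_left]
  have e1 : (k : ℝ≥0∞) * ENNReal.ofReal (1 / (k : ℝ)) = 1 := by
    rw [← ENNReal.ofReal_natCast, ← ENNReal.ofReal_mul hk'.le, mul_one_div_cancel hk'.ne',
      ENNReal.ofReal_one]
  calc (k : ℝ≥0∞) ^ 3 * (ENNReal.ofReal (1 / (k : ℝ)) *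
        (ENNReal.ofReal (1 / (k : ℝ)) * ENNReal.ofReal (1 / (k : ℝ))))
      = ((k : ℝ≥0∞) * ENNReal.ofReal (1 / (k : ℝ))) ^ 3 := by ring
    _ = 1 := by rw [e1, one_pow]

theorem LSum_univ {k : ℕ} (hk : 0 < k) (i : ℕ) : nuu k i univ = 1 := by
  unfold nuu
  rw [withDensity_apply _ MeasurableSet.univ, Measure.restrict_univ]
  unfold dens
  split_ifs with hi
  · rw [lintegral_indicator (LSum_cell_meas k i), setLIntegral_const]
    unfold lam
    rw [Measure.restrict_apply (LSum_cell_meas k i),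
      inter_eq_self_of_subset_left (LSum_cell_sub hk hi), LSum_vol hk i]
  · rw [lintegral_const, measure_univ, one_mul]

theorem LSum_le {n k : ℕ} (hk : 0 < k) (hn : k ^ 3 ≤ n) (x : C3) :
    ∑ i : Fin n, dens k i x ≤ n := by
  rw [Fin.sum_univ_eq_sum_range (fun i => dens k i x) n,
    ← Finset.sum_range_add_sum_Ico _ hn]
  have h1 : ∑ i ∈ Finset.range (k ^ 3), dens k i x ≤ ((k ^ 3 : ℕ) : ℝ≥0∞) := by
    by_cases hex : ∃ i, i < k ^ 3 ∧ x ∈ cell k i
    · obtain ⟨i, hi, hx⟩ := hex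
      rw [Finset.sum_eq_single i]
      · unfold dens
        rw [if_pos hi, indicator_of_mem hx]
        push_cast
        exact le_rfl
      · intro j hj hne
        unfold dens
        rw [if_pos (Finset.mem_range.1 hj), indicator_of_notMem]
        intro hxj
        exact hne (LSum_disj hk hxj hx)
      · intro h
        exact absurd (Finset.mem_range.2 hi) h
    · rw [Finset.sum_eq_zero]
      · exact zero_le
      · intro j hj
        unfold dens
        rw [if_pos (Finset.mem_range.1 hj), indicator_of_notMem]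
        intro hxj
        exact hex ⟨j, Finset.mem_range.1 hj, hxj⟩
  have h2 : ∑ i ∈ Finset.Ico (k ^ 3) n, dens k i x = ((n - k ^ 3 : ℕ) : ℝ≥0∞) := by
    rw [Finset.sum_congr rfl (g := fun _ => (1 : ℝ≥0∞)) fun i hi => by
      unfold dens
      rw [if_neg (not_lt.2 (Finset.mem_Ico.1 hi).1)]]
    simp
  calc _ ≤ ((k ^ 3 : ℕ) : ℝ≥0∞) + ((n - k ^ 3 : ℕ) : ℝ≥0∞) := by
        rw [h2]; exact add_le_add_left h1 _
    _ = n := by
        rw [← Nat.cast_add]
        congr 1
        omega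

theorem st_LSum : St_LSum := by
  intro n k hk hn
  refine ⟨fun i => ⟨LSum_univ hk i⟩, fun i => LSum_dens_meas k i, LSum_le hk hn, ?_⟩
  have hfin : IsFiniteMeasure (∑ i : Fin n, nuu k i) := by
    refine ⟨?_⟩
    rw [Measure.finsetSum_apply]
    rw [Finset.sum_congr rfl fun (i : Fin n) _ => LSum_univ hk i]
    simp
  refine Measure.eq_of_le_of_measure_univ_eq ?_ ?_
  · refine Measure.le_iff.2 fun s hs => ?_
    rw [Measure.finsetSum_apply, Measure.smul_apply, smul_eq_mul]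
    unfold nuu
    rw [Finset.sum_congr rfl fun (i : Fin n) _ => withDensity_apply (dens k i) hs,
      ← lintegral_finsetSum (f := fun (i : Fin n) => dens k i) Finset.univ
        fun i _ => LSum_dens_meas k i]
    calc ∫⁻ x in s, ∑ i : Fin n, dens k i x ∂lam ≤ ∫⁻ _x in s, (n : ℝ≥0∞) ∂lam :=
          lintegral_mono fun x => LSum_le hk hn x
      _ = (n : ℝ≥0∞) * lam s := by rw [setLIntegral_const]
  · rw [Measure.finsetSum_apply, Measure.smul_apply, smul_eq_mul, measure_univ,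
      Finset.sum_congr rfl fun (i : Fin n) _ => LSum_univ hk i]
    simp

end Pool.Agent.F1
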