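import Pool.Agent.F1.LStmts
import Pool.Agent.F1.LJac
import Pool.Agent.F1.LSum

/-!
# Block L: common lemmas
-/

set_option autoImplicit false

open MeasureTheory Set Real
open scoped ENNReal
open Pool.Agent.Helper44.Ball3 (E3 sig)

namespace Pool.Agent.F1

theorem LCom_map_prod (hM : St_Map) :
    (lam.prod lam).map (Prod.map TT TT) = mu.prod mu := by
  rw [← hM.2]
  exact (Measure.map_prod_map lam lam LJac_TT_meas LJac_TT_meas).symm

theorem LCom_int (hM : St_Map) (hLI : St_LogInt) :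
    Integrable (fun q : C3 × C3 => log ‖TT q.1 - TT q.2‖) (lam.prod lam) ∧
      ∫ q : C3 × C3, log ‖TT q.1 - TT q.2‖ ∂(lam.prod lam) = -(kap - 1 / 4) := by
  have hmp : MeasurePreserving (Prod.map TT TT) (lam.prod lam) (mu.prod mu) :=
    ⟨LJac_TT_meas.prodMap LJac_TT_meas, LCom_map_prod hM⟩
  have hmeas : Measurable fun q : E3 × E3 => log ‖q.1 - q.2‖ := by fun_prop
  constructor
  · exact hmp.integrable_comp_of_integrable hLI.1
  · rw [← hLI.2, ← LCom_map_prod hM, integral_map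
      (LJac_TT_meas.prodMap LJac_TT_meas).aemeasurable hmeas.aestronglyMeasurable]
    rfl

theorem LCom_ne (hM : St_Map) : ∀ᵐ q ∂(lam.prod lam), TT q.1 ≠ TT q.2 := by
  have hp := isProb hM
  have h1 : ∀ᵐ q ∂(mu.prod mu), q.1 ≠ q.2 := by
    rw [ae_iff]
    have h2 : {q : E3 × E3 | ¬ q.1 ≠ q.2} = diagonal E3 := by
      ext q
      simp
    rw [h2, Measure.prod_apply measurableSet_diagonal]
    have h3 : ∀ y : E3, mu (Prod.mk y ⁻¹' diagonal E3) = 0 := by
      intro y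
      have h4 : Prod.mk y ⁻¹' diagonal E3 = {y} := by
        ext z
        simp only [mem_preimage, mem_diagonal_iff, mem_singleton_iff]
        exact eq_comm
      rw [h4]
      exact (withDensity_absolutelyContinuous volume _) (measure_singleton y)
    simp only [h3, lintegral_zero]
  rw [← LCom_map_prod hM] at h1
  exact ae_of_ae_map (LJac_TT_meas.prodMap LJac_TT_meas).aemeasurable h1

theorem LCom_dens_le {k : ℕ} (hk : 0 < k) (i : ℕ) (x : C3) : dens k i x ≤ (k : ℝ≥0∞) ^ 3 := by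
  unfold dens
  split_ifs with h
  · by_cases hx : x ∈ cell k i
    · rw [indicator_of_mem hx]
    · rw [indicator_of_notMem hx]; exact zero_le
  · have : ((1 : ℕ) : ℝ≥0∞) ≤ ((k ^ 3 : ℕ) : ℝ≥0∞) :=
      Nat.cast_le.2 (Nat.one_le_pow _ _ hk)
    push_cast at this
    exact this

theorem LCom_nuu_le {k : ℕ} (hk : 0 < k) (i : ℕ) : nuu k i ≤ (k : ℝ≥0∞) ^ 3 • lam := by
  unfold nuu
  rw [← withDensity_const]
  exact withDensity_mono (ae_of_all _ fun x => LCom_dens_le hk i x)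

theorem LCom_nuu_int {k : ℕ} (hk : 0 < k) (i : ℕ) {f : C3 → ℝ} (hf : Integrable f lam) :
    Integrable f (nuu k i) :=
  (hf.smul_measure (ENNReal.pow_ne_top (ENNReal.natCast_ne_top k))).mono_measure
    (LCom_nuu_le hk i)

theorem LCom_prod_le {k : ℕ} (hk : 0 < k) (i j : ℕ) :
    (nuu k i).prod (nuu k j) ≤ ((k : ℝ≥0∞) ^ 3 * (k : ℝ≥0∞) ^ 3) • lam.prod lam := by
  have hsf : SFinite (nuu k j) := by
    have : IsProbabilityMeasure (nuu k j) := ⟨LSum_univ hk j⟩
    infer_instance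
  have hc : (k : ℝ≥0∞) ^ 3 ≠ ∞ := ENNReal.pow_ne_top (ENNReal.natCast_ne_top k)
  have h1 : (nuu k i).prod (nuu k j) ≤ ((k : ℝ≥0∞) ^ 3 • lam).prod ((k : ℝ≥0∞) ^ 3 • lam) :=
    Measure.prod_mono (LCom_nuu_le hk i) (LCom_nuu_le hk j)
  rw [Measure.prod_smul_left, Measure.prod_smul_right, smul_smul] at h1
  exact h1

theorem LCom_prod_int {k : ℕ} (hk : 0 < k) (i j : ℕ) {f : C3 × C3 → ℝ}
    (hf : Integrable f (lam.prod lam)) : Integrable f ((nuu k i).prod (nuu k j)) := by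
  have hc : (k : ℝ≥0∞) ^ 3 ≠ ∞ := ENNReal.pow_ne_top (ENNReal.natCast_ne_top k)
  exact (hf.smul_measure (ENNReal.mul_ne_top hc hc)).mono_measure (LCom_prod_le hk i j)

theorem LCom_prod_ac {k : ℕ} (hk : 0 < k) (i j : ℕ) :
    (nuu k i).prod (nuu k j) ≪ lam.prod lam := by
  have h := (LCom_prod_le hk i j).absolutelyContinuous
  exact h.trans (Measure.smul_absolutelyContinuous)

end Pool.Agent.F1
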