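import Pool.Agent.F1.LStmts
import Pool.Agent.F1.LJac
import Pool.Agent.F1.LCom

/-!
# Block L: self energies of the cells
-/

set_option autoImplicit false

open MeasureTheory Set Real
open scoped ENNReal
open Pool.Agent.Helper44.Ball3 (E3 sig)

namespace Pool.Agent.F1

/-- the bound for the diameter of the image of a cell -/
noncomputable def LCell_B (k a : ℕ) : ℝ :=
  RR * (2 * (√(((a + 1 : ℕ) : ℝ) / k) - √((a : ℝ) / k)) +
    (√(1 - (a : ℝ) / k) - √(1 - ((a + 1 : ℕ) : ℝ) / k)) + 5 * π / k)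

theorem LCell_sum_B {k : ℕ} (hk : 0 < k) :
    ∑ a ∈ Finset.range k, LCell_B k a = RR * (3 + 5 * π) := by
  have hk' : (k : ℝ) ≠ 0 := by positivity
  unfold LCell_B
  rw [← Finset.mul_sum, Finset.sum_add_distrib, Finset.sum_add_distrib, ← Finset.mul_sum,
    Finset.sum_range_sub (fun a : ℕ => √((a : ℝ) / k)),
    Finset.sum_range_sub' (fun a : ℕ => √(1 - (a : ℝ) / k)), Finset.sum_const,
    Finset.card_range, div_self hk', nsmul_eq_mul]
  rw [mul_div_cancel₀ _ hk']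
  norm_num

theorem LCell_mod (k m : ℕ) (f : ℕ → ℝ) :
    ∑ i ∈ Finset.range (k * m), f (i % k) = m * ∑ a ∈ Finset.range k, f a := by
  induction m with
  | zero => simp
  | succ m ih =>
    rw [Nat.mul_succ, Finset.sum_range_add, ih]
    have h : ∑ x ∈ Finset.range k, f ((k * m + x) % k) = ∑ a ∈ Finset.range k, f a := by
      refine Finset.sum_congr rfl fun x hx => ?_
      rw [Nat.mul_add_mod, Nat.mod_eq_of_lt (Finset.mem_range.1 hx)]
    rw [h]
    push_cast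
    ring

theorem LCell_norm_le (x : E3) : ‖x‖ ≤ |x 0| + |x 1| + |x 2| := by
  rw [EuclideanSpace.norm_eq, Fin.sum_univ_three]
  simp only [Real.norm_eq_abs]
  refine Real.sqrt_le_iff.2 ⟨by positivity, ?_⟩
  have h0 := abs_nonneg (x 0)
  have h1 := abs_nonneg (x 1)
  have h2 := abs_nonneg (x 2)
  nlinarith [mul_nonneg h0 h1, mul_nonneg h0 h2, mul_nonneg h1 h2]

theorem LCell_mul {s s' c c' : ℝ} (h1 : 0 ≤ s') (h2 : s' ≤ 1) (h3 : |c| ≤ 1) :
    |RR * s * c - RR * s' * c'| ≤ RR * (|s - s'| + |c - c'|) := by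
  have e : RR * s * c - RR * s' * c' = RR * ((s - s') * c + s' * (c - c')) := by ring
  have hR := RR_pos
  rw [e, abs_mul, abs_of_pos hR]
  refine mul_le_mul_of_nonneg_left ?_ hR.le
  refine (abs_add_le _ _).trans ?_
  rw [abs_mul, abs_mul, abs_of_nonneg h1]
  have h4 := abs_nonneg (s - s')
  have h5 := abs_nonneg (c - c')
  nlinarith

theorem LCell_cos (a b : ℝ) : |cos a - cos b| ≤ |a - b| := by
  have h := Real.abs_cos_sub_cos_le a b
  exact h

theorem LCell_sin (a b : ℝ) : |sin a - sin b| ≤ |a - b| := by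
  have h := Real.abs_sin_sub_sin_le a b
  exact h

theorem LCell_dist {p p' : C3} (h1 : 0 ≤ p'.1) (h2 : p'.1 ≤ 1) :
    ‖TT p - TT p'‖ ≤ RR * (2 * |√p.1 - √p'.1| + |√(1 - p.1) - √(1 - p'.1)| +
      4 * π * |p.2.1 - p'.2.1| + π * |p.2.2 - p'.2.2|) := by
  have s1 : √p'.1 ≤ 1 := Real.sqrt_le_one.2 h2
  have s2 : √(1 - p'.1) ≤ 1 := Real.sqrt_le_one.2 (by linarith)
  have a1 := LCell_mul (s := √p.1) (c := cos (2 * π * p.2.1)) (c' := cos (2 * π * p'.2.1))
    (sqrt_nonneg p'.1) s1 (abs_cos_le_one _)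
  have a2 := LCell_mul (s := √p.1) (c := sin (2 * π * p.2.1)) (c' := sin (2 * π * p'.2.1))
    (sqrt_nonneg p'.1) s1 (abs_sin_le_one _)
  have a3 := LCell_mul (s := √(1 - p.1)) (c := cos (π * p.2.2)) (c' := cos (π * p'.2.2))
    (sqrt_nonneg (1 - p'.1)) s2 (abs_cos_le_one _)
  have b1 := LCell_cos (2 * π * p.2.1) (2 * π * p'.2.1)
  have b2 := LCell_sin (2 * π * p.2.1) (2 * π * p'.2.1)
  have b3 := LCell_cos (π * p.2.2) (π * p'.2.2)
  have e1 : |2 * π * p.2.1 - 2 * π * p'.2.1| = 2 * π * |p.2.1 - p'.2.1| := by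
    rw [← mul_sub, abs_mul, abs_of_pos (by positivity)]
  have e2 : |π * p.2.2 - π * p'.2.2| = π * |p.2.2 - p'.2.2| := by
    rw [← mul_sub, abs_mul, abs_of_pos pi_pos]
  rw [e1] at b1 b2
  rw [e2] at b3
  have hn := LCell_norm_le (TT p - TT p')
  have hR := RR_pos
  have c0 : (TT p - TT p') 0 = RR * √p.1 * cos (2 * π * p.2.1) - RR * √p'.1 * cos (2 * π * p'.2.1) := rfl
  have c1 : (TT p - TT p') 1 = RR * √p.1 * sin (2 * π * p.2.1) - RR * √p'.1 * sin (2 * π * p'.2.1) := rfl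
  have c2 : (TT p - TT p') 2 = RR * √(1 - p.1) * cos (π * p.2.2) - RR * √(1 - p'.1) * cos (π * p'.2.2) := rfl
  rw [c0, c1, c2] at hn
  nlinarith [mul_le_mul_of_nonneg_left b1 hR.le, mul_le_mul_of_nonneg_left b2 hR.le,
    mul_le_mul_of_nonneg_left b3 hR.le]

theorem LCell_abs {a b x y : ℝ} (hx1 : a ≤ x) (hx2 : x ≤ b) (hy1 : a ≤ y) (hy2 : y ≤ b) :
    |x - y| ≤ b - a := by
  rw [abs_le]
  constructor <;> linarith

theorem LCell_cell {k i : ℕ} (hk : 0 < k) {p p' : C3} (hp : p ∈ cell k i) (hp' : p' ∈ cell k i) :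
    ‖TT p - TT p'‖ ≤ LCell_B k (i % k) := by
  obtain ⟨⟨u1, u2⟩, ⟨v1, v2⟩, o1, o2⟩ := hp
  obtain ⟨⟨u1', u2'⟩, ⟨v1', v2'⟩, o1', o2'⟩ := hp'
  have hk0 : (0 : ℝ) < k := by exact_mod_cast hk
  set a := i % k with ha
  have hak : a < k := Nat.mod_lt _ hk
  have hak' : ((a + 1 : ℕ) : ℝ) ≤ k := by exact_mod_cast hak
  have ha0 : (0 : ℝ) ≤ (a : ℝ) / k := by positivity
  have e1 : ((a + 1 : ℕ) : ℝ) / k = (a : ℝ) / k + 1 / k := by
    push_cast
    rw [add_div]
  have ha1 : (a : ℝ) / k + 1 / k ≤ 1 := by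
    rw [← e1]
    exact (div_le_one hk0).2 hak'
  have h := LCell_dist (p := p) (p' := p') (by linarith) (by linarith)
  have d1 : |√p.1 - √p'.1| ≤ √((a : ℝ) / k + 1 / k) - √((a : ℝ) / k) :=
    LCell_abs (Real.sqrt_le_sqrt u1.le) (Real.sqrt_le_sqrt u2.le) (Real.sqrt_le_sqrt u1'.le)
      (Real.sqrt_le_sqrt u2'.le)
  have d2 : |√(1 - p.1) - √(1 - p'.1)| ≤ √(1 - (a : ℝ) / k) - √(1 - ((a : ℝ) / k + 1 / k)) :=
    LCell_abs (Real.sqrt_le_sqrt (by linarith)) (Real.sqrt_le_sqrt (by linarith))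
      (Real.sqrt_le_sqrt (by linarith)) (Real.sqrt_le_sqrt (by linarith))
  have d3 : |p.2.1 - p'.2.1| ≤ 1 / k := by
    have := LCell_abs v1.le v2.le v1'.le v2'.le
    linarith
  have d4 : |p.2.2 - p'.2.2| ≤ 1 / k := by
    have := LCell_abs o1.le o2.le o1'.le o2'.le
    linarith
  refine h.trans ?_
  unfold LCell_B
  rw [e1]
  refine mul_le_mul_of_nonneg_left ?_ RR_pos.le
  have hpi := pi_pos
  have e5 : 5 * π / k = 5 * π * (1 / k) := by ring
  rw [e5]
  nlinarith [mul_le_mul_of_nonneg_left d3 hpi.le, mul_le_mul_of_nonneg_left d4 hpi.le]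

theorem LCell_ae {k i : ℕ} (hi : i < k ^ 3) : ∀ᵐ p ∂(nuu k i), p ∈ cell k i := by
  unfold nuu
  rw [ae_withDensity_iff (LSum_dens_meas k i)]
  refine ae_of_all _ fun p hp => ?_
  by_contra hc
  apply hp
  unfold dens
  rw [if_pos hi, indicator_of_notMem hc]

theorem LCell_one (hM : St_Map) (hLI : St_LogInt) {k i : ℕ} (hk : 0 < k) (hi : i < k ^ 3) :
    selfE (nuu k i) ≤ k * LCell_B k (i % k) - log k := by
  have hk0 : (0 : ℝ) < k := by exact_mod_cast hk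
  have hp : IsProbabilityMeasure (nuu k i) := ⟨LSum_univ hk i⟩
  have hint := LCom_prod_int hk i i (LCom_int hM hLI).1
  have hne := (LCom_prod_ac hk i i).ae_le (LCom_ne hM)
  have h1 : ∀ᵐ q ∂((nuu k i).prod (nuu k i)), q.1 ∈ cell k i :=
    Measure.quasiMeasurePreserving_fst.ae (LCell_ae hi)
  have h2 : ∀ᵐ q ∂((nuu k i).prod (nuu k i)), q.2 ∈ cell k i :=
    Measure.quasiMeasurePreserving_snd.ae (LCell_ae hi)
  have h3 : ∀ᵐ q ∂((nuu k i).prod (nuu k i)),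
      log ‖TT q.1 - TT q.2‖ ≤ k * LCell_B k (i % k) - log k := by
    filter_upwards [hne, h1, h2] with q hq hq1 hq2
    have hx : 0 < ‖TT q.1 - TT q.2‖ := norm_pos_iff.2 (sub_ne_zero.2 hq)
    have hl := Real.log_le_sub_one_of_pos (mul_pos hk0 hx)
    rw [Real.log_mul hk0.ne' hx.ne'] at hl
    have hB := LCell_cell hk hq1 hq2
    nlinarith [mul_le_mul_of_nonneg_left hB hk0.le]
  unfold selfE
  calc ∫ q : C3 × C3, log ‖TT q.1 - TT q.2‖ ∂((nuu k i).prod (nuu k i))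
      ≤ ∫ q : C3 × C3, (k * LCell_B k (i % k) - log k) ∂((nuu k i).prod (nuu k i)) :=
        integral_mono_ae hint (integrable_const _) h3
    _ = k * LCell_B k (i % k) - log k := by simp

theorem st_LCell (hM : St_Map) (hLI : St_LogInt) (_hS : St_LSum) : St_LCell := by
  refine ⟨RR * (3 + 5 * π), fun k hk => ?_⟩
  calc ∑ i ∈ Finset.range (k ^ 3), selfE (nuu k i)
      ≤ ∑ i ∈ Finset.range (k ^ 3), (k * LCell_B k (i % k) - log k) :=
        Finset.sum_le_sum fun i hi => LCell_one hM hLI hk (Finset.mem_range.1 hi)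
    _ = (k : ℝ) ^ 3 * (RR * (3 + 5 * π) - log k) := by
        have e : k ^ 3 = k * k ^ 2 := by ring
        rw [Finset.sum_sub_distrib, ← Finset.mul_sum, Finset.sum_const, Finset.card_range,
          nsmul_eq_mul, e, LCell_mod k (k ^ 2) (fun a => LCell_B k a), LCell_sum_B hk]
        push_cast
        ring

end Pool.Agent.F1
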