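import Pool.Agent.F1.LStmts
import Pool.Agent.F1.LJac
import Pool.Agent.F1.LCom

/-!
# Block L: the mean of the exponent
-/

set_option autoImplicit false

open MeasureTheory Set Real
open scoped ENNReal
open Pool.Agent.Helper44.Ball3 (E3 sig)

namespace Pool.Agent.F1

theorem LEn_pair {n : ℕ} (ν : Fin n → Measure C3) [∀ i, IsProbabilityMeasure (ν i)]
    {i j : Fin n} (hij : i ≠ j) :
    MeasurePreserving (fun p : Fin n → C3 => (p i, p j)) (Measure.pi ν) ((ν i).prod (ν j)) := by
  have hm : Measurable fun p : Fin n → C3 => (p i, p j) :=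
    (measurable_pi_apply i).prodMk (measurable_pi_apply j)
  refine ⟨hm, ?_⟩
  refine Measure.ext_of_lintegral _ fun f hf => ?_
  rw [lintegral_map hf hm, lintegral_prod _ hf.aemeasurable]
  exact Pool.Agent.Helper44.Ball3.pair_int ν hij (g := fun a b => f (a, b)) hf

theorem LEn_lam : lam = ((volume : Measure ℝ).restrict (Ioo 0 1)).prod
    (((volume : Measure ℝ).restrict (Ioo 0 1)).prod
      ((volume : Measure ℝ).restrict (Ioo 0 1))) := by
  unfold lam
  rw [Measure.prod_restrict, Measure.prod_restrict]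
  rfl

theorem LEn_mp1 : MeasurePreserving (fun p : C3 => p.1) lam
    ((volume : Measure ℝ).restrict (Ioo 0 1)) := by
  have hp : IsProbabilityMeasure ((volume : Measure ℝ).restrict (Ioo (0 : ℝ) 1)) :=
    ⟨by rw [Measure.restrict_apply_univ, Real.volume_Ioo]; norm_num⟩
  rw [LEn_lam]
  exact measurePreserving_fst

theorem LEn_mp3 : MeasurePreserving (fun p : C3 => p.2.2) lam
    ((volume : Measure ℝ).restrict (Ioo 0 1)) := by
  have hp : IsProbabilityMeasure ((volume : Measure ℝ).restrict (Ioo (0 : ℝ) 1)) :=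
    ⟨by rw [Measure.restrict_apply_univ, Real.volume_Ioo]; norm_num⟩
  rw [LEn_lam]
  exact measurePreserving_snd.comp measurePreserving_snd

theorem LEn_int1 : Integrable (fun u : ℝ => log (1 - u))
    ((volume : Measure ℝ).restrict (Ioo 0 1)) := by
  have h1 : IntervalIntegrable log volume 0 1 := intervalIntegral.intervalIntegrable_log'
  have h2 := h1.comp_sub_left 1
  rw [sub_zero, sub_self] at h2
  have h3 := h2.symm
  rw [intervalIntegrable_iff_integrableOn_Ioo_of_le zero_le_one] at h3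
  exact h3

theorem LEn_int3 : Integrable (fun o : ℝ => log (sin (π * o)))
    ((volume : Measure ℝ).restrict (Ioo 0 1)) := by
  have h1 : IntervalIntegrable (log ∘ sin) volume 0 π := intervalIntegrable_log_sin
  have h2 := h1.comp_mul_left (c := π)
  rw [zero_div, div_self pi_ne_zero] at h2
  rw [intervalIntegrable_iff_integrableOn_Ioo_of_le zero_le_one] at h2
  exact h2

theorem LEn_jac_int : Integrable (fun p => log (jac p)) lam := by
  have h1 : Integrable (fun p : C3 => log (1 - p.1)) lam :=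
    LEn_mp1.integrable_comp_of_integrable LEn_int1
  have h3 : Integrable (fun p : C3 => log (sin (π * p.2.2))) lam :=
    LEn_mp3.integrable_comp_of_integrable LEn_int3
  have h4 : Integrable (fun p : C3 => log (2 * π ^ 2 / 3 * RR) + (log (1 - p.1) / 2 +
      log (sin (π * p.2.2)))) lam := (integrable_const _).add ((h1.div_const 2).add h3)
  refine h4.congr ?_
  filter_upwards [ae_lam] with p hp
  obtain ⟨⟨a1, a2⟩, -, a5, a6⟩ := hp
  have hs : 0 < sin (π * p.2.2) := sin_pos_of_pos_of_lt_pi (by positivity)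
    (by nlinarith [pi_pos])
  have hq : 0 < 1 - p.1 := by linarith
  have hR := RR_pos
  have e : jac p = 2 * π ^ 2 / 3 * RR * (√(1 - p.1) * sin (π * p.2.2)) := by
    unfold jac
    ring
  have hq2 : 0 < √(1 - p.1) := sqrt_pos.2 hq
  rw [e, log_mul (x := 2 * π ^ 2 / 3 * RR) (by positivity) (by positivity),
    log_mul hq2.ne' hs.ne', log_sqrt hq.le]

theorem LEn_sq_int : Integrable (fun p => ‖TT p‖ ^ 2) lam := by
  refine Integrable.of_bound (C := 1) ?_ ?_
  · exact (LJac_TT_meas.norm.pow_const 2).aestronglyMeasurable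
  · filter_upwards [ae_lam] with p hp
    obtain ⟨⟨a1, a2⟩, -, -⟩ := hp
    rw [Real.norm_eq_abs, abs_of_nonneg (by positivity), LJac_norm a1.le a2.le]
    have h1 : 0 ≤ (1 - p.1) * sin (π * p.2.2) ^ 2 := mul_nonneg (by linarith) (by positivity)
    linarith

/-- single terms -/
theorem LEn_single {n : ℕ} (ν : Fin n → Measure C3) [∀ i, IsProbabilityMeasure (ν i)]
    (i : Fin n) {f : C3 → ℝ} (hf : Integrable f (ν i)) :
    Integrable (fun p : Fin n → C3 => f (p i)) (Measure.pi ν) ∧
      ∫ p : Fin n → C3, f (p i) ∂(Measure.pi ν) = ∫ x, f x ∂(ν i) := by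
  have hmp := measurePreserving_eval ν i
  have h1 : Integrable (fun p : Fin n → C3 => f (p i)) (Measure.pi ν) :=
    hmp.integrable_comp_of_integrable hf
  refine ⟨h1, ?_⟩
  have h2 : ∫ x, f x ∂((Measure.pi ν).map (Function.eval i)) =
      ∫ p : Fin n → C3, f (Function.eval i p) ∂(Measure.pi ν) := by
    refine integral_map hmp.measurable.aemeasurable ?_
    rw [hmp.map_eq]
    exact hf.aestronglyMeasurable
  rw [hmp.map_eq] at h2
  exact h2.symm

theorem LEn_double {n : ℕ} (ν : Fin n → Measure C3) [∀ i, IsProbabilityMeasure (ν i)]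
    {i j : Fin n} (hij : i ≠ j) {f : C3 × C3 → ℝ} (hf : Integrable f ((ν i).prod (ν j))) :
    Integrable (fun p : Fin n → C3 => f (p i, p j)) (Measure.pi ν) ∧
      ∫ p : Fin n → C3, f (p i, p j) ∂(Measure.pi ν) = ∫ x, f x ∂((ν i).prod (ν j)) := by
  have hmp := LEn_pair ν hij
  have h1 : Integrable (fun p : Fin n → C3 => f (p i, p j)) (Measure.pi ν) :=
    hmp.integrable_comp_of_integrable hf
  refine ⟨h1, ?_⟩
  have h2 : ∫ x, f x ∂((Measure.pi ν).map (fun p : Fin n → C3 => (p i, p j))) =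
      ∫ p : Fin n → C3, f (p i, p j) ∂(Measure.pi ν) := by
    refine integral_map hmp.measurable.aemeasurable ?_
    rw [hmp.map_eq]
    exact hf.aestronglyMeasurable
  rw [hmp.map_eq] at h2
  exact h2.symm

/-- sums of single terms -/
theorem LEn_sum {n k : ℕ} (hk : 0 < k) (hs : ∑ i : Fin n, nuu k i = (n : ℝ≥0∞) • lam)
    {f : C3 → ℝ} (hf : Integrable f lam) :
    ∑ i : Fin n, ∫ x, f x ∂(nuu k i) = n * ∫ x, f x ∂lam := by
  have h := integral_finsetSum_measure (s := Finset.univ) (μ := fun i : Fin n => nuu k i)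
    (f := f) (fun i _ => LCom_nuu_int hk i hf)
  rw [← h, hs, integral_smul_measure, ENNReal.toReal_natCast, smul_eq_mul]

theorem LEn_prod_sum {n k : ℕ} (hS : ∀ i, IsProbabilityMeasure (nuu k i)) :
    (∑ i : Fin n, nuu k i).prod (∑ i : Fin n, nuu k i) =
      ∑ i : Fin n, ∑ j : Fin n, (nuu k i).prod (nuu k j) := by
  rw [← Measure.sum_fintype, Measure.prod_sum, Measure.sum_fintype, Fintype.sum_prod_type]

theorem LEn_dsum {n k : ℕ} (hk : 0 < k) (hS : ∀ i, IsProbabilityMeasure (nuu k i))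
    (hs : ∑ i : Fin n, nuu k i = (n : ℝ≥0∞) • lam)
    {f : C3 × C3 → ℝ} (hf : Integrable f (lam.prod lam)) :
    ∑ i : Fin n, ∑ j : Fin n, ∫ x, f x ∂((nuu k i).prod (nuu k j)) =
      n ^ 2 * ∫ x, f x ∂(lam.prod lam) := by
  have h1 : ∀ i : Fin n, ∑ j : Fin n, ∫ x, f x ∂((nuu k i).prod (nuu k j)) =
      ∫ x, f x ∂(∑ j : Fin n, (nuu k i).prod (nuu k j)) := by
    intro i
    exact (integral_finsetSum_measure (s := Finset.univ)
      (μ := fun j : Fin n => (nuu k i).prod (nuu k j))
      (f := f) (fun j _ => LCom_prod_int hk i j hf)).symm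
  have h2 : ∀ i : Fin n, Integrable f (∑ j : Fin n, (nuu k i).prod (nuu k j)) := by
    intro i
    rw [integrable_finsetSum_measure]
    exact fun j _ => LCom_prod_int hk i j hf
  rw [Finset.sum_congr rfl fun i _ => h1 i, ← integral_finsetSum_measure (fun i _ => h2 i),
    ← LEn_prod_sum hS, hs, Measure.prod_smul_left, Measure.prod_smul_right, smul_smul,
    integral_smul_measure, ENNReal.toReal_mul, ENNReal.toReal_natCast, smul_eq_mul]
  ring

theorem LEn_sq (hM : St_Map) (hSq : St_Sq) : ∫ p, ‖TT p‖ ^ 2 ∂lam = 1 / 2 := by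
  have hm : Measurable fun y : E3 => ‖y‖ ^ 2 := by fun_prop
  rw [← hSq.2, ← hM.2, integral_map LJac_TT_meas.aemeasurable hm.aestronglyMeasurable]

theorem st_LEn (hM : St_Map) (hLI : St_LogInt) (hS : St_LSum) (hSq' : St_Sq) :
    St_LEn := by
  intro n k hk hkn
  have hSq := LEn_sq hM hSq'
  obtain ⟨hp, -, -, hs⟩ := hS n k hk hkn
  have hL := LCom_int hM hLI
  have hpr : ∀ i : Fin n, IsProbabilityMeasure (nuu k i) := fun i => hp i
  have h1 : ∀ i : Fin n, Integrable (fun p : Fin n → C3 => ‖TT (p i)‖ ^ 2)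
      (Measure.pi fun i : Fin n => nuu k i) ∧
      ∫ p : Fin n → C3, ‖TT (p i)‖ ^ 2 ∂(Measure.pi fun i : Fin n => nuu k i) =
        ∫ x, ‖TT x‖ ^ 2 ∂(nuu k i) := fun i =>
    LEn_single (fun i : Fin n => nuu k i) i (LCom_nuu_int hk i LEn_sq_int)
  have h2 : ∀ i : Fin n, Integrable (fun p : Fin n → C3 => log (jac (p i)))
      (Measure.pi fun i : Fin n => nuu k i) ∧
      ∫ p : Fin n → C3, log (jac (p i)) ∂(Measure.pi fun i : Fin n => nuu k i) =
        ∫ x, log (jac x) ∂(nuu k i) := fun i =>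
    LEn_single (fun i : Fin n => nuu k i) i (f := fun x => log (jac x))
      (LCom_nuu_int hk i LEn_jac_int)
  set L : Fin n → Fin n → ℝ := fun i j =>
    ∫ q : C3 × C3, log ‖TT q.1 - TT q.2‖ ∂((nuu k i).prod (nuu k j)) with hLdef
  have h3 : ∀ i j : Fin n, Integrable (fun p : Fin n → C3 =>
      if j = i then (0 : ℝ) else -log ‖TT (p i) - TT (p j)‖)
      (Measure.pi fun i : Fin n => nuu k i) ∧
      ∫ p : Fin n → C3, (if j = i then (0 : ℝ) else -log ‖TT (p i) - TT (p j)‖)
        ∂(Measure.pi fun i : Fin n => nuu k i) = if j = i then 0 else -L i j := by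
    intro i j
    by_cases h : j = i
    · simp only [if_pos h]
      exact ⟨integrable_zero _ _ _, integral_zero _ _⟩
    · simp only [if_neg h]
      obtain ⟨a, b⟩ := LEn_double (fun i : Fin n => nuu k i) (fun e => h e.symm)
        (LCom_prod_int hk i j hL.1)
      exact ⟨a.neg, by rw [integral_neg, b]⟩
  have h4 : ∀ i : Fin n, Integrable (fun p : Fin n → C3 =>
      ∑ j : Fin n, if j = i then (0 : ℝ) else -log ‖TT (p i) - TT (p j)‖)
      (Measure.pi fun i : Fin n => nuu k i) := fun i => integrable_finsetSum _ fun j _ => (h3 i j).1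
  have h5 : Integrable (fun p : Fin n → C3 =>
      ∑ i : Fin n, ∑ j : Fin n, if j = i then (0 : ℝ) else -log ‖TT (p i) - TT (p j)‖)
      (Measure.pi fun i : Fin n => nuu k i) := integrable_finsetSum _ fun i _ => h4 i
  have h6 : Integrable (fun p : Fin n → C3 => (n : ℝ) * ∑ i : Fin n, ‖TT (p i)‖ ^ 2)
      (Measure.pi fun i : Fin n => nuu k i) :=
    (integrable_finsetSum _ fun i _ => (h1 i).1).const_mul _
  have h7 : Integrable (fun p : Fin n → C3 => ∑ i : Fin n, log (jac (p i)))
      (Measure.pi fun i : Fin n => nuu k i) := integrable_finsetSum _ fun i _ => (h2 i).1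
  have h8 : Integrable (fun p : Fin n → C3 => -HH n (fun i => TT (p i)))
      (Measure.pi fun i : Fin n => nuu k i) := (h5.add h6).neg
  refine ⟨h8.add h7, ?_⟩
  have e1 : ∫ p : Fin n → C3, (∑ i : Fin n, ∑ j : Fin n,
      if j = i then (0 : ℝ) else -log ‖TT (p i) - TT (p j)‖)
      ∂(Measure.pi fun i : Fin n => nuu k i) =
      n ^ 2 * (kap - 1 / 4) + ∑ i : Fin n, selfE (nuu k i) := by
    rw [integral_finsetSum _ fun i _ => h4 i]
    have a1 : ∀ i : Fin n, ∫ p : Fin n → C3, (∑ j : Fin n,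
        if j = i then (0 : ℝ) else -log ‖TT (p i) - TT (p j)‖)
        ∂(Measure.pi fun i : Fin n => nuu k i) = (-∑ j : Fin n, L i j) + selfE (nuu k i) := by
      intro i
      rw [integral_finsetSum _ fun j _ => (h3 i j).1, Finset.sum_congr rfl fun j _ => (h3 i j).2]
      have a2 : ∀ j : Fin n, (if j = i then 0 else -L i j) = -L i j + (if j = i then L i j else 0) := by
        intro j
        split_ifs <;> ring
      rw [Finset.sum_congr rfl fun j _ => a2 j, Finset.sum_add_distrib, Finset.sum_ite_eq' Finset.univ i,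
        if_pos (Finset.mem_univ i), Finset.sum_neg_distrib]
      rfl
    rw [Finset.sum_congr rfl fun i _ => a1 i, Finset.sum_add_distrib, Finset.sum_neg_distrib,
      LEn_dsum hk hp hs hL.1, hL.2]
    ring
  have e2 : ∫ p : Fin n → C3, ((n : ℝ) * ∑ i : Fin n, ‖TT (p i)‖ ^ 2)
      ∂(Measure.pi fun i : Fin n => nuu k i) = n ^ 2 * (1 / 2) := by
    rw [integral_const_mul, integral_finsetSum _ fun i _ => (h1 i).1,
      Finset.sum_congr rfl fun i _ => (h1 i).2, LEn_sum hk hs LEn_sq_int, hSq]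
    ring
  have e3 : ∫ p : Fin n → C3, (∑ i : Fin n, log (jac (p i)))
      ∂(Measure.pi fun i : Fin n => nuu k i) = n * ∫ x, log (jac x) ∂lam := by
    rw [integral_finsetSum _ fun i _ => (h2 i).1, Finset.sum_congr rfl fun i _ => (h2 i).2,
      LEn_sum hk hs LEn_jac_int]
  have e4 : ∫ p : Fin n → C3, -HH n (fun i => TT (p i)) ∂(Measure.pi fun i : Fin n => nuu k i) =
      -((n ^ 2 * (kap - 1 / 4) + ∑ i : Fin n, selfE (nuu k i)) + n ^ 2 * (1 / 2)) := by
    rw [integral_neg, ← e1, ← e2, ← integral_add h5 h6]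
    rfl
  have e5 : ∫ p, GG n p ∂(Measure.pi fun i : Fin n => nuu k i) =
      ∫ p : Fin n → C3, -HH n (fun i => TT (p i)) ∂(Measure.pi fun i : Fin n => nuu k i) +
      ∫ p : Fin n → C3, (∑ i : Fin n, log (jac (p i))) ∂(Measure.pi fun i : Fin n => nuu k i) :=
    integral_add h8 h7
  rw [e5, e4, e3]
  ring

end Pool.Agent.F1
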