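import Mathlib

/-!
# Lower bound: the permanent inequality and Jensen's inequality
-/

set_option autoImplicit false

namespace Pool.Agent.F1

open MeasureTheory
open scoped ENNReal

/-- permuting the factors -/
theorem LPerm_swap {Ω : Type*} [MeasurableSpace Ω] (lam : Measure Ω) [IsProbabilityMeasure lam]
    (n : ℕ) (F : (Fin n → Ω) → ℝ≥0∞) (hF : Measurable F)
    (hsym : ∀ (σ : Equiv.Perm (Fin n)) (p : Fin n → Ω), F (fun i => p (σ i)) = F p)
    (d : Fin n → Ω → ℝ≥0∞) (hd : ∀ j, Measurable (d j)) (σ : Equiv.Perm (Fin n)) :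
    ∫⁻ p, F p * ∏ i, d (σ i) (p i) ∂(Measure.pi fun _ => lam) =
      ∫⁻ p, F p * ∏ j, d j (p j) ∂(Measure.pi fun _ => lam) := by
  have hmp := measurePreserving_piCongrLeft (α := fun _ : Fin n => Ω) (fun _ : Fin n => lam) σ.symm
  have hmeas : Measurable fun p : Fin n → Ω => F p * ∏ i, d (σ i) (p i) := by
    refine hF.mul (Finset.measurable_prod _ fun i _ => (hd _).comp (measurable_pi_apply i))
  rw [← hmp.lintegral_comp hmeas]
  refine lintegral_congr fun p => ?_
  have h1 : ∀ i, (MeasurableEquiv.piCongrLeft (fun _ : Fin n => Ω) σ.symm) p i = p (σ i) := by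
    intro i
    have := MeasurableEquiv.piCongrLeft_apply_apply (β := fun _ : Fin n => Ω) σ.symm p (σ i)
    rwa [Equiv.symm_apply_apply] at this
  have h2 : (MeasurableEquiv.piCongrLeft (fun _ : Fin n => Ω) σ.symm) p = fun i => p (σ i) :=
    funext h1
  rw [h2, hsym]
  congr 1
  exact Equiv.prod_comp σ (fun j => d j (p j))

/-- The permanent inequality: symmetrisation of a product density. -/
theorem LPerm {Ω : Type*} [MeasurableSpace Ω] (lam : Measure Ω) [IsProbabilityMeasure lam]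
    (n : ℕ) (F : (Fin n → Ω) → ℝ≥0∞) (hF : Measurable F)
    (hsym : ∀ (σ : Equiv.Perm (Fin n)) (p : Fin n → Ω), F (fun i => p (σ i)) = F p)
    (d : Fin n → Ω → ℝ≥0∞) (hd : ∀ j, Measurable (d j)) (hsum : ∀ x, ∑ j, d j x ≤ n) :
    (n.factorial : ℝ≥0∞) * ∫⁻ p, F p * ∏ j, d j (p j) ∂(Measure.pi fun _ => lam) ≤
      (n : ℝ≥0∞) ^ n * ∫⁻ p, F p ∂(Measure.pi fun _ => lam) := by
  classical
  have h1 : (n.factorial : ℝ≥0∞) * ∫⁻ p, F p * ∏ j, d j (p j) ∂(Measure.pi fun _ => lam) =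
      ∑ σ : Equiv.Perm (Fin n),
        ∫⁻ p, F p * ∏ i, d (σ i) (p i) ∂(Measure.pi fun _ => lam) := by
    rw [Finset.sum_congr rfl fun σ _ => LPerm_swap lam n F hF hsym d hd σ, Finset.sum_const,
      Finset.card_univ, Fintype.card_perm, Fintype.card_fin, nsmul_eq_mul]
  have hmeas : ∀ σ : Equiv.Perm (Fin n),
      Measurable fun p : Fin n → Ω => F p * ∏ i, d (σ i) (p i) := fun σ =>
    hF.mul (Finset.measurable_prod _ fun i _ => (hd _).comp (measurable_pi_apply i))
  rw [h1, ← lintegral_finsetSum _ fun σ _ => hmeas σ, ← lintegral_const_mul _ hF]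
  refine lintegral_mono fun p => ?_
  rw [← Finset.mul_sum, mul_comm ((n : ℝ≥0∞) ^ n)]
  refine mul_le_mul_right ?_ _
  have h2 : ∑ σ : Equiv.Perm (Fin n), ∏ i, d (σ i) (p i) ≤
      ∑ f : Fin n → Fin n, ∏ i, d (f i) (p i) := by
    have hinj : Function.Injective (fun (σ : Equiv.Perm (Fin n)) (i : Fin n) => σ i) :=
      fun a b h => Equiv.ext (congrFun h)
    calc ∑ σ : Equiv.Perm (Fin n), ∏ i, d (σ i) (p i)
        = ∑ f ∈ Finset.univ.image (fun (σ : Equiv.Perm (Fin n)) (i : Fin n) => σ i),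
            ∏ i, d (f i) (p i) := by
          rw [Finset.sum_image fun a _ b _ h => hinj h]
      _ ≤ _ := Finset.sum_le_sum_of_subset (Finset.subset_univ _)
  refine h2.trans ?_
  have h3 : ∑ f : Fin n → Fin n, ∏ i, d (f i) (p i) = ∏ i : Fin n, ∑ j : Fin n, d j (p i) := by
    rw [Finset.prod_univ_sum]
    simp
  rw [h3]
  calc ∏ i : Fin n, ∑ j : Fin n, d j (p i) ≤ ∏ _i : Fin n, (n : ℝ≥0∞) :=
        Finset.prod_le_prod' fun i _ => hsum (p i)
    _ = (n : ℝ≥0∞) ^ n := by simp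

/-- Jensen's inequality for the exponential function, `ℝ≥0∞` version -/
theorem LJensen {Ω : Type*} [MeasurableSpace Ω] (nu : Measure Ω) [IsProbabilityMeasure nu]
    (g : Ω → ℝ) (hg : Integrable g nu) :
    ENNReal.ofReal (Real.exp (∫ x, g x ∂nu)) ≤ ∫⁻ x, ENNReal.ofReal (Real.exp (g x)) ∂nu := by
  by_cases hfin : ∫⁻ x, ENNReal.ofReal (Real.exp (g x)) ∂nu = ∞
  · rw [hfin]; exact le_top
  have hint : Integrable (fun x => Real.exp (g x)) nu := by
    refine ⟨Real.measurable_exp.comp_aemeasurable hg.aemeasurable |>.aestronglyMeasurable, ?_⟩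
    rw [hasFiniteIntegral_iff_ofReal (Filter.Eventually.of_forall fun x => (Real.exp_pos _).le)]
    exact lt_top_iff_ne_top.2 hfin
  have hj := convexOn_exp.map_integral_le Real.continuous_exp.continuousOn isClosed_univ
    (Filter.Eventually.of_forall fun x => Set.mem_univ (g x)) hg hint
  calc ENNReal.ofReal (Real.exp (∫ x, g x ∂nu))
      ≤ ENNReal.ofReal (∫ x, Real.exp (g x) ∂nu) := ENNReal.ofReal_le_ofReal hj
    _ = ∫⁻ x, ENNReal.ofReal (Real.exp (g x)) ∂nu :=
        ofReal_integral_eq_lintegral_ofReal hint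
          (Filter.Eventually.of_forall fun x => (Real.exp_pos _).le)

end Pool.Agent.F1
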