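import Pool.Agent.F1.LStmts
import Pool.Agent.F1.LJac
import Pool.Agent.F1.LCom
import Pool.Agent.F1.LPerm

/-!
# Block L: the lower bound
-/

set_option autoImplicit false

open MeasureTheory Set Real
open scoped ENNReal
open Pool.Agent.Helper44.Ball3 (E3 sig)

namespace Pool.Agent.F1

theorem Lower_HH_meas (n : ℕ) : Measurable (HH n) := by
  unfold HH
  refine Measurable.add ?_ ?_
  · refine Finset.measurable_sum _ fun i _ => Finset.measurable_sum _ fun j _ => ?_
    split_ifs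
    · exact measurable_const
    · fun_prop
  · fun_prop

theorem Lower_HH_perm (n : ℕ) (σ : Equiv.Perm (Fin n)) (y : Fin n → E3) :
    HH n (fun i => y (σ i)) = HH n y := by
  unfold HH
  have h1 : ∑ i, ‖y (σ i)‖ ^ 2 = ∑ i, ‖y i‖ ^ 2 := Equiv.sum_comp σ (fun i => ‖y i‖ ^ 2)
  have h2 : ∑ i, ∑ j, (if j = i then (0 : ℝ) else -log ‖y (σ i) - y (σ j)‖) =
      ∑ i, ∑ j, (if j = i then (0 : ℝ) else -log ‖y i - y j‖) := by
    rw [← Equiv.sum_comp σ (fun i => ∑ j, (if j = i then (0 : ℝ) else -log ‖y i - y j‖))]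
    refine Finset.sum_congr rfl fun i _ => ?_
    rw [← Equiv.sum_comp σ (fun j => (if j = σ i then (0 : ℝ) else -log ‖y (σ i) - y j‖))]
    refine Finset.sum_congr rfl fun j _ => ?_
    by_cases h : j = i
    · rw [if_pos h, if_pos (by rw [h])]
    · rw [if_neg h, if_neg (fun e => h (σ.injective e))]
  rw [h1, h2]

theorem Lower_GG_meas (n : ℕ) : Measurable (GG n) := by
  unfold GG
  refine Measurable.add ?_ ?_
  · refine Measurable.neg ((Lower_HH_meas n).comp ?_)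
    exact measurable_pi_lambda _ fun i => LJac_TT_meas.comp (measurable_pi_apply i)
  · refine Finset.measurable_sum _ fun i _ => ?_
    exact Real.measurable_log.comp (LJac_jac_meas.comp (measurable_pi_apply i))

theorem Lower_GG_perm (n : ℕ) (σ : Equiv.Perm (Fin n)) (p : Fin n → C3) :
    GG n (fun i => p (σ i)) = GG n p := by
  unfold GG
  rw [Lower_HH_perm n σ (fun i => TT (p i)), Equiv.sum_comp σ (fun i => log (jac (p i)))]

theorem Lower_one (hCV : St_LCV) (hJ : St_LJac) (n : ℕ) :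
    ∫⁻ p, ENNReal.ofReal (exp (GG n p)) ∂(Measure.pi fun _ : Fin n => lam) ≤ Zn n := by
  refine le_trans (le_of_eq ?_) (hCV n (fun y => ENNReal.ofReal (exp (-HH n y)))
    (((Lower_HH_meas n).neg).exp.ennreal_ofReal))
  refine lintegral_congr_ae ?_
  have h2 : ∀ᵐ p ∂(Measure.pi fun _ : Fin n => lam),
      ∀ i, p i ∈ Ioo (0 : ℝ) 1 ×ˢ Ioo (0 : ℝ) 1 ×ˢ Ioo (0 : ℝ) 1 := by
    rw [ae_all_iff]
    intro i
    exact (Measure.quasiMeasurePreserving_eval (fun _ : Fin n => lam) i).ae LJac_ae_cube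
  filter_upwards [h2] with p hp
  have hj : ∀ i, 0 < jac (p i) := fun i => (hJ (p i) (hp i)).1
  rw [← ENNReal.ofReal_prod_of_nonneg (fun i _ => (hj i).le), ← ENNReal.ofReal_mul (exp_pos _).le]
  congr 1
  unfold GG
  rw [exp_add, Real.exp_sum]
  congr 1
  exact Finset.prod_congr rfl fun i _ => Real.exp_log (hj i)

theorem Lower_two (hCV : St_LCV) (hJ : St_LJac) (hS : St_LSum) {n k : ℕ} (hn : 0 < n) (hk : 0 < k)
    (hkn : k ^ 3 ≤ n) (hG : Integrable (GG n) (Measure.pi fun i : Fin n => nuu k i)) :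
    ENNReal.ofReal (exp (∫ p, GG n p ∂(Measure.pi fun i : Fin n => nuu k i) - n)) ≤ Zn n := by
  obtain ⟨hp, hm, hle, -⟩ := hS n k hk hkn
  have hpr : ∀ i : Fin n, IsProbabilityMeasure (nuu k i) := fun i => hp i
  set Fn : (Fin n → C3) → ℝ≥0∞ := fun p => ENNReal.ofReal (exp (GG n p)) with hFn
  have hFm : Measurable Fn := (Lower_GG_meas n).exp.ennreal_ofReal
  have h1 := LPerm lam n Fn hFm (fun σ p => by rw [hFn]; simp only; rw [Lower_GG_perm])
    (fun j => dens k j) (fun j => hm j) hle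
  have hsf : ∀ i : Fin n, SigmaFinite (lam.withDensity (dens k i)) := fun i => by
    have := hp i
    unfold nuu at this
    infer_instance
  have hQ : (Measure.pi fun i : Fin n => nuu k i) =
      (Measure.pi fun _ : Fin n => lam).withDensity (fun p => ∏ i : Fin n, dens k i (p i)) :=
    Pool.Agent.Helper44.Ball3.pi_withDensity (fun _ : Fin n => lam)
      (f := fun i => dens k i) (fun i => hm i)
  have hDm : Measurable fun p : Fin n → C3 => ∏ i : Fin n, dens k i (p i) :=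
    Finset.measurable_prod _ fun i _ => (hm i).comp (measurable_pi_apply i)
  have h2 : ∫⁻ p, Fn p * ∏ j : Fin n, dens k j (p j) ∂(Measure.pi fun _ : Fin n => lam) =
      ∫⁻ p, Fn p ∂(Measure.pi fun i : Fin n => nuu k i) := by
    rw [hQ, lintegral_withDensity_eq_lintegral_mul _ hDm hFm]
    refine lintegral_congr fun p => ?_
    rw [Pi.mul_apply, mul_comm]
  have h3 := LJensen (Measure.pi fun i : Fin n => nuu k i) (GG n) hG
  set E := ∫ p, GG n p ∂(Measure.pi fun i : Fin n => nuu k i) with hE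
  have h4 : (n.factorial : ℝ≥0∞) * ENNReal.ofReal (exp E) ≤ (n : ℝ≥0∞) ^ n * Zn n := by
    calc (n.factorial : ℝ≥0∞) * ENNReal.ofReal (exp E)
        ≤ (n.factorial : ℝ≥0∞) * ∫⁻ p, Fn p ∂(Measure.pi fun i : Fin n => nuu k i) :=
          mul_le_mul_right h3 _
      _ = (n.factorial : ℝ≥0∞) *
          ∫⁻ p, Fn p * ∏ j : Fin n, dens k j (p j) ∂(Measure.pi fun _ : Fin n => lam) := by
          rw [h2]
      _ ≤ (n : ℝ≥0∞) ^ n * ∫⁻ p, Fn p ∂(Measure.pi fun _ : Fin n => lam) := h1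
      _ ≤ (n : ℝ≥0∞) ^ n * Zn n := mul_le_mul_right (Lower_one hCV hJ n) _
  have h5 : (n : ℝ≥0∞) ^ n * ENNReal.ofReal (exp (E - n)) ≤
      (n.factorial : ℝ≥0∞) * ENNReal.ofReal (exp E) := by
    have h6 := Real.pow_div_factorial_le_exp (n : ℝ) (Nat.cast_nonneg n) n
    have h7 : (0 : ℝ) < n.factorial := by exact_mod_cast n.factorial_pos
    rw [div_le_iff₀ h7] at h6
    have h8 : (n : ℝ) ^ n * exp (E - n) ≤ n.factorial * exp E := by
      have h9 : exp E = exp n * exp (E - n) := by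
        rw [← exp_add]
        congr 1
        ring
      rw [h9]
      nlinarith [mul_le_mul_of_nonneg_right h6 (exp_pos (E - n)).le]
    have h10 := ENNReal.ofReal_le_ofReal h8
    rw [ENNReal.ofReal_mul (by positivity), ENNReal.ofReal_mul (by positivity),
      ENNReal.ofReal_pow (Nat.cast_nonneg n), ENNReal.ofReal_natCast, ENNReal.ofReal_natCast] at h10
    exact h10
  have h11 : (n : ℝ≥0∞) ^ n ≠ 0 := pow_ne_zero _ (by exact_mod_cast hn.ne')
  have h12 : (n : ℝ≥0∞) ^ n ≠ ⊤ := ENNReal.pow_ne_top (ENNReal.natCast_ne_top n)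
  exact (ENNReal.mul_le_mul_iff_right h11 h12).1 (h5.trans h4)

theorem Lower_nuu {k i : ℕ} (hi : k ^ 3 ≤ i) : nuu k i = lam := by
  unfold nuu dens
  rw [if_neg (not_lt.2 hi)]
  exact withDensity_one

theorem Lower_root (n : ℕ) (hn : 1 ≤ n) : ∃ k : ℕ, 0 < k ∧ k ^ 3 ≤ n ∧ n < (k + 1) ^ 3 := by
  have h1 : (Nat.findGreatest (fun k => k ^ 3 ≤ n) n) ^ 3 ≤ n :=
    Nat.findGreatest_spec (P := fun k => k ^ 3 ≤ n) hn (by simpa using hn)
  refine ⟨Nat.findGreatest (fun k => k ^ 3 ≤ n) n, ?_, h1, ?_⟩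
  · have h2 : 1 ≤ Nat.findGreatest (fun k => k ^ 3 ≤ n) n :=
      Nat.le_findGreatest hn (by simpa using hn)
    exact h2
  · by_contra hc
    push Not at hc
    have h3 : Nat.findGreatest (fun k => k ^ 3 ≤ n) n + 1 ≤ n := by
      calc Nat.findGreatest (fun k => k ^ 3 ≤ n) n + 1
          ≤ (Nat.findGreatest (fun k => k ^ 3 ≤ n) n + 1) ^ 3 := Nat.le_self_pow (by norm_num) _
        _ ≤ n := hc
    have h4 := Nat.le_findGreatest (P := fun k => k ^ 3 ≤ n) h3 hc
    omega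

theorem st_Lower (hM : St_Map) (hLI : St_LogInt) (hCV : St_LCV) (hS : St_LSum) (hC : St_LCell)
    (hE : St_LEn) (hJ : St_LJac) : St_Lower := by
  obtain ⟨C, hC⟩ := hC
  set J := ∫ x, log (jac x) ∂lam with hJdef
  refine ⟨log 2 + 8 + |C| + |kap - 1 / 4| + |J|, fun n hn => ?_⟩
  obtain ⟨k, hk, hkn, hkn'⟩ := Lower_root n hn
  obtain ⟨hG, hE⟩ := hE n k hk hkn
  refine le_trans (ENNReal.ofReal_le_ofReal (exp_le_exp.2 ?_))
    (Lower_two hCV hJ hS hn hk hkn hG)
  rw [hE]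
  have hself : ∑ i : Fin n, selfE (nuu k i) ≤
      (k : ℝ) ^ 3 * (C - log k) + ((n : ℝ) - k ^ 3) * (-(kap - 1 / 4)) := by
    rw [Fin.sum_univ_eq_sum_range (fun i => selfE (nuu k i)) n,
      ← Finset.sum_range_add_sum_Ico _ hkn]
    refine add_le_add (hC k hk) (le_of_eq ?_)
    have h1 : ∀ i ∈ Finset.Ico (k ^ 3) n, selfE (nuu k i) = -(kap - 1 / 4) := by
      intro i hi
      rw [Lower_nuu (Finset.mem_Ico.1 hi).1]
      exact (LCom_int hM hLI).2
    rw [Finset.sum_congr rfl h1, Finset.sum_const, Nat.card_Ico, nsmul_eq_mul, Nat.cast_sub hkn]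
    push_cast
    ring
  have hk1 : (1 : ℝ) ≤ k := by exact_mod_cast hk
  have hn1 : (1 : ℝ) ≤ n := by exact_mod_cast hn
  have hkn1 : (k : ℝ) ^ 3 ≤ n := by exact_mod_cast hkn
  have hkn2 : (n : ℝ) ≤ ((k : ℝ) + 1) ^ 3 := by exact_mod_cast hkn'.le
  have hk2 : (n : ℝ) - k ^ 3 ≤ 7 * k ^ 2 := by nlinarith
  have hlk : log k ≤ k := (Real.log_le_sub_one_of_pos (by linarith)).trans (by linarith)
  have hlk0 : 0 ≤ log (k : ℝ) := Real.log_nonneg hk1
  have hln : log (n : ℝ) / 3 ≤ log 2 + log k := by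
    have h1 : (n : ℝ) ≤ (2 * k) ^ 3 := by
      refine hkn2.trans (pow_le_pow_left₀ (by linarith) (by linarith) 3)
    have h2 : log (n : ℝ) ≤ 3 * (log 2 + log k) := by
      calc log (n : ℝ) ≤ log ((2 * k) ^ 3) := Real.log_le_log (by linarith) h1
        _ = 3 * (log 2 + log k) := by
          rw [Real.log_pow, Real.log_mul (by norm_num) (by linarith)]
          norm_num
    linarith
  have a1 : ((n : ℝ) - k ^ 3) * log k ≤ 7 * n := by
    have h1 : ((n : ℝ) - k ^ 3) * log k ≤ 7 * k ^ 2 * k :=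
      mul_le_mul hk2 hlk hlk0 (by positivity)
    nlinarith
  have a2 : (n : ℝ) * (log n / 3) ≤ n * (log 2 + log k) :=
    mul_le_mul_of_nonneg_left hln (by linarith)
  have a3 : (k : ℝ) ^ 3 * C ≤ n * |C| := by
    calc (k : ℝ) ^ 3 * C ≤ (k : ℝ) ^ 3 * |C| :=
          mul_le_mul_of_nonneg_left (le_abs_self C) (by positivity)
      _ ≤ n * |C| := mul_le_mul_of_nonneg_right hkn1 (abs_nonneg C)
  have a4 : ((n : ℝ) - k ^ 3) * (-(kap - 1 / 4)) ≤ n * |kap - 1 / 4| := by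
    calc ((n : ℝ) - k ^ 3) * (-(kap - 1 / 4)) ≤ ((n : ℝ) - k ^ 3) * |kap - 1 / 4| :=
          mul_le_mul_of_nonneg_left (neg_le_abs _) (by linarith)
      _ ≤ n * |kap - 1 / 4| :=
          mul_le_mul_of_nonneg_right (by nlinarith [pow_nonneg (by linarith : (0 : ℝ) ≤ k) 3])
            (abs_nonneg _)
  have a5 : -(n * |J|) ≤ n * J := by
    have h1 := neg_abs_le J
    have h2 := mul_le_mul_of_nonneg_left h1 (by linarith : (0 : ℝ) ≤ n)
    linarith
  nlinarith

end Pool.Agent.F1
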