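import Pool.Agent.F1.Fin
import Pool.Agent.F1.LCV
import Pool.Agent.F1.LCell
import Pool.Agent.F1.LEn
import Pool.Agent.F1.Lower

/-!
# F1: the theorem, assembled
-/

set_option autoImplicit false

namespace Pool.Agent.F1

theorem full : ∃ C : ℝ, ∀ n : ℕ, 1 ≤ n → 0 < Fone n ∧
      |Real.log (Fone n) - ((n : ℝ) ^ 2 * Real.log n / 2 - (Real.log 6 / 2 - 1 / 4) * n ^ 2 +
        4 / 3 * n * Real.log n)| ≤ C * n :=
  full_of_lower (st_Lower st_Map st_LogInt' (st_LCV st_Map st_LJac) st_LSum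
    (st_LCell st_Map st_LogInt' st_LSum) (st_LEn st_Map st_LogInt' st_LSum (st_Sq st_Map)) st_LJac)

end Pool.Agent.F1
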