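import Pool.Agent.F1.Basic

/-!
# F1: module Cut
-/

set_option autoImplicit false

open MeasureTheory Set Real
open scoped ENNReal InnerProductSpace
open Pool.Agent.Helper44.Ball3 (E3 sig)

namespace Pool.Agent.F1

theorem cut_int_one :
    IntegrableOn (fun s : ℝ => ((if s ≤ 1 then (1 : ℝ) else 0) - exp (-s)) / s) (Ioi 0) := by
  have hb : IntegrableOn (fun s : ℝ => (Ioc (0 : ℝ) 1).indicator (fun _ => (1 : ℝ)) s + exp (-s))
      (Ioi 0) := by
    refine Integrable.add ?_ ?_
    · refine Integrable.integrableOn ?_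
      rw [integrable_indicator_iff measurableSet_Ioc]
      exact integrableOn_const (by simp) (by simp)
    · exact integrableOn_exp_neg_Ioi (0 : ℝ)
  refine Integrable.mono' hb ?_ ?_
  · refine Measurable.aestronglyMeasurable ?_
    refine Measurable.div ?_ measurable_id
    refine Measurable.sub ?_ (by fun_prop)
    exact Measurable.ite measurableSet_Iic measurable_const measurable_const
  · filter_upwards [ae_restrict_mem measurableSet_Ioi] with s hs
    have hs0 : 0 < s := hs
    rw [Real.norm_eq_abs, abs_div, abs_of_pos hs0, div_le_iff₀ hs0]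
    by_cases h1 : s ≤ 1
    · rw [if_pos h1, indicator_of_mem (show s ∈ Ioc (0 : ℝ) 1 from ⟨hs0, h1⟩)]
      have h2 : 1 - s ≤ exp (-s) := by
        have := Real.add_one_le_exp (-s)
        linarith
      have h3 : exp (-s) ≤ 1 := by
        rw [Real.exp_le_one_iff]; linarith
      have h4 : 0 < exp (-s) := Real.exp_pos _
      rw [abs_of_nonneg (by linarith)]
      nlinarith
    · rw [if_neg h1, indicator_of_notMem (fun h => h1 h.2)]
      have h4 : 0 < exp (-s) := Real.exp_pos _
      rw [zero_sub, abs_neg, abs_of_pos h4, zero_add]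
      push Not at h1
      nlinarith

theorem cut_int_inv (a b : ℝ) (ha : 0 < a) :
    IntegrableOn (fun s : ℝ => s⁻¹) (Ioc a b) := by
  refine (ContinuousOn.integrableOn_Icc (a := a) (b := b) ?_).mono_set Ioc_subset_Icc_self
  intro s hs
  exact (continuousAt_inv₀ (lt_of_lt_of_le ha hs.1).ne').continuousWithinAt

theorem cut_decomp (a : ℝ) (s : ℝ) (hs : 0 < s) :
    ((if s ≤ a then (1 : ℝ) else 0) - exp (-s)) / s =
      ((if s ≤ 1 then (1 : ℝ) else 0) - exp (-s)) / s +
        ((Ioc 1 a).indicator (fun s => s⁻¹) s - (Ioc a 1).indicator (fun s => s⁻¹) s) := by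
  by_cases h1 : s ≤ a <;> by_cases h2 : s ≤ 1
  · rw [if_pos h1, if_pos h2, indicator_of_notMem (fun h => absurd h.1 (not_lt.2 h2)),
      indicator_of_notMem (fun h => absurd h.1 (not_lt.2 h1))]
    ring
  · rw [if_pos h1, if_neg h2, indicator_of_mem (show s ∈ Ioc 1 a from ⟨not_le.1 h2, h1⟩),
      indicator_of_notMem (fun h => h2 h.2)]
    field_simp
    ring
  · rw [if_neg h1, if_pos h2, indicator_of_notMem (fun h => h1 h.2),
      indicator_of_mem (show s ∈ Ioc a 1 from ⟨not_le.1 h1, h2⟩)]
    field_simp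
    ring
  · rw [if_neg h1, if_neg h2, indicator_of_notMem (fun h => h1 h.2),
      indicator_of_notMem (fun h => h2 h.2)]
    ring

theorem st_Cut : St_Cut := by
  refine ⟨∫ s in Ioi (0 : ℝ), ((if s ≤ 1 then (1 : ℝ) else 0) - exp (-s)) / s, ?_⟩
  intro a ha
  have hI1 : IntegrableOn (fun s => (Ioc 1 a).indicator (fun s : ℝ => s⁻¹) s) (Ioi 0) := by
    refine Integrable.integrableOn ?_
    rw [integrable_indicator_iff measurableSet_Ioc]
    exact cut_int_inv 1 a one_pos
  have hI2 : IntegrableOn (fun s => (Ioc a 1).indicator (fun s : ℝ => s⁻¹) s) (Ioi 0) := by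
    refine Integrable.integrableOn ?_
    rw [integrable_indicator_iff measurableSet_Ioc]
    exact cut_int_inv a 1 ha
  have hI3 : Integrable (fun s => (Ioc 1 a).indicator (fun s : ℝ => s⁻¹) s -
      (Ioc a 1).indicator (fun s => s⁻¹) s) (volume.restrict (Ioi 0)) := Integrable.sub hI1 hI2
  have hsum : IntegrableOn (fun s => ((if s ≤ 1 then (1 : ℝ) else 0) - exp (-s)) / s +
      ((Ioc 1 a).indicator (fun s => s⁻¹) s - (Ioc a 1).indicator (fun s => s⁻¹) s)) (Ioi 0) :=
    Integrable.add cut_int_one hI3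
  constructor
  · refine IntegrableOn.congr_fun hsum ?_ measurableSet_Ioi
    intro s hs
    exact (cut_decomp a s hs).symm
  · rw [setIntegral_congr_fun measurableSet_Ioi (fun s hs => cut_decomp a s hs),
      integral_add cut_int_one hI3, integral_sub hI1 hI2,
      setIntegral_indicator measurableSet_Ioc, setIntegral_indicator measurableSet_Ioc]
    have e1 : Ioi (0 : ℝ) ∩ Ioc 1 a = Ioc 1 a := by
      ext s
      simp only [mem_inter_iff, mem_Ioi, mem_Ioc, and_iff_right_iff_imp]
      intro h
      linarith [h.1]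
    have e2 : Ioi (0 : ℝ) ∩ Ioc a 1 = Ioc a 1 := by
      ext s
      simp only [mem_inter_iff, mem_Ioi, mem_Ioc, and_iff_right_iff_imp]
      intro h
      linarith [h.1]
    rw [e1, e2]
    have h3 : ∫ s in (1 : ℝ)..a, s⁻¹ = log (a / 1) := integral_inv_of_pos one_pos ha
    rw [intervalIntegral, div_one] at h3
    rw [h3, add_comm]

end Pool.Agent.F1
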