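import Mathlib
import Pool.Agent.Helper44.Ball3.Sphere
import Pool.Agent.Helper44.Ball3.ProdTools

/-!
# The integral with Gaussian weight in dimension three: definitions (MP_9736d0_an)

`E3` is `EuclideanSpace ℝ (Fin 3)` and `sig` is the uniform probability measure on its unit sphere
(both from `Helper44.Ball3`).
-/

set_option autoImplicit false

open MeasureTheory Set Real
open scoped ENNReal InnerProductSpace
open Pool.Agent.Helper44.Ball3 (E3 sig)

namespace Pool.Agent.F1

/-- The radius of the equilibrium ball. -/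
noncomputable def RR : ℝ := √(2 / 3)

/-- The equilibrium constant. -/
noncomputable def kap : ℝ := log 6 / 2 - 1 / 2

/-- The equilibrium density (it vanishes outside the ball of radius `RR`, since the square root
of a negative number is `0`). -/
noncomputable def rho (y : E3) : ℝ := 3 / (2 * π ^ 2) / √(2 / 3 - ‖y‖ ^ 2)

/-- The equilibrium measure. -/
noncomputable def mu : Measure E3 := volume.withDensity fun y => ENNReal.ofReal (rho y)

/-- Parameters. -/
abbrev C3 := ℝ × ℝ × ℝ

/-- Lebesgue measure on the unit cube. -/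
noncomputable def lam : Measure C3 := volume.restrict (Ioo 0 1 ×ˢ Ioo 0 1 ×ˢ Ioo 0 1)

/-- The parametrisation of the ball which maps `lam` to `mu`. -/
noncomputable def TT (p : C3) : E3 :=
  !₂[RR * √p.1 * cos (2 * π * p.2.1), RR * √p.1 * sin (2 * π * p.2.1),
    RR * √(1 - p.1) * cos (π * p.2.2)]

/-- The potential of `mu`. -/
noncomputable def U (x : E3) : ℝ := ∫ y, -log ‖x - y‖ ∂mu

/-- The effective potential; it vanishes on the ball and is nonnegative everywhere. -/
noncomputable def Phi (x : E3) : ℝ := U x + ‖x‖ ^ 2 / 2 - kap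

/-- Gaussian smoothing of `mu`. -/
noncomputable def ms (s : ℝ) (x : E3) : ℝ := ∫ y, exp (-(s * ‖x - y‖ ^ 2)) ∂mu

/-- The tail of the mixture. -/
noncomputable def Tt (x : E3) (a : ℝ) : ℝ := ∫ s in Ioi a, ms s x / (2 * s)

/-- The distance of `‖x‖ ^ 2` to `2 / 3`. -/
noncomputable def ww (x : E3) : ℝ := |2 / 3 - ‖x‖ ^ 2|

/-- The product of the squared distances. -/
noncomputable def QQ {n : ℕ} (y : Fin n → E3) : ℝ := ∏ k : Fin n, ∏ j ∈ Finset.Ioi k, ‖y j - y k‖ ^ 2

/-- The energy. -/
noncomputable def HH (n : ℕ) (y : Fin n → E3) : ℝ :=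
  (∑ i, ∑ j, if j = i then 0 else -log ‖y i - y j‖) + n * ∑ i, ‖y i‖ ^ 2

/-- The rescaled integral. -/
noncomputable def Zn (n : ℕ) : ℝ≥0∞ := ∫⁻ y : Fin n → E3, ENNReal.ofReal (exp (-HH n y))

end Pool.Agent.F1
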