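import Pool.Agent.F1.Basic

/-!
# F1: module Frull
-/

set_option autoImplicit false

open MeasureTheory Set Real
open scoped ENNReal InnerProductSpace
open Pool.Agent.Helper44.Ball3 (E3 sig)

namespace Pool.Agent.F1

/-- the inner integral over `t` -/
theorem frull_inner (s a b : ℝ) (hs : 0 < s) (hab : a ≤ b) :
    ENNReal.ofReal ((exp (-(s * a)) - exp (-(s * b))) / s) =
      ∫⁻ t in Ioc a b, ENNReal.ofReal (exp (-(s * t))) := by
  have hcont : Continuous fun t : ℝ => exp (-(s * t)) := by fun_prop
  have h1 : ∫ t in a..b, exp (-(s * t)) = (exp (-(s * a)) - exp (-(s * b))) / s := by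
    have hderiv : ∀ t ∈ uIcc a b,
        HasDerivAt (fun t : ℝ => -(exp (-(s * t)) / s)) (exp (-(s * t))) t := by
      intro t _
      have h2 : HasDerivAt (fun t : ℝ => -(s * t)) (-(s * 1)) t :=
        ((hasDerivAt_id t).const_mul s).neg
      have h3 := (h2.exp.div_const s).neg
      have h4 : -(exp (-(s * t)) * -(s * 1) / s) = exp (-(s * t)) := by
        field_simp
      rw [h4] at h3
      exact h3
    rw [intervalIntegral.integral_eq_sub_of_hasDerivAt hderiv (hcont.intervalIntegrable a b)]
    ring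
  rw [← h1, intervalIntegral.integral_of_le hab]
  rw [ofReal_integral_eq_lintegral_ofReal]
  · exact (hcont.integrableOn_Icc (a := a) (b := b)).mono_set Ioc_subset_Icc_self
  · exact Filter.Eventually.of_forall fun t => (exp_pos _).le

/-- the inner integral over `s` -/
theorem frull_outer (t : ℝ) (ht : 0 < t) :
    ∫⁻ s in Ioi (0 : ℝ), ENNReal.ofReal (exp (-(s * t))) = ENNReal.ofReal (1 / t) := by
  have h1 := integral_exp_mul_Ioi (a := -t) (by linarith) 0
  have h2 : IntegrableOn (fun s : ℝ => exp (-t * s)) (Ioi 0) := exp_neg_integrableOn_Ioi 0 ht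
  have h3 : ∀ s : ℝ, exp (-(s * t)) = exp (-t * s) := by
    intro s
    congr 1
    ring
  simp only [h3]
  rw [← ofReal_integral_eq_lintegral_ofReal h2
    (Filter.Eventually.of_forall fun s => (exp_pos _).le), h1]
  congr 1
  rw [mul_zero, exp_zero, neg_div_neg_eq]

theorem frull_main (a b : ℝ) (ha : 0 < a) (hab : a ≤ b) :
    ∫⁻ s in Ioi (0 : ℝ), ENNReal.ofReal ((exp (-(s * a)) - exp (-(s * b))) / s) =
      ENNReal.ofReal (log b - log a) := by
  have h1 : ∫⁻ s in Ioi (0 : ℝ), ENNReal.ofReal ((exp (-(s * a)) - exp (-(s * b))) / s) =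
      ∫⁻ s in Ioi (0 : ℝ), ∫⁻ t in Ioc a b, ENNReal.ofReal (exp (-(s * t))) := by
    refine setLIntegral_congr_fun measurableSet_Ioi fun s hs => ?_
    exact frull_inner s a b hs hab
  rw [h1, lintegral_lintegral_swap]
  · have h2 : ∫⁻ t in Ioc a b, ∫⁻ s in Ioi (0 : ℝ), ENNReal.ofReal (exp (-(s * t))) =
        ∫⁻ t in Ioc a b, ENNReal.ofReal (t⁻¹) := by
      refine setLIntegral_congr_fun measurableSet_Ioc fun t ht => ?_
      have ht0 : 0 < t := lt_trans ha ht.1
      show ∫⁻ s in Ioi (0 : ℝ), ENNReal.ofReal (exp (-(s * t))) = ENNReal.ofReal (t⁻¹)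
      rw [frull_outer t ht0, one_div]
    rw [h2]
    have hb : 0 < b := lt_of_lt_of_le ha hab
    have h3 : ∫ t in a..b, t⁻¹ = log b - log a := by
      rw [integral_inv_of_pos ha hb, Real.log_div hb.ne' ha.ne']
    rw [← h3, intervalIntegral.integral_of_le hab, ofReal_integral_eq_lintegral_ofReal]
    · have h4 : ContinuousOn (fun t : ℝ => t⁻¹) (Icc a b) := by
        apply continuousOn_inv₀.mono
        intro t ht
        have : 0 < t := lt_of_lt_of_le ha ht.1
        exact this.ne'
      exact (h4.integrableOn_Icc).mono_set Ioc_subset_Icc_self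
    · filter_upwards [ae_restrict_mem measurableSet_Ioc] with t ht
      have : 0 < t := lt_trans ha ht.1
      exact (inv_pos.2 this).le
  · apply Measurable.aemeasurable
    apply ENNReal.measurable_ofReal.comp
    have : Continuous fun p : ℝ × ℝ => exp (-(p.1 * p.2)) := by fun_prop
    exact this.measurable

theorem frull_meas (a b : ℝ) : Measurable fun s : ℝ => (exp (-(s * a)) - exp (-(s * b))) / s := by
  have h1 : Continuous fun s : ℝ => exp (-(s * a)) - exp (-(s * b)) := by fun_prop
  exact h1.measurable.div measurable_id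

theorem frull_nonneg (a b s : ℝ) (hs : 0 < s) (hab : a ≤ b) :
    0 ≤ (exp (-(s * a)) - exp (-(s * b))) / s := by
  apply div_nonneg _ hs.le
  have h1 : s * a ≤ s * b := mul_le_mul_of_nonneg_left hab hs.le
  have h2 : exp (-(s * b)) ≤ exp (-(s * a)) := exp_le_exp.2 (by linarith)
  linarith

theorem frull_int (a b : ℝ) (ha : 0 < a) (hab : a ≤ b) :
    IntegrableOn (fun s : ℝ => (exp (-(s * a)) - exp (-(s * b))) / s) (Ioi 0) ∧
      ∫ s in Ioi (0 : ℝ), (exp (-(s * a)) - exp (-(s * b))) / s = log b - log a := by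
  have hnn : 0 ≤ᵐ[volume.restrict (Ioi (0 : ℝ))]
      fun s : ℝ => (exp (-(s * a)) - exp (-(s * b))) / s := by
    filter_upwards [ae_restrict_mem measurableSet_Ioi] with s hs
    exact frull_nonneg a b s hs hab
  have hlog : 0 ≤ log b - log a := by
    have := Real.log_le_log ha hab
    linarith
  constructor
  · refine ⟨(frull_meas a b).aestronglyMeasurable, ?_⟩
    rw [hasFiniteIntegral_iff_ofReal hnn, frull_main a b ha hab]
    exact ENNReal.ofReal_lt_top
  · rw [integral_eq_lintegral_of_nonneg_ae hnn (frull_meas a b).aestronglyMeasurable,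
      frull_main a b ha hab, ENNReal.toReal_ofReal hlog]

theorem st_Frull : St_Frull := by
  intro r hr
  rcases le_total r 1 with h | h
  · -- `r ≤ 1`
    have hmain := frull_main r 1 hr h
    obtain ⟨hi, hv⟩ := frull_int r 1 hr h
    have hlog : log r ≤ 0 := Real.log_nonpos hr.le h
    simp only [mul_one, Real.log_one, zero_sub] at hmain hi hv
    refine ⟨?_, hi, hv⟩
    rw [abs_of_nonpos hlog, ← hmain]
    refine setLIntegral_congr_fun measurableSet_Ioi fun s hs => ?_
    have h1 := frull_nonneg r 1 s hs h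
    rw [mul_one] at h1
    show ENNReal.ofReal |(exp (-(s * r)) - exp (-s)) / s| = _
    rw [abs_of_nonneg h1]
  · -- `1 ≤ r`
    have hmain := frull_main 1 r one_pos h
    obtain ⟨hi, hv⟩ := frull_int 1 r one_pos h
    have hlog : 0 ≤ log r := Real.log_nonneg h
    simp only [mul_one, Real.log_one, sub_zero] at hmain hi hv
    have hneg : (fun s : ℝ => (exp (-(s * r)) - exp (-s)) / s) =
        fun s : ℝ => -((exp (-s) - exp (-(s * r))) / s) := by
      funext s
      ring
    refine ⟨?_, ?_, ?_⟩
    · rw [abs_of_nonneg hlog, ← hmain]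
      refine setLIntegral_congr_fun measurableSet_Ioi fun s hs => ?_
      have h1 := frull_nonneg 1 r s hs h
      rw [mul_one] at h1
      show ENNReal.ofReal |(exp (-(s * r)) - exp (-s)) / s| = _
      have h2 : (exp (-(s * r)) - exp (-s)) / s = -((exp (-s) - exp (-(s * r))) / s) := by ring
      rw [h2, abs_neg, abs_of_nonneg h1]
    · rw [hneg]
      exact hi.neg
    · rw [hneg, integral_neg, hv]

end Pool.Agent.F1
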