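import Pool.Agent.F1.Basic

/-!
# F1: module Gen
-/

set_option autoImplicit false

open MeasureTheory Set Real
open scoped ENNReal InnerProductSpace
open Pool.Agent.Helper44.Ball3 (E3 sig)

namespace Pool.Agent.F1

theorem gen_ww : ∀ᵐ x : E3, 0 < ww x := by
  have h : volume (Metric.sphere (0 : E3) RR) = 0 := Measure.addHaar_sphere _ _ _
  have h2 : ∀ᵐ x : E3, x ∉ Metric.sphere (0 : E3) RR := measure_eq_zero_iff_ae_notMem.1 h
  filter_upwards [h2] with x hx
  refine abs_pos.2 fun h0 => hx ?_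
  rw [mem_sphere_zero_iff_norm]
  have h3 := RR_sq
  have h4 := RR_pos
  have h5 := norm_nonneg x
  have h6 : ‖x‖ ^ 2 = RR ^ 2 := by linarith
  rcases sq_eq_sq_iff_eq_or_eq_neg.1 h6 with h7 | h7
  · exact h7
  · linarith

theorem gen_ne (n : ℕ) (i j : Fin n) (hij : i ≠ j) : ∀ᵐ y : Fin n → E3, y i ≠ y j := by
  let p : Submodule ℝ (Fin n → E3) :=
    LinearMap.ker ((LinearMap.proj i : (Fin n → E3) →ₗ[ℝ] E3) - LinearMap.proj j)
  have hp : p ≠ ⊤ := by
    intro h
    have h1 : (Pi.single i (EuclideanSpace.single 0 1) : Fin n → E3) ∈ p := by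
      rw [h]
      trivial
    have h2 : (EuclideanSpace.single 0 1 : E3) = 0 := by
      have h3 := LinearMap.mem_ker.1 h1
      simp only [LinearMap.sub_apply, LinearMap.proj_apply, Pi.single_eq_same,
        Pi.single_eq_of_ne (Ne.symm hij), sub_zero] at h3
      exact h3
    have h4 := congrArg (fun v : E3 => v 0) h2
    simp at h4
  have h0 : volume (p : Set (Fin n → E3)) = 0 := Measure.addHaar_submodule volume p hp
  have h2 : ∀ᵐ y : Fin n → E3, y ∉ (p : Set (Fin n → E3)) := measure_eq_zero_iff_ae_notMem.1 h0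
  filter_upwards [h2] with y hy h
  refine hy ?_
  change y ∈ p
  rw [LinearMap.mem_ker, LinearMap.sub_apply, LinearMap.proj_apply, LinearMap.proj_apply, h,
    sub_self]

theorem st_Gen : St_Gen := by
  intro n
  have h1 : ∀ᵐ y : Fin n → E3, ∀ i, 0 < ww (y i) := by
    rw [ae_all_iff]
    intro i
    exact (Measure.tendsto_eval_ae_ae (μ := fun _ : Fin n => (volume : Measure E3))).eventually
      gen_ww
  have h2 : ∀ᵐ y : Fin n → E3, ∀ i j, i ≠ j → y i ≠ y j := by
    rw [ae_all_iff]
    intro i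
    rw [ae_all_iff]
    intro j
    by_cases h : i = j
    · exact ae_of_all _ fun y hh => absurd h hh
    · filter_upwards [gen_ne n i j h] with y hy _ using hy
  filter_upwards [h1, h2] with y hy1 hy2
  refine ⟨fun i j hij => ?_, hy1⟩
  by_contra hne
  exact hy2 i j hne hij

end Pool.Agent.F1
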