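import Pool.Agent.F1.Pot
import Pool.Agent.F1.Basic

/-!
# F1 / LogInt: the energy of the equilibrium measure
-/

set_option autoImplicit false

open MeasureTheory Set Real
open scoped ENNReal InnerProductSpace
open Pool.Agent.Helper44.Ball3 (E3 sig)

namespace Pool.Agent.F1

theorem U_ball (hPot : St_Pot) {x : E3} (hx : ‖x‖ ^ 2 ≤ 2 / 3) : U x = kap - ‖x‖ ^ 2 / 2 := by
  have h1 := hPot.2.2 x hx
  unfold Phi at h1
  linarith

theorem st_LogInt (hMap : St_Map) (hPot : St_Pot) (hSq : St_Sq) : St_LogInt := by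
  have := isProb hMap
  have hmeas : Measurable (fun q : E3 × E3 => log ‖q.1 - q.2‖) := by fun_prop
  have hsym : ∀ x : E3, Integrable (fun y : E3 => 2 * (‖x‖ + 1) - log ‖x - y‖) mu := fun x =>
    (integrable_const _).sub (hPot.1 x)
  have hbd : ∀ᵐ x ∂mu, ∫ y, ‖log ‖x - y‖‖ ∂mu ≤ 4 + kap := by
    filter_upwards [ae_mu] with x hx
    have h1 : ∫ y, ‖log ‖x - y‖‖ ∂mu ≤ ∫ y, (2 * (‖x‖ + 1) - log ‖x - y‖) ∂mu := by
      refine integral_mono_ae (hPot.1 x).norm (hsym x) ?_
      filter_upwards [ae_mu_norm] with y hy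
      have h2 := abs_log_le ‖x - y‖
      rw [abs_of_nonneg (norm_nonneg (x - y))] at h2
      rw [Real.norm_eq_abs]
      have h3 : ‖x - y‖ ≤ ‖x‖ + 1 := (norm_sub_le _ _).trans (by linarith [RR_lt_one])
      linarith
    have h2 : ∫ y, (2 * (‖x‖ + 1) - log ‖x - y‖) ∂mu = 2 * (‖x‖ + 1) + U x := by
      rw [integral_sub (integrable_const _) (hPot.1 x), U, integral_neg]
      simp
      ring
    rw [h2, U_ball hPot hx.le] at h1
    have h3 : ‖x‖ ≤ 1 := by nlinarith [norm_nonneg x]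
    nlinarith [sq_nonneg ‖x‖]
  have hint : Integrable (fun q : E3 × E3 => log ‖q.1 - q.2‖) (mu.prod mu) := by
    rw [integrable_prod_iff hmeas.aestronglyMeasurable]
    refine ⟨Filter.Eventually.of_forall fun x => hPot.1 x, ?_⟩
    refine Integrable.of_bound (C := 4 + kap) ?_ ?_
    · exact (hmeas.norm.stronglyMeasurable.integral_prod_right').aestronglyMeasurable
    · filter_upwards [hbd] with x hx
      rw [Real.norm_eq_abs, abs_of_nonneg (integral_nonneg fun y => norm_nonneg _)]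
      exact hx
  refine ⟨hint, ?_⟩
  rw [integral_prod _ hint]
  have h1 : ∫ x, ∫ y, log ‖(x, y).1 - (x, y).2‖ ∂mu ∂mu = ∫ x, (‖x‖ ^ 2 / 2 - kap) ∂mu := by
    refine integral_congr_ae ?_
    filter_upwards [ae_mu] with x hx
    have h2 := U_ball hPot hx.le
    rw [U, integral_neg] at h2
    linarith
  rw [h1, integral_sub (hSq.1.div_const 2) (integrable_const _), integral_div, hSq.2]
  simp
  ring

end Pool.Agent.F1
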