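import Pool.Agent.F1.Basic

/-!
# F1: module Low
-/

set_option autoImplicit false

open MeasureTheory Set Real
open scoped ENNReal InnerProductSpace
open Pool.Agent.Helper44.Ball3 (E3 sig)

namespace Pool.Agent.F1

/-- the inequality at one scale -/
theorem low_scale (hPos : St_Pos) {n : ℕ} (y : Fin n → E3) (a : Fin n → ℝ) {s : ℝ} (hs : 0 < s) :
    2 * n * (∑ i, ((if s ≤ a i then ms s (y i) else 0) - exp (-s))) -
        n ^ 2 * ((∫ x, ms s x ∂mu) - exp (-s)) -
        ∑ i, ((if s ≤ a i then (1 : ℝ) else 0) - exp (-s)) ≤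
      ∑ i, ∑ j, if j = i then 0 else exp (-(s * ‖y i - y j‖ ^ 2)) - exp (-s) := by
  classical
  set A : Finset (Fin n) := Finset.univ.filter fun i => s ≤ a i with hA
  have h1 := hPos s n hs n A y
  have h2 : (∑ i ∈ A, ∑ j ∈ A, exp (-(s * ‖y i - y j‖ ^ 2))) ≤
      ∑ i ∈ A, (1 + ∑ j, if j = i then 0 else exp (-(s * ‖y i - y j‖ ^ 2))) := by
    refine Finset.sum_le_sum fun i hi => ?_
    have h3 : (∑ j ∈ A, exp (-(s * ‖y i - y j‖ ^ 2))) ≤ ∑ j, exp (-(s * ‖y i - y j‖ ^ 2)) :=
      Finset.sum_le_sum_of_subset_of_nonneg (Finset.subset_univ A) fun j _ _ => (exp_pos _).le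
    refine h3.trans (le_of_eq ?_)
    rw [← Finset.add_sum_erase _ _ (Finset.mem_univ i), sub_self, norm_zero]
    congr 1
    · norm_num
    · rw [← Finset.add_sum_erase Finset.univ (fun j => if j = i then (0 : ℝ) else
        exp (-(s * ‖y i - y j‖ ^ 2))) (Finset.mem_univ i), if_pos rfl, zero_add]
      refine Finset.sum_congr rfl fun j hj => ?_
      rw [if_neg (Finset.ne_of_mem_erase hj)]
  have h4 : (∑ i ∈ A, (1 + ∑ j, if j = i then 0 else exp (-(s * ‖y i - y j‖ ^ 2)))) ≤
      A.card + ∑ i, ∑ j, if j = i then 0 else exp (-(s * ‖y i - y j‖ ^ 2)) := by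
    rw [Finset.sum_add_distrib, Finset.sum_const, nsmul_eq_mul, mul_one]
    have h10 : (∑ i ∈ A, ∑ j, if j = i then (0 : ℝ) else exp (-(s * ‖y i - y j‖ ^ 2))) ≤
        ∑ i, ∑ j, if j = i then (0 : ℝ) else exp (-(s * ‖y i - y j‖ ^ 2)) := by
      refine Finset.sum_le_sum_of_subset_of_nonneg (Finset.subset_univ A) fun i _ _ =>
        Finset.sum_nonneg fun j _ => ?_
      split_ifs
      · exact le_rfl
      · exact (exp_pos _).le
    linarith
  have h5 : ∑ i, ((if s ≤ a i then (1 : ℝ) else 0) - exp (-s)) = A.card - n * exp (-s) := by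
    rw [Finset.sum_sub_distrib, Finset.sum_const, Finset.card_univ, Fintype.card_fin,
      nsmul_eq_mul, hA, Finset.card_filter]
    push_cast
    rfl
  have h6 : ∑ i, ((if s ≤ a i then ms s (y i) else 0) - exp (-s)) =
      ∑ i ∈ A, ms s (y i) - n * exp (-s) := by
    rw [Finset.sum_sub_distrib, Finset.sum_const, Finset.card_univ, Fintype.card_fin,
      nsmul_eq_mul, hA, Finset.sum_filter]
  have h7 : (∑ i : Fin n, ∑ j, if j = i then 0 else exp (-(s * ‖y i - y j‖ ^ 2)) - exp (-s)) =
      (∑ i, ∑ j, if j = i then 0 else exp (-(s * ‖y i - y j‖ ^ 2))) -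
        n * (n - 1) * exp (-s) := by
    have h8 : ∀ i : Fin n, (∑ j, if j = i then 0 else exp (-(s * ‖y i - y j‖ ^ 2)) - exp (-s)) =
        (∑ j, if j = i then 0 else exp (-(s * ‖y i - y j‖ ^ 2))) - (n - 1) * exp (-s) := by
      intro i
      have h9 : ∀ j, (if j = i then 0 else exp (-(s * ‖y i - y j‖ ^ 2)) - exp (-s)) =
          (if j = i then 0 else exp (-(s * ‖y i - y j‖ ^ 2))) -
            (exp (-s) - if j = i then exp (-s) else 0) := by
        intro j
        split_ifs <;> ring
      rw [Finset.sum_congr rfl fun j _ => h9 j, Finset.sum_sub_distrib, Finset.sum_sub_distrib,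
        Finset.sum_const, Finset.card_univ, Fintype.card_fin, Finset.sum_ite_eq' Finset.univ i,
        if_pos (Finset.mem_univ i), nsmul_eq_mul]
      ring
    rw [Finset.sum_congr rfl fun i _ => h8 i, Finset.sum_sub_distrib, Finset.sum_const,
      Finset.card_univ, Fintype.card_fin, nsmul_eq_mul]
    ring
  rw [h5, h6, h7]
  nlinarith [h1, h2, h4]

theorem st_Low (hMs : St_MsBasic) (hPos : St_Pos) (hTail : St_Tail) (hCut : St_Cut)
    (hFrull : St_Frull) (hUmix : St_Umix) (hImix : St_Imix) : St_Low := by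
  classical
  obtain ⟨c₀, hc⟩ := hCut
  refine ⟨c₀, ?_⟩
  intro n y a hy ha
  -- the mixture of one pair
  have hpair : ∀ i j : Fin n, IntegrableOn (fun s => if j = i then 0 else
      (exp (-(s * ‖y i - y j‖ ^ 2)) - exp (-s)) / s) (Ioi 0) ∧
      ∫ s in Ioi 0, (if j = i then 0 else (exp (-(s * ‖y i - y j‖ ^ 2)) - exp (-s)) / s) =
        2 * (if j = i then 0 else -log ‖y i - y j‖) := by
    intro i j
    by_cases hij : j = i
    · simp [hij]
    · simp only [if_neg hij]
      have hpos : 0 < ‖y i - y j‖ ^ 2 := by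
        have h1 : y i - y j ≠ 0 := sub_ne_zero.2 fun h => hij (hy h).symm
        have := norm_pos_iff.2 h1
        positivity
      obtain ⟨-, h1, h2⟩ := hFrull _ hpos
      refine ⟨h1, ?_⟩
      rw [h2, log_pow]
      push_cast
      ring
  -- the truncated potential
  have hU : ∀ i : Fin n, IntegrableOn (fun s => ((if s ≤ a i then ms s (y i) else 0) -
      exp (-s)) / s) (Ioi 0) ∧
      ∫ s in Ioi 0, ((if s ≤ a i then ms s (y i) else 0) - exp (-s)) / s =
        2 * (U (y i) - Tt (y i) (a i)) := by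
    intro i
    obtain ⟨h1, h2⟩ := hUmix (y i)
    have h3 := hTail.1 (y i) (a i) (ha i)
    have h4 : IntegrableOn (fun s => (Ioi (a i)).indicator (fun s => ms s (y i) / s) s) (Ioi 0) := by
      rw [integrableOn_indicator_iff measurableSet_Ioi]
      have h5 : Ioi (a i) ∩ Ioi 0 = Ioi (a i) :=
        inter_eq_left.2 (Ioi_subset_Ioi (ha i).le)
      rw [h5]
      refine IntegrableOn.congr_fun (f := fun s => 2 * (ms s (y i) / (2 * s))) (h3.const_mul 2)
        (fun s hs => ?_) measurableSet_Ioi
      have : s ≠ 0 := ((ha i).trans hs).ne'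
      change 2 * (ms s (y i) / (2 * s)) = ms s (y i) / s
      field_simp
    have h6 : ∀ s : ℝ, ((if s ≤ a i then ms s (y i) else 0) - exp (-s)) / s =
        (ms s (y i) - exp (-s)) / s - (Ioi (a i)).indicator (fun s => ms s (y i) / s) s := by
      intro s
      by_cases hs : s ≤ a i
      · rw [if_pos hs, indicator_of_notMem (notMem_Ioi.2 hs), sub_zero]
      · rw [if_neg hs, indicator_of_mem (mem_Ioi.2 (not_le.1 hs))]
        ring
    simp only [h6]
    refine ⟨h1.sub h4, ?_⟩
    rw [integral_sub h1 h4, h2, setIntegral_indicator measurableSet_Ioi]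
    have h5 : Ioi 0 ∩ Ioi (a i) = Ioi (a i) := inter_eq_right.2 (Ioi_subset_Ioi (ha i).le)
    rw [h5]
    have h7 : ∫ s in Ioi (a i), ms s (y i) / s = 2 * Tt (y i) (a i) := by
      unfold Tt
      rw [← integral_const_mul]
      refine setIntegral_congr_fun measurableSet_Ioi fun s hs => ?_
      have : s ≠ 0 := ((ha i).trans hs).ne'
      change ms s (y i) / s = 2 * (ms s (y i) / (2 * s))
      field_simp
    rw [h7]
    ring
  obtain ⟨hI1, hI2⟩ := hImix
  -- integrate
  have hL : IntegrableOn (fun s => 2 * n * (∑ i, ((if s ≤ a i then ms s (y i) else 0) -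
      exp (-s)) / s) - n ^ 2 * (((∫ x, ms s x ∂mu) - exp (-s)) / s) -
      ∑ i, ((if s ≤ a i then (1 : ℝ) else 0) - exp (-s)) / s) (Ioi 0) := by
    refine Integrable.sub (Integrable.sub (Integrable.const_mul ?_ _) (hI1.const_mul _)) ?_
    · exact integrable_finsetSum _ fun i _ => (hU i).1
    · exact integrable_finsetSum _ fun i _ => (hc (a i) (ha i)).1
  have hR : IntegrableOn (fun s => ∑ i, ∑ j, if j = i then 0 else
      (exp (-(s * ‖y i - y j‖ ^ 2)) - exp (-s)) / s) (Ioi 0) :=
    integrable_finsetSum _ fun i _ => integrable_finsetSum _ fun j _ => (hpair i j).1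
  have hmono := setIntegral_mono_on hL hR measurableSet_Ioi (fun s (hs : 0 < s) => by
    have h1 := low_scale hPos y a hs
    have h2 := div_le_div_of_nonneg_right h1 hs.le
    refine le_trans (le_of_eq ?_) (h2.trans (le_of_eq ?_))
    · rw [sub_div, sub_div, ← Finset.sum_div, ← Finset.sum_div]
      ring
    · rw [Finset.sum_div]
      refine Finset.sum_congr rfl fun i _ => ?_
      rw [Finset.sum_div]
      refine Finset.sum_congr rfl fun j _ => ?_
      split_ifs
      · exact zero_div _
      · rfl)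
  rw [integral_sub, integral_sub, integral_const_mul, integral_const_mul,
    integral_finsetSum _ fun i _ => (hU i).1, hI2,
    integral_finsetSum _ fun i _ => (hc (a i) (ha i)).1,
    integral_finsetSum _ fun i _ => integrable_finsetSum _ fun j _ => (hpair i j).1] at hmono
  · have e1 : ∀ i : Fin n, ∫ s in Ioi 0, (∑ j, if j = i then 0 else
        (exp (-(s * ‖y i - y j‖ ^ 2)) - exp (-s)) / s) =
        2 * ∑ j, (if j = i then 0 else -log ‖y i - y j‖) := by
      intro i
      rw [integral_finsetSum _ fun j _ => (hpair i j).1, Finset.mul_sum]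
      exact Finset.sum_congr rfl fun j _ => (hpair i j).2
    rw [Finset.sum_congr rfl fun i _ => e1 i, Finset.sum_congr rfl fun i _ => (hU i).2,
      Finset.sum_congr rfl fun i _ => (hc (a i) (ha i)).2, ← Finset.mul_sum, ← Finset.mul_sum]
      at hmono
    rw [← Finset.sum_div]
    linarith
  · exact Integrable.const_mul (integrable_finsetSum _ fun i _ => (hU i).1) _
  · exact hI1.const_mul _
  · refine Integrable.sub (Integrable.const_mul ?_ _) (hI1.const_mul _)
    exact integrable_finsetSum _ fun i _ => (hU i).1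
  · exact integrable_finsetSum _ fun i _ => (hc (a i) (ha i)).1

end Pool.Agent.F1
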