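import Pool.Agent.F1.Basic

/-!
# F1: module M1

The global bound `ms s x ≤ C * s ^ (-5/4)`: by rotation invariance the point may be taken on the
third axis; the integral over the cube is then estimated by a Gaussian integral in the angle and
an exponential integral in the first parameter.
-/

set_option autoImplicit false

open MeasureTheory Set Real
open scoped ENNReal InnerProductSpace
open Pool.Agent.Helper44.Ball3 (E3 sig)

namespace Pool.Agent.F1

open Pool.Agent.Helper44.Ball3 (e3 exists_rot)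

/-- rotation invariance of `ms` -/
theorem m1_rot (hRot : St_Rot) (s : ℝ) (x : E3) : ms s x = ms s (‖x‖ • e3) := by
  obtain ⟨L, hL⟩ : ∃ L : E3 ≃ₗᵢ[ℝ] E3, L x = ‖x‖ • e3 := by
    rcases eq_or_ne x 0 with h0 | h0
    · exact ⟨LinearIsometryEquiv.refl ℝ E3, by simp [h0]⟩
    · have hn : ‖x‖ ≠ 0 := norm_ne_zero_iff.2 h0
      have h1 : ‖(‖x‖⁻¹ • x : E3)‖ = 1 := by
        rw [norm_smul, norm_inv, norm_norm, inv_mul_cancel₀ hn]
      obtain ⟨L, hL⟩ := exists_rot h1
      refine ⟨L, ?_⟩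
      rw [← hL, map_smul, smul_smul, mul_inv_cancel₀ hn, one_smul]
  unfold ms
  conv_rhs => rw [← hRot L]
  rw [integral_map L.continuous.measurable.aemeasurable (by fun_prop)]
  refine integral_congr_ae (ae_of_all _ fun y => ?_)
  simp only
  rw [← hL, ← map_sub, LinearIsometryEquiv.norm_map]

theorem m1_lint (F : C3 → ℝ≥0∞) (hF : Measurable F) :
    ∫⁻ p, F p ∂lam = ∫⁻ u in Ioo (0 : ℝ) 1, ∫⁻ v in Ioo (0 : ℝ) 1, ∫⁻ o in Ioo (0 : ℝ) 1, F (u, v, o) := by
  unfold lam
  rw [Measure.volume_eq_prod, ← Measure.prod_restrict, Measure.volume_eq_prod,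
    ← Measure.prod_restrict, lintegral_prod _ hF.aemeasurable]
  refine lintegral_congr fun u => ?_
  rw [lintegral_prod _ (by fun_prop)]

theorem m1_dist (r u v o : ℝ) (hu0 : 0 ≤ u) :
    ‖r • e3 - TT (u, v, o)‖ ^ 2 = RR ^ 2 * u + (r - RR * √(1 - u) * cos (π * o)) ^ 2 := by
  rw [EuclideanSpace.norm_sq_eq, Fin.sum_univ_three]
  simp only [TT, e3, PiLp.sub_apply, PiLp.smul_apply, Real.norm_eq_abs, sq_abs]
  simp
  have h1 := Real.sq_sqrt hu0
  have h2 := Real.sin_sq_add_cos_sq (2 * π * v)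
  ring_nf
  have h3 : √u ^ 2 = u := h1
  rw [h3]
  have h4 : cos (π * v * 2) ^ 2 = 1 - sin (π * v * 2) ^ 2 := by
    rw [show π * v * 2 = 2 * π * v by ring]; linarith
  rw [h4]
  ring

theorem m1_cos' (a b : ℝ) (ha : 0 ≤ a) (hab : a ≤ b) (hb : b ≤ 1) :
    2 * (b - a) ^ 2 ≤ cos (π * a) - cos (π * b) := by
  have hp := Real.pi_pos
  rw [Real.cos_sub_cos]
  have h1 : sin ((π * a - π * b) / 2) = -sin (π * (b - a) / 2) := by
    rw [← Real.sin_neg]; congr 1; ring
  rw [h1]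
  have h2 : (b - a) ≤ sin (π * (b - a) / 2) := by
    have := Real.mul_le_sin (x := π * (b - a) / 2) (by nlinarith) (by nlinarith)
    calc b - a = 2 / π * (π * (b - a) / 2) := by field_simp
      _ ≤ _ := this
  have h3 : (b - a) ≤ sin ((π * a + π * b) / 2) := by
    rcases le_total ((π * a + π * b) / 2) (π / 2) with h | h
    · have := Real.mul_le_sin (x := (π * a + π * b) / 2) (by nlinarith) h
      calc b - a ≤ a + b := by linarith
        _ = 2 / π * ((π * a + π * b) / 2) := by field_simp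
        _ ≤ _ := this
    · have := Real.mul_le_sin (x := π - (π * a + π * b) / 2) (by nlinarith) (by nlinarith)
      rw [Real.sin_pi_sub] at this
      calc b - a ≤ 2 - a - b := by linarith
        _ = 2 / π * (π - (π * a + π * b) / 2) := by field_simp; ring
        _ ≤ _ := this
  have h4 : 0 ≤ b - a := by linarith
  nlinarith [mul_le_mul h3 h2 h4 (h4.trans h3)]

theorem m1_cos (a b : ℝ) (ha : a ∈ Icc (0 : ℝ) 1) (hb : b ∈ Icc (0 : ℝ) 1) :
    2 * (a - b) ^ 2 ≤ |cos (π * a) - cos (π * b)| := by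
  rcases le_total a b with h | h
  · have := m1_cos' a b ha.1 h hb.2
    calc 2 * (a - b) ^ 2 = 2 * (b - a) ^ 2 := by ring
      _ ≤ _ := this
      _ ≤ _ := le_abs_self _
  · have := m1_cos' b a hb.1 h ha.2
    rw [abs_sub_comm]
    exact this.trans (le_abs_self _)

theorem m1_ostar (q r : ℝ) (hq : 1 / 2 ≤ q) (hr : 0 ≤ r) :
    ∃ c : ℝ, ∀ o ∈ Icc (0 : ℝ) 1, (o - c) ^ 2 ≤ |r - q * cos (π * o)| := by
  have hp := Real.pi_pos
  rcases le_total r q with h | h
  · refine ⟨arccos (r / q) / π, fun o ho => ?_⟩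
    have hq0 : 0 < q := by linarith
    have h1 : r / q ≤ 1 := (div_le_one hq0).2 h
    have h2 : (0 : ℝ) ≤ r / q := by positivity
    have h3 : cos (π * (arccos (r / q) / π)) = r / q := by
      rw [mul_div_cancel₀ _ hp.ne', Real.cos_arccos (by linarith) h1]
    have h4 := m1_cos o (arccos (r / q) / π) ho
      ⟨div_nonneg (Real.arccos_nonneg _) hp.le, (div_le_one hp).2 (Real.arccos_le_pi _)⟩
    rw [h3] at h4
    have h5 : |r - q * cos (π * o)| = q * |cos (π * o) - r / q| := by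
      rw [abs_sub_comm, ← abs_of_pos hq0, ← abs_mul, abs_of_pos hq0]
      congr 1
      field_simp
    rw [h5]
    have h6 : 0 ≤ |cos (π * o) - r / q| := abs_nonneg _
    nlinarith
  · refine ⟨0, fun o ho => ?_⟩
    have h4 := m1_cos' 0 o le_rfl ho.1 ho.2
    simp only [mul_zero, Real.cos_zero, sub_zero] at h4
    have h5 := Real.cos_le_one (π * o)
    refine le_trans ?_ (le_abs_self _)
    nlinarith

theorem m1_gauss (b c : ℝ) (hb : 0 < b) :
    ∫⁻ o : ℝ, ENNReal.ofReal (exp (-(b * (o - c) ^ 2))) = ENNReal.ofReal √(π / b) := by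
  have h1 : Integrable (fun o : ℝ => exp (-b * (o - c) ^ 2)) :=
    (integrable_exp_neg_mul_sq hb).comp_sub_right c
  have h2 : ∫ o : ℝ, exp (-b * (o - c) ^ 2) = √(π / b) := by
    rw [integral_sub_right_eq_self (fun o => exp (-b * o ^ 2)) c, integral_gaussian]
  rw [← h2, ofReal_integral_eq_lintegral_ofReal h1 (ae_of_all _ fun o => (exp_pos _).le)]
  refine lintegral_congr fun o => ?_
  rw [neg_mul]

theorem m1_inner (s q r : ℝ) (hs : 0 < s) (hq : 1 / 2 ≤ q) (hr : 0 ≤ r) :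
    ∫⁻ o in Ioo (0 : ℝ) 1, ENNReal.ofReal (exp (-(s * (r - q * cos (π * o)) ^ 2))) ≤
      ENNReal.ofReal (exp (1 / 4) * √(π / √s)) := by
  obtain ⟨c, hc⟩ := m1_ostar q r hq hr
  have hs' : 0 < √s := Real.sqrt_pos.2 hs
  calc ∫⁻ o in Ioo (0 : ℝ) 1, ENNReal.ofReal (exp (-(s * (r - q * cos (π * o)) ^ 2)))
      ≤ ∫⁻ o in Ioo (0 : ℝ) 1, ENNReal.ofReal (exp (1 / 4)) *
          ENNReal.ofReal (exp (-(√s * (o - c) ^ 2))) := by
        refine setLIntegral_mono' measurableSet_Ioo fun o ho => ?_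
        rw [← ENNReal.ofReal_mul (exp_pos _).le, ← Real.exp_add]
        refine ENNReal.ofReal_le_ofReal (Real.exp_le_exp.2 ?_)
        have h1 := hc o ⟨ho.1.le, ho.2.le⟩
        set X := r - q * cos (π * o) with hX
        have h2 : s * X ^ 2 = (√s * |X|) ^ 2 := by
          rw [mul_pow, Real.sq_sqrt hs.le, sq_abs]
        rw [h2]
        nlinarith [sq_nonneg (√s * |X| - 1 / 2), mul_le_mul_of_nonneg_left h1 hs'.le]
    _ ≤ ∫⁻ o : ℝ, ENNReal.ofReal (exp (1 / 4)) * ENNReal.ofReal (exp (-(√s * (o - c) ^ 2))) :=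
        setLIntegral_le_lintegral _ _
    _ = _ := by
        rw [lintegral_const_mul _ (by fun_prop), m1_gauss _ _ hs',
          ENNReal.ofReal_mul (exp_pos _).le]

theorem m1_sqrt (s : ℝ) (hs : 0 < s) : √(π / √s) = √π * s ^ (-(1 / 4) : ℝ) := by
  rw [Real.sqrt_div' _ (Real.sqrt_nonneg _), div_eq_mul_inv]
  congr 1
  rw [Real.sqrt_eq_rpow, Real.sqrt_eq_rpow, ← Real.rpow_mul hs.le, ← Real.rpow_neg hs.le]
  norm_num

theorem m1_exp (s : ℝ) (hs : 0 < s) : exp (-(s / 3)) ≤ 18 * s ^ (-(5 / 4) : ℝ) := by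
  rcases le_total s 1 with h | h
  · have h1 : 1 ≤ s ^ (-(5 / 4) : ℝ) :=
      Real.one_le_rpow_of_pos_of_le_one_of_nonpos hs h (by norm_num)
    have h2 : exp (-(s / 3)) ≤ 1 := by
      rw [Real.exp_le_one_iff]; linarith
    linarith
  · have h1 : s ^ (-2 : ℝ) ≤ s ^ (-(5 / 4) : ℝ) :=
      Real.rpow_le_rpow_of_exponent_le h (by norm_num)
    have h2 : exp (-(s / 3)) ≤ 18 * s ^ (-2 : ℝ) := by
      have h3 : (s / 3) ^ 2 / 2 ≤ exp (s / 3) := by
        have := Real.quadratic_le_exp_of_nonneg (x := s / 3) (by positivity)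
        have h5 : 0 ≤ s / 3 := by positivity
        linarith
      rw [Real.exp_neg, Real.rpow_neg hs.le, ← div_eq_mul_inv, inv_eq_one_div,
        div_le_div_iff₀ (exp_pos _) (by positivity)]
      have h4 : s ^ (2 : ℝ) = s ^ 2 := by norm_cast
      rw [h4]
      nlinarith
    linarith

theorem m1_q (u : ℝ) (hu : u ≤ 1 / 2) : 1 / 2 ≤ RR * √(1 - u) := by
  have h1 : RR * √(1 - u) = √(2 / 3 * (1 - u)) := by
    unfold RR
    rw [Real.sqrt_mul (by norm_num)]
  rw [h1]
  apply Real.le_sqrt_of_sq_le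
  linarith

theorem m1_point (s r u v : ℝ) (hs : 0 < s) (hr : 0 ≤ r) (hu : u ∈ Ioo (0 : ℝ) 1) :
    ∫⁻ o in Ioo (0 : ℝ) 1, ENNReal.ofReal (exp (-(s * ‖r • e3 - TT (u, v, o)‖ ^ 2))) ≤
      ENNReal.ofReal (exp (1 / 4) * √(π / √s) * exp (-(2 * s / 3) * u) + exp (-(s / 3))) := by
  have h0 : ∀ o : ℝ, ENNReal.ofReal (exp (-(s * ‖r • e3 - TT (u, v, o)‖ ^ 2))) =
      ENNReal.ofReal (exp (-(2 * s / 3) * u)) *
        ENNReal.ofReal (exp (-(s * (r - RR * √(1 - u) * cos (π * o)) ^ 2))) := by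
    intro o
    rw [← ENNReal.ofReal_mul (exp_pos _).le, ← Real.exp_add, m1_dist r u v o hu.1.le, RR_sq]
    congr 2
    ring
  simp only [h0]
  rw [lintegral_const_mul _ (by fun_prop)]
  rcases le_total u (1 / 2) with h | h
  · calc _ ≤ ENNReal.ofReal (exp (-(2 * s / 3) * u)) *
          ENNReal.ofReal (exp (1 / 4) * √(π / √s)) :=
        mul_le_mul_right (m1_inner s _ r hs (m1_q u h) hr) _
      _ ≤ _ := by
        rw [← ENNReal.ofReal_mul (exp_pos _).le]
        refine ENNReal.ofReal_le_ofReal ?_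
        have := (exp_pos (-(s / 3))).le
        linarith
  · calc _ ≤ ENNReal.ofReal (exp (-(s / 3))) * 1 := by
          refine mul_le_mul' (ENNReal.ofReal_le_ofReal (Real.exp_le_exp.2 ?_)) ?_
          · nlinarith
          · calc _ ≤ ∫⁻ _ in Ioo (0 : ℝ) 1, 1 := by
                  refine setLIntegral_mono' measurableSet_Ioo fun o _ => ?_
                  rw [← ENNReal.ofReal_one]
                  refine ENNReal.ofReal_le_ofReal ?_
                  rw [Real.exp_le_one_iff]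
                  have := sq_nonneg (r - RR * √(1 - u) * cos (π * o))
                  nlinarith
              _ = 1 := by simp
      _ ≤ _ := by
        rw [mul_one]
        refine ENNReal.ofReal_le_ofReal ?_
        have : 0 ≤ exp (1 / 4) * √(π / √s) * exp (-(2 * s / 3) * u) := by positivity
        linarith

theorem m1_outer (s K E : ℝ) (hs : 0 < s) (hK : 0 ≤ K) (hE : 0 ≤ E) :
    ∫⁻ u in Ioo (0 : ℝ) 1, ENNReal.ofReal (K * exp (-(2 * s / 3) * u) + E) ≤
      ENNReal.ofReal (K * (3 / (2 * s)) + E) := by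
  have ha : -(2 * s / 3) < 0 := by linarith
  have h1 : IntegrableOn (fun u => K * exp (-(2 * s / 3) * u)) (Ioi 0) :=
    (integrableOn_exp_mul_Ioi ha 0).const_mul K
  have h2 : ∫ u in Ioi 0, K * exp (-(2 * s / 3) * u) = K * (3 / (2 * s)) := by
    rw [integral_const_mul, integral_exp_mul_Ioi ha 0]
    simp
  calc ∫⁻ u in Ioo (0 : ℝ) 1, ENNReal.ofReal (K * exp (-(2 * s / 3) * u) + E)
      = ∫⁻ u in Ioo (0 : ℝ) 1, (ENNReal.ofReal (K * exp (-(2 * s / 3) * u)) +
          ENNReal.ofReal E) := by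
        refine lintegral_congr fun u => ?_
        rw [ENNReal.ofReal_add (by positivity) hE]
    _ = (∫⁻ u in Ioo (0 : ℝ) 1, ENNReal.ofReal (K * exp (-(2 * s / 3) * u))) +
          ENNReal.ofReal E := by
        rw [lintegral_add_right _ (by fun_prop)]
        simp
    _ ≤ (∫⁻ u in Ioi (0 : ℝ), ENNReal.ofReal (K * exp (-(2 * s / 3) * u))) +
          ENNReal.ofReal E :=
        add_le_add_left (lintegral_mono_set Ioo_subset_Ioi_self) _
    _ = _ := by
        rw [← ofReal_integral_eq_lintegral_ofReal h1 (ae_of_all _ fun u => by positivity), h2,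
          ENNReal.ofReal_add (by positivity) hE]

theorem st_M1 (hMap : St_Map) (hRot : St_Rot) (hMsBasic : St_MsBasic) : St_M1 := by
  refine ⟨exp (1 / 4) * √π * (3 / 2) + 18, by positivity, fun s x hs => ?_⟩
  rw [m1_rot hRot s x]
  set r := ‖x‖ with hr
  have hr0 : 0 ≤ r := norm_nonneg x
  have h0 := hMsBasic.2.2.2 s (r • e3) hs.le
  have h1 : ENNReal.ofReal (ms s (r • e3)) =
      ∫⁻ y, ENNReal.ofReal (exp (-(s * ‖r • e3 - y‖ ^ 2))) ∂mu := by
    unfold ms
    rw [ofReal_integral_eq_lintegral_ofReal h0 (ae_of_all _ fun y => (exp_pos _).le)]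
  have h2 : ∫⁻ y, ENNReal.ofReal (exp (-(s * ‖r • e3 - y‖ ^ 2))) ∂mu =
      ∫⁻ p, ENNReal.ofReal (exp (-(s * ‖r • e3 - TT p‖ ^ 2))) ∂lam := by
    rw [← hMap.2, lintegral_map (by fun_prop) hMap.1]
  have h3 : Measurable fun p : C3 => ENNReal.ofReal (exp (-(s * ‖r • e3 - TT p‖ ^ 2))) := by
    have := hMap.1
    fun_prop
  have hC : exp (1 / 4) * √(π / √s) * (3 / (2 * s)) + exp (-(s / 3)) ≤
      (exp (1 / 4) * √π * (3 / 2) + 18) * s ^ (-(5 / 4) : ℝ) := by
    have h5 : s ^ (-(5 / 4) : ℝ) = s ^ (-(1 / 4) : ℝ) / s := by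
      rw [← Real.rpow_sub_one hs.ne']
      norm_num
    have h6 := m1_exp s hs
    rw [m1_sqrt s hs]
    have h7 : exp (1 / 4) * (√π * s ^ (-(1 / 4) : ℝ)) * (3 / (2 * s)) =
        exp (1 / 4) * √π * (3 / 2) * s ^ (-(5 / 4) : ℝ) := by
      rw [h5]
      field_simp
    rw [h7]
    linarith
  refine le_trans ?_ hC
  have hpos : 0 ≤ exp (1 / 4) * √(π / √s) * (3 / (2 * s)) + exp (-(s / 3)) := by positivity
  rw [← ENNReal.ofReal_le_ofReal_iff hpos, h1, h2, m1_lint _ h3]
  calc _ ≤ ∫⁻ u in Ioo (0 : ℝ) 1, ∫⁻ _ in Ioo (0 : ℝ) 1,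
        ENNReal.ofReal (exp (1 / 4) * √(π / √s) * exp (-(2 * s / 3) * u) + exp (-(s / 3))) := by
        refine setLIntegral_mono' measurableSet_Ioo fun u hu => ?_
        refine lintegral_mono fun v => ?_
        exact m1_point s r u v hs hr0 hu
    _ = ∫⁻ u in Ioo (0 : ℝ) 1,
        ENNReal.ofReal (exp (1 / 4) * √(π / √s) * exp (-(2 * s / 3) * u) + exp (-(s / 3))) := by
        simp
    _ ≤ _ := m1_outer s _ _ hs (by positivity) (exp_pos _).le

end Pool.Agent.F1
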