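import Pool.Agent.F1.Basic

/-!
# F1: module M2
-/

set_option autoImplicit false

open MeasureTheory Set Real
open scoped ENNReal InnerProductSpace
open Pool.Agent.Helper44.Ball3 (E3 sig)

namespace Pool.Agent.F1

/-- The Gaussian integral in dimension three. -/
theorem m2_gauss (s : ℝ) (hs : 0 < s) (x : E3) :
    Integrable (fun y : E3 => exp (-(s * ‖x - y‖ ^ 2))) volume ∧
      ∫ y : E3, exp (-(s * ‖x - y‖ ^ 2)) = (π / s) ^ ((3 : ℝ) / 2) := by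
  have h1 : ∫ y : E3, exp (-s * ‖y‖ ^ 2) = (π / s) ^ ((3 : ℝ) / 2) := by
    rw [GaussianFourier.integral_rexp_neg_mul_sq_norm hs]
    simp
  have h2 : ∫ y : E3, exp (-(s * ‖x - y‖ ^ 2)) = (π / s) ^ ((3 : ℝ) / 2) := by
    rw [← h1]
    rw [← integral_sub_left_eq_self (fun y : E3 => exp (-s * ‖y‖ ^ 2)) volume x]
    simp only [neg_mul]
  refine ⟨?_, h2⟩
  apply Integrable.of_integral_ne_zero
  rw [h2]
  have : 0 < π / s := div_pos pi_pos hs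
  positivity

/-- The set on which the density is bounded. -/
def m2A (w : ℝ) : Set E3 := {y : E3 | w / 2 ≤ 2 / 3 - ‖y‖ ^ 2}

theorem m2_measA (w : ℝ) : MeasurableSet (m2A w) :=
  measurableSet_le measurable_const (by fun_prop)

theorem m2_rho_le {w : ℝ} (hw : 0 < w) {y : E3} (hy : y ∈ m2A w) :
    rho y ≤ 3 / (2 * π ^ 2) / √(w / 2) := by
  unfold rho
  have h1 : 0 < √(w / 2) := Real.sqrt_pos.2 (by positivity)
  have h2 : √(w / 2) ≤ √(2 / 3 - ‖y‖ ^ 2) := Real.sqrt_le_sqrt hy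
  gcongr

theorem m2_restrict_le {w : ℝ} (hw : 0 < w) :
    mu.restrict (m2A w) ≤ ENNReal.ofReal (3 / (2 * π ^ 2) / √(w / 2)) • (volume : Measure E3) := by
  refine Measure.le_iff.2 fun t ht => ?_
  rw [Measure.restrict_apply ht, Measure.smul_apply, smul_eq_mul]
  unfold mu
  rw [withDensity_apply _ (ht.inter (m2_measA w))]
  calc ∫⁻ y in t ∩ m2A w, ENNReal.ofReal (rho y)
      ≤ ∫⁻ _y in t ∩ m2A w, ENNReal.ofReal (3 / (2 * π ^ 2) / √(w / 2)) := by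
        refine setLIntegral_mono' (ht.inter (m2_measA w)) fun y hy => ?_
        exact ENNReal.ofReal_le_ofReal (m2_rho_le hw hy.2)
    _ = ENNReal.ofReal (3 / (2 * π ^ 2) / √(w / 2)) * volume (t ∩ m2A w) := by
        rw [setLIntegral_const]
    _ ≤ _ := by
        gcongr
        exact inter_subset_left

theorem m2_inner {w s : ℝ} (hw : 0 < w) (hs : 0 < s) (x : E3) :
    ∫ y in m2A w, exp (-(s * ‖x - y‖ ^ 2)) ∂mu ≤
      3 / (2 * π ^ 2) / √(w / 2) * (π / s) ^ ((3 : ℝ) / 2) := by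
  obtain ⟨h1, h2⟩ := m2_gauss s hs x
  have h3 : 0 ≤ 3 / (2 * π ^ 2) / √(w / 2) := by positivity
  calc ∫ y in m2A w, exp (-(s * ‖x - y‖ ^ 2)) ∂mu
      ≤ ∫ y, exp (-(s * ‖x - y‖ ^ 2))
          ∂(ENNReal.ofReal (3 / (2 * π ^ 2) / √(w / 2)) • (volume : Measure E3)) := by
        refine integral_mono_measure (m2_restrict_le hw) ?_ ?_
        · exact ae_of_all _ fun y => (exp_pos _).le
        · exact h1.smul_measure ENNReal.ofReal_ne_top
    _ = _ := by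
        rw [integral_smul_measure, h2, ENNReal.toReal_ofReal h3, smul_eq_mul]

theorem m2_far {x y : E3} {s : ℝ} (hs : 0 < s) (hx : ‖x‖ ≤ 2) (hy : ‖y‖ ^ 2 < 2 / 3)
    (hA : y ∉ m2A (ww x)) :
    exp (-(s * ‖x - y‖ ^ 2)) ≤ exp (-(s * ww x ^ 2 / 72)) * exp (-(s / 2 * ‖x - y‖ ^ 2)) := by
  have h0 : 2 / 3 - ‖y‖ ^ 2 < ww x / 2 := by
    by_contra h
    exact hA (not_lt.1 h)
  have hw0 : 0 ≤ ww x := ww_nonneg x
  have hy0 := norm_nonneg y
  have hx0 := norm_nonneg x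
  have hy1 : ‖y‖ ≤ 1 := by nlinarith
  have h1 : |‖x‖ - ‖y‖| ≤ ‖x - y‖ := abs_norm_sub_norm_le x y
  have h2 : ww x / 2 ≤ 3 * ‖x - y‖ := by
    have h3 : |‖x‖ ^ 2 - ‖y‖ ^ 2| ≤ 3 * ‖x - y‖ := by
      have : ‖x‖ ^ 2 - ‖y‖ ^ 2 = (‖x‖ + ‖y‖) * (‖x‖ - ‖y‖) := by ring
      rw [this, abs_mul, abs_of_nonneg (by positivity)]
      have : (‖x‖ + ‖y‖) ≤ 3 := by linarith
      gcongr
    have h4 : ww x ≤ |‖x‖ ^ 2 - ‖y‖ ^ 2| + |2 / 3 - ‖y‖ ^ 2| := by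
      unfold ww
      have := abs_sub_abs_le_abs_sub (2 / 3 - ‖x‖ ^ 2) (2 / 3 - ‖y‖ ^ 2)
      have h5 : |(2 / 3 - ‖x‖ ^ 2) - (2 / 3 - ‖y‖ ^ 2)| = |‖x‖ ^ 2 - ‖y‖ ^ 2| := by
        rw [← abs_neg]
        congr 1
        ring
      rw [h5] at this
      linarith
    rw [abs_of_pos (by linarith : 0 < 2 / 3 - ‖y‖ ^ 2)] at h4
    linarith
  rw [← exp_add]
  apply exp_le_exp.2
  have h6 : ww x / 6 ≤ ‖x - y‖ := by linarith
  have h7 : (ww x / 6) ^ 2 ≤ ‖x - y‖ ^ 2 := by gcongr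
  nlinarith

theorem st_M2 (hMap : St_Map) (hMsBasic : St_MsBasic) (hM1 : St_M1) : St_M2 := by
  have _hP := isProb hMap
  obtain ⟨-, -, -, hI⟩ := hMsBasic
  obtain ⟨C, hC, hM⟩ := hM1
  set K : ℝ := 3 / (2 * π ^ 2) * √2 * π ^ ((3 : ℝ) / 2) with hK
  have hK0 : 0 < K := by
    have := pi_pos
    positivity
  have h54 : (0 : ℝ) < (1 / 2 : ℝ) ^ (-(5 / 4) : ℝ) := by positivity
  refine ⟨K + C * (1 / 2 : ℝ) ^ (-(5 / 4) : ℝ), by positivity, fun s x hs hx hw => ?_⟩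
  have hs2 : 0 < s / 2 := by positivity
  have hE : 0 < exp (-(s * ww x ^ 2 / 72)) := exp_pos _
  -- the splitting
  have hsplit : ms s x ≤ ∫ y in m2A (ww x), exp (-(s * ‖x - y‖ ^ 2)) ∂mu +
      exp (-(s * ww x ^ 2 / 72)) * ms (s / 2) x := by
    have hi1 : Integrable ((m2A (ww x)).indicator fun y => exp (-(s * ‖x - y‖ ^ 2))) mu :=
      (hI s x hs.le).indicator (m2_measA _)
    have hi2 : Integrable (fun y => exp (-(s * ww x ^ 2 / 72)) * exp (-(s / 2 * ‖x - y‖ ^ 2))) mu :=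
      (hI (s / 2) x hs2.le).const_mul _
    calc ms s x = ∫ y, exp (-(s * ‖x - y‖ ^ 2)) ∂mu := rfl
      _ ≤ ∫ y, ((m2A (ww x)).indicator (fun y => exp (-(s * ‖x - y‖ ^ 2))) y +
            exp (-(s * ww x ^ 2 / 72)) * exp (-(s / 2 * ‖x - y‖ ^ 2))) ∂mu := by
          refine integral_mono_ae (hI s x hs.le) (hi1.add hi2) ?_
          filter_upwards [ae_mu] with y hy
          by_cases hA : y ∈ m2A (ww x)
          · rw [indicator_of_mem hA]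
            have : 0 < exp (-(s * ww x ^ 2 / 72)) * exp (-(s / 2 * ‖x - y‖ ^ 2)) := by positivity
            linarith
          · rw [indicator_of_notMem hA, zero_add]
            exact m2_far hs hx hy hA
      _ = _ := by
          rw [integral_add hi1 hi2, integral_indicator (m2_measA _), integral_const_mul]
          rfl
  have h1 := m2_inner hw hs x
  have h2 : 3 / (2 * π ^ 2) / √(ww x / 2) * (π / s) ^ ((3 : ℝ) / 2) =
      K * (ww x) ^ (-(1 / 2) : ℝ) * s ^ (-(3 / 2) : ℝ) := by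
    rw [hK, Real.sqrt_div hw.le, Real.div_rpow pi_pos.le hs.le, Real.rpow_neg hw.le,
      Real.rpow_neg hs.le, Real.sqrt_eq_rpow (ww x)]
    have hw1 : (ww x) ^ ((1 : ℝ) / 2) ≠ 0 := by positivity
    have hs1 : s ^ ((3 : ℝ) / 2) ≠ 0 := by positivity
    field_simp
  have h3 : ms (s / 2) x ≤ C * (1 / 2 : ℝ) ^ (-(5 / 4) : ℝ) * s ^ (-(5 / 4) : ℝ) := by
    refine (hM (s / 2) x hs2).trans (le_of_eq ?_)
    rw [show s / 2 = 1 / 2 * s by ring, Real.mul_rpow (by norm_num) hs.le]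
    ring
  have hp1 : 0 ≤ (ww x) ^ (-(1 / 2) : ℝ) * s ^ (-(3 / 2) : ℝ) := by positivity
  have hp2 : 0 ≤ exp (-(s * ww x ^ 2 / 72)) * s ^ (-(5 / 4) : ℝ) := by positivity
  have h4 : exp (-(s * ww x ^ 2 / 72)) * ms (s / 2) x ≤
      exp (-(s * ww x ^ 2 / 72)) * (C * (1 / 2 : ℝ) ^ (-(5 / 4) : ℝ) * s ^ (-(5 / 4) : ℝ)) := by
    gcongr
  have h5 : 0 ≤ C * (1 / 2 : ℝ) ^ (-(5 / 4) : ℝ) * ((ww x) ^ (-(1 / 2) : ℝ) * s ^ (-(3 / 2) : ℝ)) := by
    positivity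
  have h6 : 0 ≤ K * (exp (-(s * ww x ^ 2 / 72)) * s ^ (-(5 / 4) : ℝ)) := by positivity
  rw [h2] at h1
  nlinarith

end Pool.Agent.F1
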