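import Pool.Agent.F1.Basic

/-!
# F1: module M3
-/

set_option autoImplicit false

open MeasureTheory Set Real
open scoped ENNReal InnerProductSpace
open Pool.Agent.Helper44.Ball3 (E3 sig)

namespace Pool.Agent.F1

theorem m3_int [IsProbabilityMeasure mu] (s : ℝ) (x : E3) (hs : 0 ≤ s) :
    Integrable (fun z => exp (-(s * ‖x - z‖ ^ 2))) mu := by
  refine Integrable.of_bound (C := 1) ?_ (ae_of_all _ fun z => ?_)
  · have h : Measurable (fun z : E3 => exp (-(s * ‖x - z‖ ^ 2))) := by fun_prop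
    exact h.aestronglyMeasurable
  · rw [Real.norm_eq_abs, abs_of_pos (Real.exp_pos _)]
    exact Real.exp_le_one_iff.mpr (neg_nonpos.mpr (by positivity))

theorem st_M3 (hMap : St_Map) : St_M3 := by
  have : IsProbabilityMeasure mu := isProb hMap
  intro s x hs hx
  have h1 : ms s x ≤ ∫ _y : E3, exp (-(s * (‖x‖ - RR) ^ 2)) ∂mu := by
    refine integral_mono_ae (m3_int s x hs.le) (integrable_const _) ?_
    filter_upwards [ae_mu_norm] with y hy
    have h2 : ‖x‖ - RR ≤ ‖x - y‖ := by
      have h3 := norm_sub_norm_le x y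
      linarith
    have h4 : (‖x‖ - RR) ^ 2 ≤ ‖x - y‖ ^ 2 := by
      have h5 : 0 ≤ ‖x‖ - RR := by linarith
      nlinarith
    exact Real.exp_le_exp.mpr (neg_le_neg (mul_le_mul_of_nonneg_left h4 hs.le))
  simpa using h1

end Pool.Agent.F1
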