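import Pool.Agent.F1.Basic

/-!
# F1: module Main
-/

set_option autoImplicit false

open MeasureTheory Set Real
open scoped ENNReal InnerProductSpace
open Pool.Agent.Helper44.Ball3 (E3 sig)

namespace Pool.Agent.F1

/-- the theorem, with positivity -/
theorem main_full (hUpper : St_Upper) (hLower : St_Lower) (hScale : St_Scale) :
    ∃ C : ℝ, ∀ n : ℕ, 1 ≤ n → 0 < Fone n ∧
      |log (Fone n) - ((n : ℝ) ^ 2 * log n / 2 - (log 6 / 2 - 1 / 4) * n ^ 2 +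
        4 / 3 * n * log n)| ≤ C * n := by
  obtain ⟨C₁, h1⟩ := hUpper
  obtain ⟨C₂, h2⟩ := hLower
  refine ⟨max C₁ C₂, ?_⟩
  intro n hn
  have hn0 : (0 : ℝ) < n := by exact_mod_cast hn
  have hu := h1 n hn
  have hl := h2 n hn
  have hfin : Zn n ≠ ⊤ := ne_top_of_le_ne_top ENNReal.ofReal_ne_top hu
  set Z := (Zn n).toReal with hZ
  have hZe : Zn n = ENNReal.ofReal Z := (ENNReal.ofReal_toReal hfin).symm
  rw [hZe] at hu hl
  have hZ0 : 0 < Z := by
    have h3 := (ENNReal.ofReal_pos.2 (exp_pos (-((n : ℝ) ^ 2 * (kap + 1 / 4)) +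
      n * log n / 3 - C₂ * n))).trans_le hl
    exact ENNReal.ofReal_pos.1 h3
  have hu' : Z ≤ exp (-((n : ℝ) ^ 2 * (kap + 1 / 4)) + n * log n / 3 + C₁ * n) :=
    (ENNReal.ofReal_le_ofReal_iff (exp_pos _).le).1 hu
  have hl' : exp (-((n : ℝ) ^ 2 * (kap + 1 / 4)) + n * log n / 3 - C₂ * n) ≤ Z :=
    (ENNReal.ofReal_le_ofReal_iff hZ0.le).1 hl
  have hu2 : log Z ≤ -((n : ℝ) ^ 2 * (kap + 1 / 4)) + n * log n / 3 + C₁ * n :=
    (log_le_iff_le_exp hZ0).2 hu'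
  have hl2 : -((n : ℝ) ^ 2 * (kap + 1 / 4)) + n * log n / 3 - C₂ * n ≤ log Z :=
    (le_log_iff_exp_le hZ0).2 hl'
  have hF : log (Fone n) = ((n : ℝ) ^ 2 / 2 + n) * log n + log Z := by
    rw [hScale n hn, log_mul (exp_pos _).ne' hZ0.ne', log_exp]
  have hk : kap + 1 / 4 = log 6 / 2 - 1 / 4 := by
    unfold kap
    ring
  rw [hk] at hu2 hl2
  have h5 : C₁ * n ≤ max C₁ C₂ * n := mul_le_mul_of_nonneg_right (le_max_left _ _) hn0.le
  have h6 : C₂ * n ≤ max C₁ C₂ * n := mul_le_mul_of_nonneg_right (le_max_right _ _) hn0.le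
  refine ⟨by rw [hScale n hn]; exact mul_pos (exp_pos _) hZ0, ?_⟩
  rw [hF, abs_le]
  constructor <;> nlinarith

theorem st_Main (hUpper : St_Upper) (hLower : St_Lower) (hScale : St_Scale) : St_Main := by
  obtain ⟨C, hC⟩ := main_full hUpper hLower hScale
  exact ⟨C, fun n hn => (hC n hn).2⟩

end Pool.Agent.F1
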