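import Pool.Agent.F1.Rot

set_option autoImplicit false

/-!
# F1 / Marg: the marginal of the equilibrium measure
-/

namespace Pool.Agent.F1

open MeasureTheory Real Set
open scoped ENNReal InnerProductSpace
open Pool.Agent.Helper44.Ball3 (E3 sig e3 inner_e3 exists_rot lintegral_E3 setLIntegral_prod_Ioo)

/-- the radial integral -/
lemma radial_int (c A : ℝ) (hc : 0 ≤ c) :
    ∫⁻ r in Ioi (0 : ℝ), ENNReal.ofReal (r * (c / √(A - r ^ 2))) = ENNReal.ofReal (c * √A) := by
  rcases le_or_gt A 0 with hA | hA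
  · have h1 : ∀ r : ℝ, ENNReal.ofReal (r * (c / √(A - r ^ 2))) = 0 := by
      intro r
      have h2 : √(A - r ^ 2) = 0 := sqrt_eq_zero_of_nonpos (by nlinarith [sq_nonneg r])
      simp [h2]
    simp only [h1, sqrt_eq_zero_of_nonpos hA]
    simp
  · set a := √A with ha
    have ha0 : 0 < a := sqrt_pos.2 hA
    have haA : a ^ 2 = A := sq_sqrt hA.le
    have h1 : ∫⁻ r in Ioi (0 : ℝ), ENNReal.ofReal (r * (c / √(A - r ^ 2))) =
        ∫⁻ r in Ioc 0 a, ENNReal.ofReal (r * (c / √(A - r ^ 2))) := by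
      rw [← lintegral_indicator measurableSet_Ioi, ← lintegral_indicator measurableSet_Ioc]
      refine lintegral_congr fun r => ?_
      by_cases h2 : r ∈ Ioc 0 a
      · rw [indicator_of_mem h2, indicator_of_mem (show r ∈ Ioi (0 : ℝ) from h2.1)]
      · rw [indicator_of_notMem h2]
        by_cases h3 : r ∈ Ioi (0 : ℝ)
        · rw [indicator_of_mem h3]
          have h4 : a < r := by
            by_contra h
            exact h2 ⟨h3, not_lt.1 h⟩
          have h5 : √(A - r ^ 2) = 0 := sqrt_eq_zero_of_nonpos (by nlinarith)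
          simp [h5]
        · rw [indicator_of_notMem h3]
    have hcont : ContinuousOn (fun r : ℝ => -(c * √(A - r ^ 2))) (Icc 0 a) := by fun_prop
    have hder : ∀ r ∈ Ioo 0 a, HasDerivAt (fun r : ℝ => -(c * √(A - r ^ 2)))
        (r * (c / √(A - r ^ 2))) r := by
      intro r hr
      have h2 : 0 < A - r ^ 2 := by nlinarith [hr.1, hr.2]
      have h3 : HasDerivAt (fun r : ℝ => A - r ^ 2) (-(2 * r)) r := by
        have h4 := (hasDerivAt_pow 2 r).const_sub A
        refine h4.congr_deriv ?_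
        simp
      have h5 := ((h3.sqrt h2.ne').const_mul c).neg
      refine h5.congr_deriv ?_
      have h6 : 0 < √(A - r ^ 2) := sqrt_pos.2 h2
      field_simp
    have hpos : ∀ r ∈ Ioo 0 a, 0 ≤ r * (c / √(A - r ^ 2)) := fun r hr =>
      mul_nonneg hr.1.le (by positivity)
    have hint := intervalIntegral.integrableOn_deriv_of_nonneg hcont hder hpos
    have hii : IntervalIntegrable (fun r : ℝ => r * (c / √(A - r ^ 2))) volume 0 a :=
      (intervalIntegrable_iff_integrableOn_Ioc_of_le ha0.le).2 hint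
    have h6 := intervalIntegral.integral_eq_sub_of_hasDerivAt_of_le ha0.le hcont hder hii
    rw [h1, ← ofReal_integral_eq_lintegral_ofReal hint, ← intervalIntegral.integral_of_le ha0.le, h6]
    · congr 1
      rw [haA, sub_self, sqrt_zero]
      have h7 : √(A - 0 ^ 2) = a := by rw [ha]; simp
      rw [h7]
      ring
    · rw [Filter.EventuallyLE, ae_restrict_iff' measurableSet_Ioc]
      exact Filter.Eventually.of_forall fun r hr => mul_nonneg hr.1.le (by positivity)

/-- the planar integral -/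
lemma planar_int (c A : ℝ) (hc : 0 ≤ c) :
    ∫⁻ p : ℝ × ℝ, ENNReal.ofReal (c / √(A - (p.1 ^ 2 + p.2 ^ 2))) =
      ENNReal.ofReal (2 * π * (c * √A)) := by
  rw [← lintegral_comp_polarCoord_symm, polarCoord_target, setLIntegral_prod_Ioo]
  · simp only [polarCoord_symm_apply, smul_eq_mul]
    have h1 : ∀ r ∈ Ioi (0 : ℝ), ∫⁻ t in Ioo (-π) π,
        ENNReal.ofReal r * ENNReal.ofReal (c / √(A - ((r * cos t) ^ 2 + (r * sin t) ^ 2))) =
        ENNReal.ofReal (2 * π) * ENNReal.ofReal (r * (c / √(A - r ^ 2))) := by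
      intro r hr
      have h2 : ∀ t : ℝ, ENNReal.ofReal r *
          ENNReal.ofReal (c / √(A - ((r * cos t) ^ 2 + (r * sin t) ^ 2))) =
          ENNReal.ofReal (r * (c / √(A - r ^ 2))) := by
        intro t
        rw [← ENNReal.ofReal_mul (le_of_lt hr)]
        congr 4
        nlinarith [sin_sq_add_cos_sq t]
      simp only [h2]
      rw [setLIntegral_const, Real.volume_Ioo, mul_comm]
      congr 2
      ring
    rw [setLIntegral_congr_fun measurableSet_Ioi h1, lintegral_const_mul _ (by fun_prop),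
      radial_int c A hc, ← ENNReal.ofReal_mul (by positivity)]
  · simp only [smul_eq_mul, polarCoord_symm_apply]
    fun_prop

/-- substitution `z = RR cos φ` -/
lemma cos_subst (h : ℝ → ℝ≥0∞) :
    ∫⁻ z, ENNReal.ofReal (2 * π * (3 / (2 * π ^ 2) * √(2 / 3 - z ^ 2))) * h z =
      ∫⁻ φ in Ioo 0 π, ENNReal.ofReal (2 / π * sin φ ^ 2) * h (RR * cos φ) := by
  have hR := RR_pos
  have hR2 := RR_sq
  have hp := pi_pos
  have h1 : ∫⁻ z, ENNReal.ofReal (2 * π * (3 / (2 * π ^ 2) * √(2 / 3 - z ^ 2))) * h z =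
      ∫⁻ z in Ioo (-RR) RR, ENNReal.ofReal (2 * π * (3 / (2 * π ^ 2) * √(2 / 3 - z ^ 2))) * h z := by
    rw [← lintegral_indicator measurableSet_Ioo]
    refine lintegral_congr fun z => ?_
    by_cases hz : z ∈ Ioo (-RR) RR
    · rw [indicator_of_mem hz]
    · rw [indicator_of_notMem hz]
      have h2 : RR ^ 2 ≤ z ^ 2 := by
        by_contra h3
        rw [not_le] at h3
        exact hz (abs_lt.1 (abs_lt_of_sq_lt_sq h3 hR.le))
      have h3 : √(2 / 3 - z ^ 2) = 0 := sqrt_eq_zero_of_nonpos (by linarith)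
      simp [h3]
  have him : (fun φ => RR * cos φ) '' (Ioo 0 π) = Ioo (-RR) RR := by
    ext u
    constructor
    · rintro ⟨t, ht, rfl⟩
      have h2 := Real.cos_lt_cos_of_nonneg_of_le_pi ht.1.le le_rfl ht.2
      have h3 := Real.cos_lt_cos_of_nonneg_of_le_pi le_rfl ht.2.le ht.1
      rw [cos_pi] at h2
      rw [cos_zero] at h3
      constructor
      · simp only; nlinarith
      · simp only; nlinarith
    · intro hu
      have h2 : -1 < u / RR := by rw [lt_div_iff₀ hR]; linarith [hu.1]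
      have h3 : u / RR < 1 := by rw [div_lt_iff₀ hR]; linarith [hu.2]
      refine ⟨arccos (u / RR), ⟨arccos_pos.mpr h3, ?_⟩, ?_⟩
      · rcases (arccos_le_pi (u / RR)).lt_or_eq with h | h
        · exact h
        · exfalso
          have := arccos_eq_pi.mp h
          linarith
      · simp only
        rw [cos_arccos h2.le h3.le]
        field_simp
  have h2 := lintegral_image_eq_lintegral_abs_deriv_mul (s := Ioo 0 π) (f := fun φ => RR * cos φ)
    (f' := fun t => RR * -sin t) measurableSet_Ioo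
    (fun x _ => ((Real.hasDerivAt_cos x).const_mul RR).hasDerivWithinAt)
    (fun x hx y hy hxy => by
      simp only at hxy
      exact injOn_cos (Ioo_subset_Icc_self hx) (Ioo_subset_Icc_self hy)
        (mul_left_cancel₀ hR.ne' hxy))
    (fun z => ENNReal.ofReal (2 * π * (3 / (2 * π ^ 2) * √(2 / 3 - z ^ 2))) * h z)
  rw [h1, ← him, h2]
  refine setLIntegral_congr_fun measurableSet_Ioo fun t ht => ?_
  have hs : 0 < sin t := sin_pos_of_pos_of_lt_pi ht.1 ht.2
  have e1 : |RR * -sin t| = RR * sin t := by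
    rw [mul_neg, abs_neg, abs_of_pos (mul_pos hR hs)]
  have e2 : √(2 / 3 - (RR * cos t) ^ 2) = RR * sin t := by
    rw [← hR2]
    have : RR ^ 2 - (RR * cos t) ^ 2 = (RR * sin t) ^ 2 := by
      nlinarith [sin_sq_add_cos_sq t]
    rw [this, sqrt_sq (by positivity)]
  simp only [e1, e2]
  rw [← mul_assoc, ← ENNReal.ofReal_mul (by positivity)]
  congr 2
  field_simp
  rw [hR2]
  ring

theorem st_Marg (_hMap : St_Map) (_hRot : St_Rot) : St_Marg := by
  intro w hw h hh
  obtain ⟨L, hL⟩ := exists_rot hw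
  have h1 : ∀ y, ⟪w, y⟫_ℝ = (L y) 2 := by
    intro y
    rw [← inner_e3, ← hL, L.inner_map_map]
  simp only [h1]
  have hm : Measurable fun y : E3 => h (y 2) := hh.comp (by fun_prop)
  have h2 : ∫⁻ y, h ((L y) 2) ∂mu = ∫⁻ y, h (y 2) ∂mu := by
    conv_rhs => rw [← st_Rot L]
    rw [lintegral_map hm L.continuous.measurable]
  have hF : Measurable fun y : E3 => ENNReal.ofReal (rho y) * h (y 2) :=
    measurable_rho.ennreal_ofReal.mul hm
  rw [h2, lintegral_mu hm, lintegral_E3 hF, ← cos_subst]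
  refine lintegral_congr fun z => ?_
  have h3 : ∀ p : ℝ × ℝ, ENNReal.ofReal (rho !₂[p.1, p.2, z]) * h ((!₂[p.1, p.2, z] : E3) 2) =
      ENNReal.ofReal (3 / (2 * π ^ 2) / √((2 / 3 - z ^ 2) - (p.1 ^ 2 + p.2 ^ 2))) * h z := by
    intro p
    have h4 : ‖(!₂[p.1, p.2, z] : E3)‖ ^ 2 = p.1 ^ 2 + p.2 ^ 2 + z ^ 2 := by
      rw [EuclideanSpace.real_norm_sq_eq, Fin.sum_univ_three]
      rfl
    unfold rho
    rw [h4]
    have h5 : 2 / 3 - (p.1 ^ 2 + p.2 ^ 2 + z ^ 2) = (2 / 3 - z ^ 2) - (p.1 ^ 2 + p.2 ^ 2) := by ring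
    rw [h5]
    rfl
  simp only [h3]
  rw [lintegral_mul_const _ (by fun_prop), planar_int _ _ (by positivity)]

end Pool.Agent.F1
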