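import Pool.Agent.F1.Basic

/-!
# F1: module MsBasic
-/

set_option autoImplicit false

open MeasureTheory Set Real
open scoped ENNReal InnerProductSpace
open Pool.Agent.Helper44.Ball3 (E3 sig)

namespace Pool.Agent.F1

theorem msbasic_int [IsProbabilityMeasure mu] (s : ℝ) (x : E3) (hs : 0 ≤ s) :
    Integrable (fun z => exp (-(s * ‖x - z‖ ^ 2))) mu := by
  refine Integrable.of_bound (C := 1) ?_ (ae_of_all _ fun z => ?_)
  · have h : Measurable (fun z : E3 => exp (-(s * ‖x - z‖ ^ 2))) := by fun_prop
    exact h.aestronglyMeasurable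
  · rw [Real.norm_eq_abs, abs_of_pos (Real.exp_pos _)]
    exact Real.exp_le_one_iff.mpr (neg_nonpos.mpr (by positivity))

theorem st_MsBasic (hMap : St_Map) : St_MsBasic := by
  have : IsProbabilityMeasure mu := isProb hMap
  refine ⟨?_, fun s x => ?_, fun s x hs => ?_, fun s x hs => msbasic_int s x hs⟩
  · have h : Measurable (Function.uncurry fun (p : ℝ × E3) (y : E3) =>
        exp (-(p.1 * ‖p.2 - y‖ ^ 2))) := by
      show Measurable fun q : (ℝ × E3) × E3 => exp (-(q.1.1 * ‖q.1.2 - q.2‖ ^ 2))
      fun_prop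
    exact (h.stronglyMeasurable.integral_prod_right (ν := mu)).measurable
  · exact integral_nonneg fun y => (Real.exp_pos _).le
  · have h1 : ms s x ≤ ∫ _y : E3, (1 : ℝ) ∂mu := by
      refine integral_mono (msbasic_int s x hs) (integrable_const 1) fun z => ?_
      exact Real.exp_le_one_iff.mpr (neg_nonpos.mpr (by positivity))
    simpa using h1

end Pool.Agent.F1
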