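import Pool.Agent.F1.Basic

/-!
# F1: module OneInt
-/

set_option autoImplicit false

open MeasureTheory Set Real
open scoped ENNReal InnerProductSpace
open Pool.Agent.Helper44.Ball3 (E3 sig)

namespace Pool.Agent.F1

theorem oneint_radial {h : ℝ → ℝ≥0∞} (hh : Measurable h) :
    ∫⁻ x : E3, h ‖x‖ = ∫⁻ r in Ioi (0 : ℝ), ENNReal.ofReal (4 * π * r ^ 2) * h r := by
  rw [Pool.Agent.Helper44.Ball3.lintegral_polar (F := fun x : E3 => h ‖x‖) (hh.comp measurable_norm)]
  refine setLIntegral_congr_fun measurableSet_Ioi fun r hr => ?_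
  have hr0 : (0 : ℝ) < r := hr
  have h1 : ∫⁻ w, h ‖r • w‖ ∂sig = ∫⁻ _w : E3, h r ∂sig := by
    refine lintegral_congr_ae ?_
    filter_upwards [Pool.Agent.Helper44.Ball3.ae_norm] with w hw
    rw [norm_smul, hw, mul_one, norm_of_nonneg hr0.le]
  have h2 : ∫⁻ w, h ‖r • w‖ ∂sig = h r := by
    rw [h1, lintegral_const, measure_univ, mul_one]
  simp only [h2]

theorem oneint_abs_rpow (c : ℝ) :
    IntervalIntegrable (fun x : ℝ => |x| ^ (-(1 / 6) : ℝ)) volume 0 c := by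
  have hpos : ∀ c : ℝ, 0 ≤ c →
      IntervalIntegrable (fun x : ℝ => |x| ^ (-(1 / 6) : ℝ)) volume 0 c := by
    intro c hc
    have h1 : IntervalIntegrable (fun x : ℝ => x ^ (-(1 / 6) : ℝ)) volume 0 c :=
      intervalIntegral.intervalIntegrable_rpow' (by norm_num)
    refine h1.congr ?_
    intro x hx
    rw [uIoc_of_le hc] at hx
    simp only [abs_of_pos hx.1]
  rcases le_total 0 c with hc | hc
  · exact hpos c hc
  · have h1 := (hpos (-c) (by linarith)).comp_sub_left 0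
    simpa using h1

theorem oneint_abs_rpow' (a b c : ℝ) :
    IntervalIntegrable (fun x : ℝ => |x - c| ^ (-(1 / 6) : ℝ)) volume a b := by
  have h1 : IntervalIntegrable (fun x : ℝ => |x| ^ (-(1 / 6) : ℝ)) volume (a - c) (b - c) :=
    (oneint_abs_rpow (a - c)).symm.trans (oneint_abs_rpow (b - c))
  have h2 := h1.comp_sub_right c
  simpa using h2

/-- the radial majorant on the ball of radius four -/
theorem oneint_G1 : IntegrableOn (fun r : ℝ => 4 * π * r ^ 2 *
    (Iic (4 : ℝ)).indicator (fun r => |2 / 3 - r ^ 2| ^ (-(1 / 6) : ℝ)) r) (Ioi (0 : ℝ)) := by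
  have hmeas : Measurable (fun r : ℝ => 4 * π * r ^ 2 *
      (Iic (4 : ℝ)).indicator (fun r => |2 / 3 - r ^ 2| ^ (-(1 / 6) : ℝ)) r) := by
    refine Measurable.mul (by fun_prop) (Measurable.indicator (by fun_prop) measurableSet_Iic)
  have hB : IntegrableOn (fun r : ℝ => 64 * π * RR ^ (-(1 / 6) : ℝ) * |r - RR| ^ (-(1 / 6) : ℝ))
      (Ioc (0 : ℝ) 4) := by
    have h1 := oneint_abs_rpow' 0 4 RR
    rw [intervalIntegrable_iff_integrableOn_Ioc_of_le (by norm_num)] at h1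
    exact h1.const_mul _
  have hsub : IntegrableOn (fun r : ℝ => 4 * π * r ^ 2 *
      (Iic (4 : ℝ)).indicator (fun r => |2 / 3 - r ^ 2| ^ (-(1 / 6) : ℝ)) r) (Ioc (0 : ℝ) 4) := by
    refine Integrable.mono' hB hmeas.aestronglyMeasurable ?_
    refine (ae_restrict_iff' measurableSet_Ioc).2 (ae_of_all _ fun r hr => ?_)
    have hr0 : 0 < r := hr.1
    have hr4 : r ≤ 4 := hr.2
    rw [indicator_of_mem (show r ∈ Iic (4 : ℝ) from hr4)]
    have hRR := RR_pos
    have hsq := RR_sq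
    rw [Real.norm_of_nonneg (by positivity)]
    rcases eq_or_ne r RR with h | h
    · rw [h, hsq, sub_self, sub_self, abs_zero, Real.zero_rpow (by norm_num)]
      simp
    · have hd : 0 < |r - RR| := abs_pos.2 (sub_ne_zero.2 h)
      have h1 : RR * |r - RR| ≤ |2 / 3 - r ^ 2| := by
        have e1 : 2 / 3 - r ^ 2 = -((r - RR) * (r + RR)) := by
          rw [← hsq]; ring
        rw [e1, abs_neg, abs_mul, mul_comm]
        refine mul_le_mul_of_nonneg_left ?_ (abs_nonneg _)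
        rw [abs_of_pos (by linarith)]
        linarith
      have h2 : |2 / 3 - r ^ 2| ^ (-(1 / 6) : ℝ) ≤ (RR * |r - RR|) ^ (-(1 / 6) : ℝ) :=
        Real.rpow_le_rpow_of_nonpos (by positivity) h1 (by norm_num)
      rw [Real.mul_rpow hRR.le hd.le] at h2
      have h3 : 4 * π * r ^ 2 ≤ 64 * π := by
        have : r ^ 2 ≤ 16 := by nlinarith
        nlinarith [Real.pi_pos]
      calc 4 * π * r ^ 2 * |2 / 3 - r ^ 2| ^ (-(1 / 6) : ℝ)
          ≤ 64 * π * (RR ^ (-(1 / 6) : ℝ) * |r - RR| ^ (-(1 / 6) : ℝ)) :=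
            mul_le_mul h3 h2 (by positivity) (by positivity)
        _ = 64 * π * RR ^ (-(1 / 6) : ℝ) * |r - RR| ^ (-(1 / 6) : ℝ) := by ring
  have hzero : IntegrableOn (fun r : ℝ => 4 * π * r ^ 2 *
      (Iic (4 : ℝ)).indicator (fun r => |2 / 3 - r ^ 2| ^ (-(1 / 6) : ℝ)) r) (Ioi (4 : ℝ)) := by
    have h0 : IntegrableOn (fun _ : ℝ => (0 : ℝ)) (Ioi (4 : ℝ)) := integrableOn_zero
    refine h0.congr_fun ?_ measurableSet_Ioi
    intro r hr
    have hr4 : ¬ r ≤ 4 := not_le.2 hr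
    simp only
    rw [indicator_of_notMem (show r ∉ Iic (4 : ℝ) from hr4), mul_zero]
  have := hsub.union hzero
  rwa [Ioc_union_Ioi_eq_Ioi (by norm_num)] at this

theorem oneint_G2 : IntegrableOn (fun r : ℝ => 4 * π * r ^ 2 * exp (-(r ^ 2 / 2)))
    (Ioi (0 : ℝ)) := by
  have h1 : IntegrableOn (fun x : ℝ => x ^ (2 : ℝ) * exp (-(1 / 2) * x ^ 2)) (Ioi (0 : ℝ)) :=
    integrableOn_rpow_mul_exp_neg_mul_sq (by norm_num) (by norm_num)
  have h2 : IntegrableOn (fun x : ℝ => 4 * π * (x ^ (2 : ℝ) * exp (-(1 / 2) * x ^ 2)))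
      (Ioi (0 : ℝ)) := h1.const_mul (4 * π)
  refine h2.congr_fun ?_ measurableSet_Ioi
  intro r _
  simp only
  rw [show ((2 : ℝ)) = ((2 : ℕ) : ℝ) by norm_num, Real.rpow_natCast]
  rw [show -(1 / ((2 : ℕ) : ℝ)) * r ^ 2 = -(r ^ 2 / ((2 : ℕ) : ℝ)) by ring]
  ring

theorem oneint_large {r : ℝ} (hr : 4 ≤ r) : r ^ 2 / 4 ≤ r ^ 2 / 2 - log (r + 1) - kap := by
  have h1 : log (r + 1) ≤ (r + 1) / 4 - 1 + log 4 := by
    have h2 := Real.log_le_sub_one_of_pos (x := (r + 1) / 4) (by linarith)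
    rw [Real.log_div (by linarith) (by norm_num)] at h2
    linarith
  have h2 : log 4 = 2 * log 2 := by
    rw [show (4 : ℝ) = 2 ^ 2 by norm_num, Real.log_pow]
    norm_num
  have h3 : log 6 ≤ 3 * log 2 := by
    have : log 6 ≤ log (2 ^ 3) := Real.log_le_log (by norm_num) (by norm_num)
    rw [Real.log_pow] at this
    exact_mod_cast this
  have h4 := Real.log_two_lt_d9
  unfold kap
  nlinarith

theorem st_OneInt (hMap : St_Map) (hPot : St_Pot) (hUGrow : St_UGrow) : St_OneInt := by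
  unfold St_OneInt
  set h : ℝ → ℝ := fun r => (Iic (4 : ℝ)).indicator (fun r => |2 / 3 - r ^ 2| ^ (-(1 / 6) : ℝ)) r +
    exp (-(r ^ 2 / 2)) with hh
  have hmeas : Measurable h :=
    (Measurable.indicator (by fun_prop) measurableSet_Iic).add (by fun_prop)
  have hnn : ∀ r, 0 ≤ h r := by
    intro r
    refine add_nonneg (indicator_nonneg (fun r _ => ?_) r) (exp_pos _).le
    positivity
  have hle : ∀ x : E3, ENNReal.ofReal (exp (-2 * Phi x) * (ww x) ^ (-(1 / 6) : ℝ)) ≤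
      ENNReal.ofReal (h ‖x‖) := by
    intro x
    refine ENNReal.ofReal_le_ofReal ?_
    rcases le_or_gt ‖x‖ 4 with hx | hx
    · have h1 : exp (-2 * Phi x) ≤ 1 := by
        rw [exp_le_one_iff]
        linarith [hPot.2.1 x]
      have h2 : 0 ≤ (ww x) ^ (-(1 / 6) : ℝ) := Real.rpow_nonneg (ww_nonneg x) _
      have h3 : h ‖x‖ = (ww x) ^ (-(1 / 6) : ℝ) + exp (-(‖x‖ ^ 2 / 2)) := by
        simp only [hh]
        rw [indicator_of_mem (show ‖x‖ ∈ Iic (4 : ℝ) from hx)]
        rfl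
      rw [h3]
      nlinarith [exp_pos (-(‖x‖ ^ 2 / 2))]
    · have h1 : 1 ≤ ww x := by
        unfold ww
        rw [abs_of_neg (by nlinarith)]
        nlinarith
      have h2 : (ww x) ^ (-(1 / 6) : ℝ) ≤ 1 := Real.rpow_le_one_of_one_le_of_nonpos h1 (by norm_num)
      have h3 : h ‖x‖ = exp (-(‖x‖ ^ 2 / 2)) := by
        simp only [hh]
        rw [indicator_of_notMem (show ‖x‖ ∉ Iic (4 : ℝ) from not_le.2 hx), zero_add]
      rw [h3]
      have h4 : exp (-2 * Phi x) ≤ exp (-(‖x‖ ^ 2 / 2)) := by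
        refine exp_le_exp.2 ?_
        have := hUGrow.2 x
        have := oneint_large hx.le
        linarith
      calc exp (-2 * Phi x) * (ww x) ^ (-(1 / 6) : ℝ) ≤ exp (-2 * Phi x) * 1 :=
            mul_le_mul_of_nonneg_left h2 (exp_pos _).le
        _ ≤ exp (-(‖x‖ ^ 2 / 2)) := by rw [mul_one]; exact h4
  refine lt_of_le_of_lt (lintegral_mono hle) ?_
  have hrad := oneint_radial (h := fun r => ENNReal.ofReal (h r)) hmeas.ennreal_ofReal
  rw [hrad]
  have hG : IntegrableOn (fun r : ℝ => 4 * π * r ^ 2 * h r) (Ioi (0 : ℝ)) := by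
    refine (oneint_G1.add oneint_G2).congr_fun ?_ measurableSet_Ioi
    intro r _
    simp only [hh, Pi.add_apply]
    ring
  have hfin := Integrable.lintegral_lt_top hG
  refine lt_of_le_of_lt (lintegral_mono fun r => ?_) hfin
  rw [← ENNReal.ofReal_mul (by positivity)]

end Pool.Agent.F1
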