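import Pool.Agent.F1.Basic

set_option autoImplicit false

/-!
# F1 / PW: averages over the unit sphere
-/

namespace Pool.Agent.F1

open MeasureTheory Real Set
open scoped ENNReal InnerProductSpace
open Pool.Agent.Helper44.Ball3 (E3 sig)

/-- the uniform law on `(-1,1)` -/
noncomputable def unl : Measure ℝ := ENNReal.ofReal (1 / 2) • volume.restrict (Ioo (-1) 1)

lemma zonal_map {e : E3} (he : ‖e‖ = 1) : sig.map (fun w => ⟪e, w⟫_ℝ) = unl := by
  refine Measure.ext_of_lintegral _ fun h hh => ?_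
  rw [lintegral_map hh (by fun_prop), Pool.Agent.Helper44.Ball3.zonal he hh, unl,
    lintegral_smul_measure, smul_eq_mul]

lemma unl_integral (g : ℝ → ℝ) : ∫ u, g u ∂unl = 1 / 2 * ∫ u in (-1 : ℝ)..1, g u := by
  rw [unl, integral_smul_measure, ← integral_Ioc_eq_integral_Ioo,
    ← intervalIntegral.integral_of_le (by norm_num), ENNReal.toReal_ofReal (by norm_num), smul_eq_mul]

lemma unl_integrable {g : ℝ → ℝ} (hg : IntervalIntegrable g volume (-1) 1) : Integrable g unl := by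
  rw [unl]
  refine Integrable.smul_measure ?_ ENNReal.ofReal_ne_top
  exact ((intervalIntegrable_iff_integrableOn_Ioc_of_le (by norm_num)).1 hg).mono_set
    Ioo_subset_Ioc_self

lemma zonal_integral {e : E3} (he : ‖e‖ = 1) {g : ℝ → ℝ} (hm : Measurable g)
    (hg : IntervalIntegrable g volume (-1) 1) :
    Integrable (fun w : E3 => g ⟪e, w⟫_ℝ) sig ∧
      ∫ w, g ⟪e, w⟫_ℝ ∂sig = 1 / 2 * ∫ u in (-1 : ℝ)..1, g u := by
  have h1 := unl_integrable hg
  rw [← zonal_map he] at h1
  refine ⟨h1.comp_measurable (by fun_prop), ?_⟩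
  rw [← unl_integral g, ← zonal_map he, integral_map (by fun_prop) hm.aestronglyMeasurable]

lemma norm_unit {z : E3} (hz : z ≠ 0) : ‖(‖z‖⁻¹ • z)‖ = 1 := norm_smul_inv_norm hz

lemma inner_unit {z : E3} (hz : z ≠ 0) (w : E3) : ⟪z, w⟫_ℝ = ‖z‖ * ⟪‖z‖⁻¹ • z, w⟫_ℝ := by
  rw [real_inner_smul_left, ← mul_assoc, mul_inv_cancel₀ (norm_ne_zero_iff.2 hz), one_mul]

theorem st_PW : St_PW := by
  intro z hz
  have hz0 : ‖z‖ ≠ 0 := norm_ne_zero_iff.2 hz
  have hii : IntervalIntegrable (fun u : ℝ => log (‖z‖ * u)) volume (-1) 1 := by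
    have h1 : IntervalIntegrable (fun u : ℝ => log ‖z‖ + log u) volume (-1) 1 :=
      (_root_.intervalIntegrable_const (c := log ‖z‖)).add intervalIntegral.intervalIntegrable_log'
    refine h1.congr_ae ?_
    refine ae_restrict_of_ae ?_
    have h3 : ∀ᵐ u : ℝ, u ≠ 0 := by rw [ae_iff]; simp
    filter_upwards [h3] with u hu
    rw [log_mul hz0 hu]
  have h0 := zonal_integral (norm_unit hz) (g := fun u => log (‖z‖ * u)) (by fun_prop) hii
  have e1 : ∫ u in (-1 : ℝ)..1, log (‖z‖ * u) = 2 * log ‖z‖ - 2 := by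
    have h1 : ∫ u in (-1 : ℝ)..1, log (‖z‖ * u) = ∫ u in (-1 : ℝ)..1, (log ‖z‖ + log u) := by
      refine intervalIntegral.integral_congr_ae ?_
      have h3 : ∀ᵐ u : ℝ, u ≠ 0 := by rw [ae_iff]; simp
      filter_upwards [h3] with u hu _
      rw [log_mul hz0 hu]
    rw [h1, intervalIntegral.integral_add (by simp) intervalIntegral.intervalIntegrable_log',
      integral_log]
    simp
    ring
  rw [e1] at h0
  simp only [← inner_unit hz] at h0
  refine ⟨h0.1, h0.2.trans ?_⟩
  ring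

end Pool.Agent.F1
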