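import Pool.Agent.F1.Basic

/-!
# F1: module Pos
-/

set_option autoImplicit false

open MeasureTheory Set Real
open scoped ENNReal InnerProductSpace
open Pool.Agent.Helper44.Ball3 (E3 sig)

namespace Pool.Agent.F1

/-- the Gaussian function -/
noncomputable def pos_g (s : ℝ) (x z : E3) : ℝ := exp (-(2 * s * ‖x - z‖ ^ 2))

theorem pos_g_pos (s : ℝ) (x z : E3) : 0 < pos_g s x z := exp_pos _

theorem pos_g_le (s : ℝ) (hs : 0 < s) (x z : E3) : pos_g s x z ≤ 1 := by
  unfold pos_g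
  rw [exp_le_one_iff]
  have : 0 ≤ 2 * s * ‖x - z‖ ^ 2 := by positivity
  linarith

theorem pos_gauss_int (c : ℝ) (hc : 0 < c) :
    Integrable (fun z : E3 => exp (-(c * ‖z‖ ^ 2))) ∧ 0 < ∫ z : E3, exp (-(c * ‖z‖ ^ 2)) := by
  have h1 := GaussianFourier.integral_rexp_neg_mul_sq_norm (V := E3) hc
  have h2 : ∫ z : E3, exp (-(c * ‖z‖ ^ 2)) = (π / c) ^ (Module.finrank ℝ E3 / 2 : ℝ) := by
    rw [← h1]
    refine integral_congr_ae (ae_of_all _ fun z => ?_)
    beta_reduce
    rw [neg_mul]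
  have h3 : 0 < ∫ z : E3, exp (-(c * ‖z‖ ^ 2)) := by
    rw [h2]
    exact Real.rpow_pos_of_pos (by positivity) _
  refine ⟨?_, h3⟩
  by_contra h4
  rw [integral_undef h4] at h3
  exact lt_irrefl _ h3

theorem pos_g_int (s : ℝ) (hs : 0 < s) (x : E3) : Integrable (fun z => pos_g s x z) := by
  have h1 := (pos_gauss_int (2 * s) (by linarith)).1.comp_sub_left x
  exact h1

theorem pos_mul (s : ℝ) (x y z : E3) : pos_g s x z * pos_g s y z =
    exp (-(s * ‖x - y‖ ^ 2)) * exp (-(4 * s * ‖(1 / 2 : ℝ) • (x + y) - z‖ ^ 2)) := by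
  unfold pos_g
  rw [← exp_add, ← exp_add]
  congr 1
  have h1 := parallelogram_law_with_norm ℝ (x - z) (y - z)
  have h2 : x - z + (y - z) = (2 : ℝ) • ((1 / 2 : ℝ) • (x + y) - z) := by
    rw [smul_sub, smul_smul, two_smul]
    norm_num
    abel
  have h3 : x - z - (y - z) = x - y := by abel
  rw [h2, h3, norm_smul, Real.norm_eq_abs, abs_of_pos (by norm_num : (0 : ℝ) < 2)] at h1
  linear_combination s * h1

/-- the normalising constant -/
noncomputable def pos_I (s : ℝ) : ℝ := ∫ z : E3, exp (-(4 * s * ‖z‖ ^ 2))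

theorem pos_I_pos (s : ℝ) (hs : 0 < s) : 0 < pos_I s :=
  (pos_gauss_int (4 * s) (by linarith)).2

theorem pos_conv (s : ℝ) (hs : 0 < s) (x y : E3) :
    Integrable (fun z => pos_g s x z * pos_g s y z) ∧
      ∫ z, pos_g s x z * pos_g s y z = pos_I s * exp (-(s * ‖x - y‖ ^ 2)) := by
  have h1 : (fun z => pos_g s x z * pos_g s y z) = fun z =>
      exp (-(s * ‖x - y‖ ^ 2)) * exp (-(4 * s * ‖(1 / 2 : ℝ) • (x + y) - z‖ ^ 2)) :=
    funext fun z => pos_mul s x y z
  have h2 : Integrable (fun z : E3 => exp (-(4 * s * ‖(1 / 2 : ℝ) • (x + y) - z‖ ^ 2))) :=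
    (pos_gauss_int (4 * s) (by linarith)).1.comp_sub_left _
  rw [h1]
  refine ⟨h2.const_mul _, ?_⟩
  rw [integral_const_mul, mul_comm]
  congr 1
  exact integral_sub_left_eq_self (fun z : E3 => exp (-(4 * s * ‖z‖ ^ 2))) volume
    ((1 / 2 : ℝ) • (x + y))

/-- the smoothed measure -/
noncomputable def pos_G (s : ℝ) (z : E3) : ℝ := ∫ x, pos_g s x z ∂mu

theorem pos_G_nonneg (s : ℝ) (z : E3) : 0 ≤ pos_G s z :=
  integral_nonneg fun x => (pos_g_pos s x z).le

theorem pos_norm_int (s : ℝ) (x : E3) :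
    ∫ z, ‖pos_g s x z‖ = ∫ z : E3, exp (-(2 * s * ‖z‖ ^ 2)) := by
  have h1 : (fun z => ‖pos_g s x z‖) = fun z => pos_g s x z :=
    funext fun z => Real.norm_of_nonneg (pos_g_pos s x z).le
  have h2 : (fun z => pos_g s x z) = fun z => (fun w : E3 => exp (-(2 * s * ‖w‖ ^ 2))) (x - z) :=
    funext fun z => rfl
  rw [h1, h2]
  exact integral_sub_left_eq_self (fun z : E3 => exp (-(2 * s * ‖z‖ ^ 2))) volume x

theorem pos_m2 (s : ℝ) : Measurable (fun p : E3 × E3 => pos_g s p.2 p.1) := by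
  unfold pos_g
  fun_prop

section
variable [IsProbabilityMeasure mu]

theorem pos_G_le (s : ℝ) (hs : 0 < s) (z : E3) : pos_G s z ≤ 1 := by
  unfold pos_G
  have h1 : ∫ x, pos_g s x z ∂mu ≤ ∫ _x : E3, (1 : ℝ) ∂mu := by
    refine integral_mono_of_nonneg (ae_of_all _ fun x => (pos_g_pos s x z).le)
      (integrable_const _) (ae_of_all _ fun x => pos_g_le s hs x z)
  simpa using h1

theorem pos_prod (s : ℝ) (hs : 0 < s) :
    Integrable (fun p : E3 × E3 => pos_g s p.2 p.1) (volume.prod mu) := by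
  have hm := (pos_m2 s).aestronglyMeasurable (μ := (volume : Measure E3).prod mu)
  refine (integrable_prod_iff' hm).2 ⟨?_, ?_⟩
  · exact ae_of_all _ fun x => pos_g_int s hs x
  · have h1 : (fun x : E3 => ∫ z, ‖pos_g s x z‖) = fun _ => ∫ z : E3, exp (-(2 * s * ‖z‖ ^ 2)) :=
      funext fun x => pos_norm_int s x
    have h2 : Integrable (fun x : E3 => ∫ z, ‖pos_g s x z‖) mu := by
      rw [h1]
      exact integrable_const _
    exact h2

theorem pos_G_int (s : ℝ) (hs : 0 < s) : Integrable (pos_G s) := by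
  have h1 := (pos_prod s hs).integral_prod_left
  exact h1

theorem pos_int_mul (s : ℝ) (hs : 0 < s) (f : E3 → ℝ) (hf : Integrable f) :
    Integrable (fun p : E3 × E3 => f p.1 * pos_g s p.2 p.1) (volume.prod mu) := by
  have h2 : Integrable (fun p : E3 × E3 => f p.1) (volume.prod mu) := hf.comp_fst mu
  have h3 := (pos_m2 s).aestronglyMeasurable (μ := (volume : Measure E3).prod mu)
  have h4 : ∀ p : E3 × E3, ‖f p.1 * pos_g s p.2 p.1‖ ≤ ‖f p.1‖ := by
    intro p
    rw [norm_mul, Real.norm_of_nonneg (pos_g_pos s p.2 p.1).le]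
    exact mul_le_of_le_one_right (norm_nonneg _) (pos_g_le s hs _ _)
  exact h2.mono (h2.aestronglyMeasurable.mul h3) (ae_of_all _ h4)

/-- integration of a bounded integrable function against the kernel -/
theorem pos_fub (s : ℝ) (hs : 0 < s) (f : E3 → ℝ) (hf : Integrable f) :
    Integrable (fun z => f z * pos_G s z) ∧
      ∫ z, f z * pos_G s z = ∫ x, (∫ z, f z * pos_g s x z) ∂mu := by
  have h1 := pos_int_mul s hs f hf
  have h3 : (fun z => f z * pos_G s z) = fun z => ∫ x, f z * pos_g s x z ∂mu := by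
    funext z
    unfold pos_G
    rw [integral_const_mul]
  have h4 : Integrable (fun z => ∫ x, f z * pos_g s x z ∂mu) := by
    have h5 := h1.integral_prod_left
    exact h5
  have h6 : ∫ z, (∫ x, f z * pos_g s x z ∂mu) = ∫ x, (∫ z, f z * pos_g s x z) ∂mu :=
    integral_integral_swap (f := fun z x => f z * pos_g s x z) h1
  rw [h3]
  exact ⟨h4, h6⟩

theorem pos_gG (s : ℝ) (hs : 0 < s) (y : E3) :
    Integrable (fun z => pos_g s y z * pos_G s z) ∧
      ∫ z, pos_g s y z * pos_G s z = pos_I s * ms s y := by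
  obtain ⟨h1, h2⟩ := pos_fub s hs (fun z => pos_g s y z) (pos_g_int s hs y)
  refine ⟨h1, h2.trans ?_⟩
  unfold ms
  rw [← integral_const_mul]
  exact integral_congr_ae (ae_of_all _ fun x => (pos_conv s hs y x).2)

theorem pos_GG (s : ℝ) (hs : 0 < s) :
    Integrable (fun z => pos_G s z * pos_G s z) ∧
      ∫ z, pos_G s z * pos_G s z = pos_I s * ∫ x, ms s x ∂mu := by
  obtain ⟨h1, h2⟩ := pos_fub s hs (pos_G s) (pos_G_int s hs)
  refine ⟨h1, h2.trans ?_⟩
  rw [← integral_const_mul]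
  refine integral_congr_ae (ae_of_all _ fun x => ?_)
  beta_reduce
  rw [← (pos_gG s hs x).2]
  exact integral_congr_ae (ae_of_all _ fun z => mul_comm _ _)

end

theorem st_Pos (hMap : St_Map) (hMsBasic : St_MsBasic) : St_Pos := by
  have hP : IsProbabilityMeasure mu := isProb hMap
  intro s a hs n A y
  have hI := pos_I_pos s hs
  have key : ∫ z, ((∑ i ∈ A, pos_g s (y i) z) - a * pos_G s z) ^ 2 =
      pos_I s * ((∑ i ∈ A, ∑ j ∈ A, exp (-(s * ‖y i - y j‖ ^ 2))) -
        2 * a * ∑ i ∈ A, ms s (y i) + a ^ 2 * ∫ x, ms s x ∂mu) := by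
    have e1 : (fun z => ((∑ i ∈ A, pos_g s (y i) z) - a * pos_G s z) ^ 2) = fun z =>
        (∑ i ∈ A, ∑ j ∈ A, pos_g s (y i) z * pos_g s (y j) z) -
          2 * a * (∑ i ∈ A, pos_g s (y i) z * pos_G s z) + a ^ 2 * (pos_G s z * pos_G s z) := by
      funext z
      rw [← Finset.sum_mul_sum, ← Finset.sum_mul]
      ring
    have i1 : Integrable (fun z => ∑ i ∈ A, ∑ j ∈ A, pos_g s (y i) z * pos_g s (y j) z) :=
      integrable_finsetSum _ fun i _ => integrable_finsetSum _ fun j _ =>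
        (pos_conv s hs (y i) (y j)).1
    have i2 : Integrable (fun z => ∑ i ∈ A, pos_g s (y i) z * pos_G s z) :=
      integrable_finsetSum _ fun i _ => (pos_gG s hs (y i)).1
    have i3 := (pos_GG s hs).1
    have i4 : Integrable (fun z => 2 * a * (∑ i ∈ A, pos_g s (y i) z * pos_G s z)) :=
      i2.const_mul _
    have i5 : Integrable (fun z => (∑ i ∈ A, ∑ j ∈ A, pos_g s (y i) z * pos_g s (y j) z) -
        2 * a * (∑ i ∈ A, pos_g s (y i) z * pos_G s z)) := i1.sub i4
    have i6 : Integrable (fun z => a ^ 2 * (pos_G s z * pos_G s z)) := i3.const_mul _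
    have v1 : ∫ z, (∑ i ∈ A, ∑ j ∈ A, pos_g s (y i) z * pos_g s (y j) z) =
        ∑ i ∈ A, ∑ j ∈ A, pos_I s * exp (-(s * ‖y i - y j‖ ^ 2)) := by
      rw [integral_finsetSum A fun i _ => integrable_finsetSum A fun j _ =>
        (pos_conv s hs (y i) (y j)).1]
      refine Finset.sum_congr rfl fun i _ => ?_
      rw [integral_finsetSum A fun j _ => (pos_conv s hs (y i) (y j)).1]
      exact Finset.sum_congr rfl fun j _ => (pos_conv s hs (y i) (y j)).2
    have v2 : ∫ z, (∑ i ∈ A, pos_g s (y i) z * pos_G s z) = ∑ i ∈ A, pos_I s * ms s (y i) := by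
      rw [integral_finsetSum A fun i _ => (pos_gG s hs (y i)).1]
      exact Finset.sum_congr rfl fun i _ => (pos_gG s hs (y i)).2
    rw [e1, integral_add i5 i6, integral_sub i1 i4, integral_const_mul, integral_const_mul,
      (pos_GG s hs).2, v1, v2]
    simp only [← Finset.mul_sum]
    ring
  have h1 : 0 ≤ ∫ z, ((∑ i ∈ A, pos_g s (y i) z) - a * pos_G s z) ^ 2 :=
    integral_nonneg fun z => sq_nonneg _
  rw [key] at h1
  exact nonneg_of_mul_nonneg_right h1 hI

end Pool.Agent.F1
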