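import Pool.Agent.F1.ScIn

set_option autoImplicit false

namespace Pool.Agent.F1

open MeasureTheory Real Set

theorem st_ScOut : St_ScOut := by
  intro t _
  have hR := RR_pos
  have h1 := sc_le (t / RR)
  rw [sc_scale, log_RR, kap]
  rw [div_pow, RR_sq] at h1
  have hp := pi_pos
  have h2 : 2 / π * (∫ φ in (0 : ℝ)..π, log (t / RR - cos φ) * sin φ ^ 2) ≤
      2 / π * (π / 2 * (t ^ 2 / (2 / 3) - 1 / 2 - log 2)) :=
    mul_le_mul_of_nonneg_left h1 (by positivity)
  have h3 : 2 / π * (π / 2 * (t ^ 2 / (2 / 3) - 1 / 2 - log 2)) =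
      3 / 2 * t ^ 2 - 1 / 2 - log 2 := by
    field_simp
  linarith

end Pool.Agent.F1
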