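import Pool.Agent.F1.ScInt
import Pool.Agent.F1.ScOut

set_option autoImplicit false

/-!
# F1 / Pot: the potential of the equilibrium measure
-/

namespace Pool.Agent.F1

open MeasureTheory Real Set
open scoped ENNReal InnerProductSpace
open Pool.Agent.Helper44.Ball3 (E3 sig)

/-- the semicircle law as a measure -/
noncomputable def scl : Measure ℝ :=
  ((volume.restrict (Ioo 0 π)).withDensity fun φ => ENNReal.ofReal (2 / π * sin φ ^ 2)).map
    fun φ => RR * cos φ

lemma lintegral_scl {h : ℝ → ℝ≥0∞} (hh : Measurable h) : ∫⁻ t, h t ∂scl =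
    ∫⁻ φ in Ioo 0 π, ENNReal.ofReal (2 / π * sin φ ^ 2) * h (RR * cos φ) := by
  unfold scl
  rw [lintegral_map hh (by fun_prop),
    lintegral_withDensity_eq_lintegral_mul _ (by fun_prop) (by fun_prop)]
  rfl

lemma marg_map (hM : St_Marg) {w : E3} (hw : ‖w‖ = 1) : mu.map (fun y => ⟪w, y⟫_ℝ) = scl := by
  refine Measure.ext_of_lintegral _ fun h hh => ?_
  rw [lintegral_map hh (by fun_prop), lintegral_scl hh, hM w hw h hh]

lemma integral_scl {g : ℝ → ℝ} (hg : Measurable g) : ∫ t, g t ∂scl =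
    ∫ φ in Ioo 0 π, 2 / π * sin φ ^ 2 * g (RR * cos φ) := by
  unfold scl
  rw [integral_map (by fun_prop) hg.aestronglyMeasurable,
    integral_withDensity_eq_integral_toReal_smul (by fun_prop) (by simp)]
  refine integral_congr_ae (Filter.Eventually.of_forall fun φ => ?_)
  have h0 : 0 ≤ 2 / π * sin φ ^ 2 := by positivity
  simp only [ENNReal.toReal_ofReal h0, smul_eq_mul]

lemma integral_marg (hM : St_Marg) {w : E3} (hw : ‖w‖ = 1) {g : ℝ → ℝ} (hg : Measurable g) :
    ∫ y, g ⟪w, y⟫_ℝ ∂mu = ∫ φ in Ioo 0 π, 2 / π * sin φ ^ 2 * g (RR * cos φ) := by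
  rw [← integral_scl hg, ← marg_map hM hw,
    integral_map (by fun_prop) hg.aestronglyMeasurable]

lemma scl_univ : scl univ = 1 := by
  have h1 := lintegral_scl (h := fun _ => 1) measurable_const
  simp only [mul_one, lintegral_const, one_mul] at h1
  rw [h1, ← ofReal_integral_eq_lintegral_ofReal]
  · rw [← integral_Ioc_eq_integral_Ioo, ← intervalIntegral.integral_of_le pi_pos.le,
      intervalIntegral.integral_const_mul, integral_sin_sq]
    have := pi_pos
    simp
  · have h2 : IntervalIntegrable (fun φ : ℝ => 2 / π * sin φ ^ 2) volume 0 π :=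
      Continuous.intervalIntegrable (by fun_prop) _ _
    exact ((intervalIntegrable_iff_integrableOn_Ioc_of_le pi_pos.le).1 h2).mono_set
      Ioo_subset_Ioc_self
  · exact Filter.Eventually.of_forall fun φ => by positivity

lemma mu_univ (hM : St_Marg) : mu univ = 1 := by
  have h1 : ‖Pool.Agent.Helper44.Ball3.e3‖ = 1 := Pool.Agent.Helper44.Ball3.norm_e3
  rw [← scl_univ, ← marg_map hM h1, Measure.map_apply (by fun_prop) MeasurableSet.univ]
  simp

instance : SFinite mu := by unfold mu; infer_instance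

lemma ae_ne_mu (x : E3) : ∀ᵐ y ∂mu, y ≠ x := by
  rw [ae_iff]
  simp

/-- the potential of the semicircle law -/
noncomputable def scp (t : ℝ) : ℝ := ∫ φ in Ioo 0 π, 2 / π * sin φ ^ 2 * log (t - RR * cos φ)

lemma scp_le (h1 : St_ScIn) (h3 : St_ScOut) (t : ℝ) : scp t ≤ 3 / 2 * t ^ 2 - kap - 1 := by
  rcases le_total |t| RR with h | h
  · exact (h1 t h).le
  · exact h3 t h

section

variable (hM : St_Marg) (x : E3)

include hM

lemma pot_integrable : Integrable (fun q : E3 × E3 => log ⟪x - q.2, q.1⟫_ℝ) (sig.prod mu) := by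
  obtain ⟨C, hC⟩ := st_ScInt.2 ‖x‖
  have hmeas : Measurable (fun q : E3 × E3 => log ⟪x - q.2, q.1⟫_ℝ) := by fun_prop
  refine ⟨hmeas.aestronglyMeasurable, ?_⟩
  rw [HasFiniteIntegral, lintegral_prod _ (by fun_prop)]
  calc ∫⁻ w, ∫⁻ y, ‖log ⟪x - (w, y).2, (w, y).1⟫_ℝ‖ₑ ∂mu ∂sig
      ≤ ∫⁻ _w, ENNReal.ofReal C ∂sig := by
        refine lintegral_mono_ae ?_
        filter_upwards [Pool.Agent.Helper44.Ball3.ae_norm] with w hw
        have h1 := hM w hw (fun v => ENNReal.ofReal |log (⟪w, x⟫_ℝ - v)|) (by fun_prop)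
        have h2 : ∀ y : E3, ‖log ⟪x - y, w⟫_ℝ‖ₑ = ENNReal.ofReal |log (⟪w, x⟫_ℝ - ⟪w, y⟫_ℝ)| := by
          intro y
          rw [← inner_sub_right, real_inner_comm, Real.enorm_eq_ofReal_abs]
        simp only [h2]
        rw [h1]
        refine hC _ ?_
        have h3 := abs_real_inner_le_norm w x
        rwa [hw, one_mul] at h3
    _ < ⊤ := by simp

lemma pot_log_integrable (hPW : St_PW) : Integrable (fun y => log ‖x - y‖) mu := by
  have : IsProbabilityMeasure mu := ⟨mu_univ hM⟩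
  have h1 := (pot_integrable hM x).integral_prod_right
  have h2 : Integrable (fun y => log ‖x - y‖ - 1) mu := by
    refine h1.congr ?_
    filter_upwards [ae_ne_mu x] with y hy
    exact (hPW (x - y) (sub_ne_zero.2 (Ne.symm hy))).2
  have h3 := h2.add (integrable_const (1 : ℝ))
  refine h3.congr (Filter.Eventually.of_forall fun y => ?_)
  simp

lemma pot_U (hPW : St_PW) : -U x - 1 = ∫ w, scp ⟪w, x⟫_ℝ ∂sig ∧
    Integrable (fun w => scp ⟪w, x⟫_ℝ) sig := by
  have : IsProbabilityMeasure mu := ⟨mu_univ hM⟩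
  have hF := pot_integrable hM x
  have h1 := integral_prod_symm _ hF
  have h2 := integral_prod _ hF
  have e1 : ∫ y, ∫ w, log ⟪x - y, w⟫_ℝ ∂sig ∂mu = -U x - 1 := by
    have e2 : ∫ y, ∫ w, log ⟪x - y, w⟫_ℝ ∂sig ∂mu = ∫ y, (log ‖x - y‖ - 1) ∂mu := by
      refine integral_congr_ae ?_
      filter_upwards [ae_ne_mu x] with y hy
      exact (hPW (x - y) (sub_ne_zero.2 (Ne.symm hy))).2
    rw [e2, integral_sub (pot_log_integrable hM x hPW) (integrable_const _), U, integral_neg]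
    simp
  have e3 : ∀ᵐ w ∂sig, ∫ y, log ⟪x - y, w⟫_ℝ ∂mu = scp ⟪w, x⟫_ℝ := by
    filter_upwards [Pool.Agent.Helper44.Ball3.ae_norm] with w hw
    have h3 := integral_marg hM hw (g := fun v => log (⟪w, x⟫_ℝ - v)) (by fun_prop)
    rw [scp, ← h3]
    refine integral_congr_ae (Filter.Eventually.of_forall fun y => ?_)
    simp only
    rw [← inner_sub_right, real_inner_comm]
  refine ⟨?_, ?_⟩
  · rw [← e1]
    simp only at h1 h2
    rw [← h1, h2]
    exact integral_congr_ae e3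
  · exact (hF.integral_prod_left).congr e3

end

lemma sig2_int (hS : St_Sig2) (x : E3) :
    Integrable (fun w : E3 => 3 / 2 * ⟪x, w⟫_ℝ ^ 2 - kap - 1) sig ∧
    ∫ w, (3 / 2 * ⟪x, w⟫_ℝ ^ 2 - kap - 1) ∂sig = ‖x‖ ^ 2 / 2 - kap - 1 := by
  obtain ⟨h3, h4⟩ := hS x
  have i1 : Integrable (fun w : E3 => 3 / 2 * ⟪x, w⟫_ℝ ^ 2 - kap) sig :=
    (h3.const_mul _).sub (integrable_const _)
  refine ⟨i1.sub (integrable_const _), ?_⟩
  rw [integral_sub i1 (integrable_const _), integral_sub (h3.const_mul _) (integrable_const _),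
    integral_const_mul, h4]
  simp

theorem st_Pot (hM : St_Marg) (hPW : St_PW) (hS : St_Sig2) : St_Pot := by
  refine ⟨fun x => pot_log_integrable hM x hPW, fun x => ?_, fun x hx => ?_⟩
  · obtain ⟨h1, h2⟩ := pot_U hM x hPW
    obtain ⟨h3, h4⟩ := sig2_int hS x
    have h5 : ∫ w, scp ⟪w, x⟫_ℝ ∂sig ≤ ∫ w, (3 / 2 * ⟪x, w⟫_ℝ ^ 2 - kap - 1) ∂sig := by
      refine integral_mono h2 h3 fun w => ?_
      simp only
      rw [real_inner_comm x w]
      exact scp_le st_ScIn st_ScOut _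
    rw [h4] at h5
    unfold Phi
    linarith
  · obtain ⟨h1, h2⟩ := pot_U hM x hPW
    obtain ⟨h3, h4⟩ := sig2_int hS x
    have hxR : ‖x‖ ≤ RR := by
      refine le_of_sq_le_sq ?_ RR_pos.le
      rw [RR_sq]
      exact hx
    have h5 : ∫ w, scp ⟪w, x⟫_ℝ ∂sig = ∫ w, (3 / 2 * ⟪x, w⟫_ℝ ^ 2 - kap - 1) ∂sig := by
      refine integral_congr_ae ?_
      filter_upwards [Pool.Agent.Helper44.Ball3.ae_norm] with w hw
      rw [real_inner_comm x w]
      refine st_ScIn _ ?_
      have h6 := abs_real_inner_le_norm x w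
      rw [hw, mul_one] at h6
      exact h6.trans hxR
    rw [h4] at h5
    unfold Phi
    linarith

end Pool.Agent.F1
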