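import Pool.Agent.F1.Basic

/-!
# F1: module Ptw
-/

set_option autoImplicit false

open MeasureTheory Set Real
open scoped ENNReal InnerProductSpace
open Pool.Agent.Helper44.Ball3 (E3 sig)

namespace Pool.Agent.F1

theorem st_Ptw (hLow : St_Low) (hTail : St_Tail) (hPot : St_Pot) : St_Ptw := by
  obtain ⟨c₀, hlow⟩ := hLow
  obtain ⟨-, CT, hCT, htail⟩ := hTail
  obtain ⟨-, hPhi, -⟩ := hPot
  refine ⟨2 * CT + c₀ / 2, ?_⟩
  intro n y hn hy hw
  have hn0 : (0 : ℝ) < n := by exact_mod_cast hn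
  have hn1 : (1 : ℝ) ≤ n := by exact_mod_cast hn
  set a : Fin n → ℝ := fun i => (n : ℝ) ^ ((2 : ℝ) / 3) * (ww (y i)) ^ (-(1 / 3) : ℝ) with ha
  have ha0 : ∀ i, 0 < a i := fun i => mul_pos (rpow_pos_of_pos hn0 _) (rpow_pos_of_pos (hw i) _)
  have hloga : ∀ i, log (a i) = 2 / 3 * log n - 1 / 3 * log (ww (y i)) := by
    intro i
    rw [ha]
    dsimp only
    rw [log_mul (rpow_pos_of_pos hn0 _).ne' (rpow_pos_of_pos (hw i) _).ne', log_rpow hn0,
      log_rpow (hw i)]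
    ring
  have h1 := hlow n y a hy ha0
  have h2 : ∀ i, (n : ℝ) * Tt (y i) (a i) ≤ CT := by
    intro i
    have h3 := mul_le_mul_of_nonneg_left (htail n hn (y i) (hw i)) hn0.le
    rwa [mul_div_cancel₀ _ hn0.ne'] at h3
  have h3 : ∀ i, U (y i) = Phi (y i) - ‖y i‖ ^ 2 / 2 + kap := by
    intro i
    unfold Phi
    ring
  have h4 : -HH n y ≤ -((n : ℝ) ^ 2 * (kap + 1 / 4)) +
      ∑ i, (2 * CT + c₀ / 2 + 1 / 3 * log n - 2 * Phi (y i) - 1 / 6 * log (ww (y i))) := by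
    unfold HH
    have h5 : ∑ i, (2 * (n : ℝ) * (U (y i) - Tt (y i) (a i)) + n * ‖y i‖ ^ 2 -
        (log (a i) + c₀) / 2) ≥
        ∑ i, (2 * n * kap - (2 * CT + c₀ / 2 + 1 / 3 * log n - 2 * Phi (y i) -
          1 / 6 * log (ww (y i)))) := by
      refine Finset.sum_le_sum fun i _ => ?_
      rw [h3 i, hloga i]
      have h6 := h2 i
      have h7 := hPhi (y i)
      nlinarith
    rw [Finset.sum_sub_distrib, Finset.sum_sub_distrib, Finset.sum_add_distrib, Finset.sum_const,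
      Finset.card_univ, Fintype.card_fin, nsmul_eq_mul, ← Finset.mul_sum, ← Finset.mul_sum] at h5
    have h8 : (n : ℝ) * (2 * n * kap) = 2 * n ^ 2 * kap := by ring
    rw [h8] at h5
    linarith
  refine (exp_le_exp.2 h4).trans (le_of_eq ?_)
  rw [exp_add, exp_sum]
  congr 1
  refine Finset.prod_congr rfl fun i _ => ?_
  rw [rpow_def_of_pos hn0, rpow_def_of_pos (hw i), ← exp_add, ← exp_add, ← exp_add]
  congr 1
  ring

end Pool.Agent.F1
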