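import Pool.Agent.F1.Basic

set_option autoImplicit false

/-!
# F1 / Rot: rotation invariance of the equilibrium measure
-/

namespace Pool.Agent.F1

open MeasureTheory Real Set
open scoped ENNReal InnerProductSpace
open Pool.Agent.Helper44.Ball3 (E3)

theorem st_Rot : St_Rot := by
  intro L
  refine Measure.ext_of_lintegral _ fun F hF => ?_
  have hL : Measurable L := L.continuous.measurable
  have h0 : Measurable fun y => F (L y) := hF.comp hL
  rw [lintegral_map hF hL, lintegral_mu h0, lintegral_mu hF]
  have h1 : ∀ y, rho y = rho (L y) := fun y => by unfold rho; rw [L.norm_map]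
  have h2 := L.measurePreserving.lintegral_comp (f := fun y => ENNReal.ofReal (rho y) * F y)
    (measurable_rho.ennreal_ofReal.mul hF)
  rw [← h2]
  refine lintegral_congr fun y => ?_
  rw [h1 y]

end Pool.Agent.F1
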