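import Pool.Agent.F1.Gen

/-!
# F1: module Scale
-/

set_option autoImplicit false

open MeasureTheory Set Real
open scoped ENNReal InnerProductSpace
open Pool.Agent.Helper44.Ball3 (E3 sig)

namespace Pool.Agent.F1

theorem scale_QQ {n : ℕ} (y : Fin n → E3) :
    QQ y = ∏ i : Fin n, ∏ j ∈ ({i} : Finset (Fin n))ᶜ, ‖y i - y j‖ := by
  unfold QQ
  have h := Finset.prod_prod_Ioi_mul_eq_prod_prod_off_diag
    (fun a b : Fin n => ‖y b - y a‖)
  rw [← h]
  refine Finset.prod_congr rfl fun i _ => Finset.prod_congr rfl fun j _ => ?_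
  rw [sq, norm_sub_rev (y i) (y j)]

theorem scale_smul {n : ℕ} {c : ℝ} (hc : 0 ≤ c) (y : Fin n → E3) :
    QQ (c • y) = c ^ (n * (n - 1)) * QQ y := by
  rw [scale_QQ, scale_QQ]
  have h : ∀ i : Fin n, ∏ j ∈ ({i} : Finset (Fin n))ᶜ, ‖(c • y) i - (c • y) j‖ =
      c ^ (n - 1) * ∏ j ∈ ({i} : Finset (Fin n))ᶜ, ‖y i - y j‖ := by
    intro i
    have h1 : ∀ j ∈ ({i} : Finset (Fin n))ᶜ, ‖(c • y) i - (c • y) j‖ = c * ‖y i - y j‖ := by
      intro j _
      rw [Pi.smul_apply, Pi.smul_apply, ← smul_sub, norm_smul, Real.norm_of_nonneg hc]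
    rw [Finset.prod_congr rfl h1, Finset.prod_mul_distrib, Finset.prod_const, Finset.card_compl,
      Finset.card_singleton, Fintype.card_fin]
  rw [Finset.prod_congr rfl fun i _ => h i, Finset.prod_mul_distrib, Finset.prod_const,
    Finset.card_univ, Fintype.card_fin, ← pow_mul, mul_comm (n - 1) n]

theorem scale_HH {n : ℕ} (y : Fin n → E3) (hy : Function.Injective y) :
    exp (-HH n y) = QQ y * ∏ i, exp (-(n * ‖y i‖ ^ 2)) := by
  have h1 : -HH n y = (∑ i, ∑ j ∈ ({i} : Finset (Fin n))ᶜ, log ‖y i - y j‖) +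
      ∑ i, -(n * ‖y i‖ ^ 2) := by
    unfold HH
    rw [neg_add, Finset.mul_sum, ← Finset.sum_neg_distrib, ← Finset.sum_neg_distrib]
    congr 1
    refine Finset.sum_congr rfl fun i _ => ?_
    rw [← Finset.sum_neg_distrib]
    have h2 : ∀ j : Fin n, -(if j = i then (0 : ℝ) else -log ‖y i - y j‖) =
        if j ∈ ({i} : Finset (Fin n))ᶜ then log ‖y i - y j‖ else 0 := by
      intro j
      by_cases h : j = i
      · simp [h]
      · simp [h]
    rw [Finset.sum_congr rfl fun j _ => h2 j, Finset.sum_ite_mem, Finset.univ_inter]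
  rw [h1, exp_add, exp_sum, exp_sum, scale_QQ]
  congr 1
  refine Finset.prod_congr rfl fun i _ => ?_
  rw [exp_sum]
  refine Finset.prod_congr rfl fun j hj => ?_
  rw [exp_log]
  rw [norm_pos_iff, sub_ne_zero]
  intro h
  rw [Finset.mem_compl, Finset.mem_singleton] at hj
  exact hj (hy h).symm

theorem scale_meas (n : ℕ) : Measurable (fun y : Fin n → E3 => exp (-HH n y)) := by
  unfold HH
  refine Measurable.exp (Measurable.neg (Measurable.add ?_ ?_))
  · refine Finset.measurable_fun_sum _ fun i _ => Finset.measurable_fun_sum _ fun j _ => ?_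
    by_cases h : j = i
    · simp only [h, if_true]
      exact measurable_const
    · simp only [h, if_false]
      fun_prop
  · fun_prop

theorem st_Scale : St_Scale := by
  intro n hn
  have hn0 : (0 : ℝ) < n := by exact_mod_cast hn
  have hR : 0 < √(n : ℝ) := Real.sqrt_pos.2 hn0
  have hZ : (Zn n).toReal = ∫ y : Fin n → E3, exp (-HH n y) := by
    unfold Zn
    rw [integral_eq_lintegral_of_nonneg_ae (ae_of_all _ fun y => (exp_pos _).le)
      (scale_meas n).aestronglyMeasurable]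
  have h1 := Measure.integral_comp_smul (volume : Measure (Fin n → E3))
    (fun r : Fin n → E3 => QQ r * ∏ i, exp (-‖r i‖ ^ 2)) (√(n : ℝ))
  have h2 : ∫ y : Fin n → E3, QQ (√(n : ℝ) • y) * ∏ i, exp (-‖(√(n : ℝ) • y) i‖ ^ 2) =
      ∫ y : Fin n → E3, √(n : ℝ) ^ (n * (n - 1)) * exp (-HH n y) := by
    refine integral_congr_ae ?_
    filter_upwards [st_Gen n] with y hy
    rw [scale_HH y hy.1, scale_smul hR.le, mul_assoc]
    congr 2
    refine Finset.prod_congr rfl fun i _ => ?_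
    rw [Pi.smul_apply, norm_smul, mul_pow, Real.norm_of_nonneg hR.le, Real.sq_sqrt hn0.le]
  have hfin : Module.finrank ℝ (Fin n → E3) = 3 * n := by
    rw [Module.finrank_pi_fintype]
    simp [E3, mul_comm]
  rw [h2, integral_const_mul, ← hZ, hfin, abs_of_pos (by positivity), smul_eq_mul] at h1
  have h3 : Fone n = √(n : ℝ) ^ (3 * n) * (√(n : ℝ) ^ (n * (n - 1)) * (Zn n).toReal) := by
    rw [h1]
    unfold Fone
    field_simp
  have h4 : √(n : ℝ) ^ (3 * n) * √(n : ℝ) ^ (n * (n - 1)) = exp (((n : ℝ) ^ 2 / 2 + n) * log n) := by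
    rw [← pow_add]
    have h5 : √(n : ℝ) = exp (log n / 2) := by
      rw [Real.sqrt_eq_rpow, Real.rpow_def_of_pos hn0]
      congr 1
      ring
    rw [h5, ← exp_nat_mul]
    congr 1
    obtain ⟨m, rfl⟩ : ∃ m, n = m + 1 := ⟨n - 1, by omega⟩
    rw [Nat.add_sub_cancel]
    push_cast
    ring
  rw [h3, ← mul_assoc, h4]

end Pool.Agent.F1
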