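import Pool.Agent.F1.PW

set_option autoImplicit false

/-!
# F1 / Sig2: second moments on the sphere
-/

namespace Pool.Agent.F1

open MeasureTheory Real Set
open scoped ENNReal InnerProductSpace
open Pool.Agent.Helper44.Ball3 (E3 sig)

theorem st_Sig2 : St_Sig2 := by
  intro x
  rcases eq_or_ne x 0 with hx | hx
  · subst hx
    simp
  · have h0 := zonal_integral (norm_unit hx) (g := fun u => (‖x‖ * u) ^ 2) (by fun_prop)
      (Continuous.intervalIntegrable (by fun_prop) _ _)
    simp only [← inner_unit hx] at h0
    refine ⟨h0.1, h0.2.trans ?_⟩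
    simp only [mul_pow]
    rw [intervalIntegral.integral_const_mul, integral_pow]
    norm_num
    ring

end Pool.Agent.F1
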