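import Pool.Agent.F1.Pot
import Pool.Agent.F1.Marg

/-!
# F1 / Sq: the second moment of the equilibrium measure
-/

set_option autoImplicit false

open MeasureTheory Set Real
open scoped ENNReal InnerProductSpace
open Pool.Agent.Helper44.Ball3 (E3 sig)

namespace Pool.Agent.F1

theorem sq_one (hMap : St_Map) {w : E3} (hw : ‖w‖ = 1) : ∫ y, ⟪w, y⟫_ℝ ^ 2 ∂mu = 1 / 6 := by
  have h1 := integral_marg (st_Marg hMap st_Rot) hw (g := fun t => t ^ 2) (by fun_prop)
  rw [h1, ← integral_Ioc_eq_integral_Ioo, ← intervalIntegral.integral_of_le pi_pos.le]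
  have h2 : ∀ φ : ℝ, 2 / π * sin φ ^ 2 * (RR * cos φ) ^ 2 =
      2 / π * RR ^ 2 * (sin φ ^ 2 * cos φ ^ 2) := fun φ => by ring
  simp only [h2]
  rw [intervalIntegral.integral_const_mul, integral_sin_sq_mul_cos_sq, RR_sq]
  have h3 : sin (4 * π) = 0 := by
    have := sin_nat_mul_pi 4
    exact_mod_cast this
  have := pi_pos
  rw [h3]
  simp
  field_simp
  norm_num

theorem st_Sq (hMap : St_Map) : St_Sq := by
  have := isProb hMap
  have hb : ∀ᵐ y ∂mu, ‖‖y‖ ^ 2‖ ≤ 1 := by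
    filter_upwards [ae_mu] with y hy
    rw [Real.norm_eq_abs, abs_of_nonneg (sq_nonneg _)]
    linarith
  have hi : Integrable (fun y : E3 => ‖y‖ ^ 2) mu :=
    Integrable.of_bound (by fun_prop) 1 hb
  refine ⟨hi, ?_⟩
  have e : ∀ y : E3, ‖y‖ ^ 2 = ∑ i : Fin 3, ⟪(EuclideanSpace.single i (1 : ℝ) : E3), y⟫_ℝ ^ 2 := by
    intro y
    rw [EuclideanSpace.real_norm_sq_eq]
    refine Finset.sum_congr rfl fun i _ => ?_
    simp [EuclideanSpace.inner_single_left]
  have hii : ∀ i : Fin 3, Integrable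
      (fun y : E3 => ⟪(EuclideanSpace.single i (1 : ℝ) : E3), y⟫_ℝ ^ 2) mu := by
    intro i
    refine Integrable.mono' hi (by fun_prop) (Filter.Eventually.of_forall fun y => ?_)
    rw [Real.norm_eq_abs, abs_of_nonneg (sq_nonneg _)]
    have h1 := abs_real_inner_le_norm (EuclideanSpace.single i (1 : ℝ) : E3) y
    rw [← sq_abs]
    have h2 : ‖(EuclideanSpace.single i (1 : ℝ) : E3)‖ = 1 := by simp
    rw [h2, one_mul] at h1
    exact pow_le_pow_left₀ (abs_nonneg _) h1 2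
  simp only [e]
  rw [integral_finsetSum _ fun i _ => hii i]
  have h3 : ∀ i : Fin 3, ∫ y, ⟪(EuclideanSpace.single i (1 : ℝ) : E3), y⟫_ℝ ^ 2 ∂mu = 1 / 6 :=
    fun i => sq_one hMap (by simp)
  simp only [h3]
  norm_num

end Pool.Agent.F1
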