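import Pool.Agent.F1.Basic

/-!
# F1: module Tail
-/

set_option autoImplicit false

open MeasureTheory Set Real
open scoped ENNReal InnerProductSpace
open Pool.Agent.Helper44.Ball3 (E3 sig)

namespace Pool.Agent.F1

lemma tail_int (hMsBasic : St_MsBasic) (hM1 : St_M1) (x : E3) (a : ℝ) (ha : 0 < a) :
    IntegrableOn (fun s => ms s x / (2 * s)) (Ioi a) := by
  obtain ⟨hmeas, hnn, -, -⟩ := hMsBasic
  obtain ⟨C, hC, h1⟩ := hM1
  have hm : Measurable fun s => ms s x := hmeas.comp (measurable_id.prodMk measurable_const)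
  refine Integrable.mono' ((integrableOn_Ioi_rpow_of_lt (a := -(9 / 4)) (by norm_num)
    ha).const_mul (C / 2)) (hm.div (measurable_const.mul measurable_id)).aestronglyMeasurable ?_
  filter_upwards [ae_restrict_mem measurableSet_Ioi] with s hs
  have hs0 : 0 < s := ha.trans hs
  rw [norm_of_nonneg (div_nonneg (hnn s x) (by positivity)), div_le_iff₀ (by positivity)]
  have h2 : s ^ (-(5 / 4) : ℝ) = s ^ (-(9 / 4) : ℝ) * s := by
    rw [← rpow_add_one hs0.ne']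
    norm_num
  calc ms s x ≤ C * s ^ (-(5 / 4) : ℝ) := h1 s x hs0
    _ = C / 2 * s ^ (-(9 / 4) : ℝ) * (2 * s) := by
        rw [h2]
        ring

lemma tail_quarter {X : ℝ} (hX : 0 < X) : X ^ ((1 : ℝ) / 4) * exp (-(X / 72)) ≤ 72 := by
  have h1 : X ^ ((1 : ℝ) / 4) ≤ 1 + X := by
    rcases le_or_gt X 1 with h | h
    · have := rpow_le_one hX.le h (show (0 : ℝ) ≤ 1 / 4 by norm_num)
      linarith
    · have h2 : X ^ ((1 : ℝ) / 4) ≤ X ^ (1 : ℝ) :=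
        rpow_le_rpow_of_exponent_le h.le (by norm_num)
      rw [rpow_one] at h2
      linarith
  have h2 : 1 + X ≤ 72 * exp (X / 72) := by
    have := add_one_le_exp (X / 72)
    linarith
  have h3 : exp (X / 72) * exp (-(X / 72)) = 1 := by
    rw [← exp_add, add_neg_cancel, exp_zero]
  have h4 := exp_pos (-(X / 72))
  calc X ^ ((1 : ℝ) / 4) * exp (-(X / 72)) ≤ (72 * exp (X / 72)) * exp (-(X / 72)) :=
        mul_le_mul_of_nonneg_right (h1.trans h2) h4.le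
    _ = 72 := by rw [mul_assoc, h3, mul_one]

lemma tail_near (hMsBasic : St_MsBasic) (hM1 : St_M1) {C : ℝ} (hC : 0 < C)
    (h2 : ∀ (s : ℝ) (x : E3), 0 < s → ‖x‖ ≤ 2 → 0 < ww x →
      ms s x ≤ C * (ww x) ^ (-(1 / 2) : ℝ) * s ^ (-(3 / 2) : ℝ) +
        C * exp (-(s * ww x ^ 2 / 72)) * s ^ (-(5 / 4) : ℝ))
    (n : ℕ) (hn : 1 ≤ n) (x : E3) (hw : 0 < ww x) (hx : ‖x‖ ≤ 2) :
    Tt x ((n : ℝ) ^ ((2 : ℝ) / 3) * (ww x) ^ (-(1 / 3) : ℝ)) ≤ 30 * C / n := by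
  have hn0 : (0 : ℝ) < n := by exact_mod_cast hn
  set w := ww x with hwdef
  set a : ℝ := (n : ℝ) ^ ((2 : ℝ) / 3) * w ^ (-(1 / 3) : ℝ) with hadef
  have ha : 0 < a := by positivity
  -- powers of `a`
  have ha32 : a ^ (-(3 / 2) : ℝ) = w ^ ((1 : ℝ) / 2) / n := by
    rw [hadef, mul_rpow (by positivity) (by positivity), ← rpow_mul hn0.le, ← rpow_mul hw.le,
      show (2 : ℝ) / 3 * (-(3 / 2)) = -1 by norm_num,
      show (-(1 / 3) : ℝ) * (-(3 / 2)) = 1 / 2 by norm_num, rpow_neg_one]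
    field_simp
  have ha54 : a ^ (-(5 / 4) : ℝ) = (a * w ^ 2) ^ ((1 : ℝ) / 4) / n := by
    rw [show (-(5 / 4) : ℝ) = -(3 / 2) + 1 / 4 by norm_num, rpow_add ha, ha32,
      mul_rpow ha.le (by positivity), ← rpow_natCast w 2, ← rpow_mul hw.le,
      show ((2 : ℕ) : ℝ) * (1 / 4) = 1 / 2 by norm_num]
    ring
  -- the bound
  have hi1 : IntegrableOn (fun s : ℝ => s ^ (-(5 / 2) : ℝ)) (Ioi a) :=
    integrableOn_Ioi_rpow_of_lt (by norm_num) ha
  have hi2 : IntegrableOn (fun s : ℝ => s ^ (-(9 / 4) : ℝ)) (Ioi a) :=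
    integrableOn_Ioi_rpow_of_lt (by norm_num) ha
  have hb : Tt x a ≤ ∫ s in Ioi a, (C / 2 * w ^ (-(1 / 2) : ℝ) * s ^ (-(5 / 2) : ℝ) +
      C / 2 * exp (-(a * w ^ 2 / 72)) * s ^ (-(9 / 4) : ℝ)) := by
    unfold Tt
    refine setIntegral_mono_on (tail_int hMsBasic hM1 x a ha)
      ((hi1.const_mul _).add (hi2.const_mul _)) measurableSet_Ioi fun s hs => ?_
    have hs0 : 0 < s := ha.trans hs
    rw [div_le_iff₀ (by positivity)]
    have h3 : s ^ (-(5 / 4) : ℝ) = s ^ (-(9 / 4) : ℝ) * s := by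
      rw [← rpow_add_one hs0.ne']
      norm_num
    have h4 : s ^ (-(3 / 2) : ℝ) = s ^ (-(5 / 2) : ℝ) * s := by
      rw [← rpow_add_one hs0.ne']
      norm_num
    have h5 : exp (-(s * w ^ 2 / 72)) ≤ exp (-(a * w ^ 2 / 72)) := by
      rw [exp_le_exp]
      have : a * w ^ 2 ≤ s * w ^ 2 := mul_le_mul_of_nonneg_right (le_of_lt hs) (by positivity)
      linarith
    calc ms s x ≤ C * w ^ (-(1 / 2) : ℝ) * s ^ (-(3 / 2) : ℝ) +
          C * exp (-(s * w ^ 2 / 72)) * s ^ (-(5 / 4) : ℝ) := h2 s x hs0 hx hw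
      _ ≤ C * w ^ (-(1 / 2) : ℝ) * s ^ (-(3 / 2) : ℝ) +
          C * exp (-(a * w ^ 2 / 72)) * s ^ (-(5 / 4) : ℝ) := by gcongr
      _ = _ := by
          rw [h3, h4]
          ring
  refine hb.trans ?_
  rw [integral_add (hi1.const_mul _) (hi2.const_mul _), integral_const_mul, integral_const_mul,
    integral_Ioi_rpow_of_lt (by norm_num) ha, integral_Ioi_rpow_of_lt (by norm_num) ha,
    show (-(5 / 2) + 1 : ℝ) = -(3 / 2) by norm_num,
    show (-(9 / 4) + 1 : ℝ) = -(5 / 4) by norm_num, ha32, ha54]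
  have h6 : w ^ (-(1 / 2) : ℝ) * w ^ ((1 : ℝ) / 2) = 1 := by
    rw [← rpow_add hw]
    norm_num
  have h7 := tail_quarter (X := a * w ^ 2) (by positivity)
  have h8 : C / 2 * w ^ (-(1 / 2) : ℝ) * (-(w ^ ((1 : ℝ) / 2) / n) / -(3 / 2)) = C / 3 / n := by
    calc _ = C / 3 / n * (w ^ (-(1 / 2) : ℝ) * w ^ ((1 : ℝ) / 2)) := by ring
      _ = _ := by rw [h6, mul_one]
  have h9 : C / 2 * exp (-(a * w ^ 2 / 72)) * (-((a * w ^ 2) ^ ((1 : ℝ) / 4) / n) / -(5 / 4)) =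
      2 / 5 * C * ((a * w ^ 2) ^ ((1 : ℝ) / 4) * exp (-(a * w ^ 2 / 72))) / n := by
    ring
  rw [h8, h9, ← add_div]
  gcongr
  nlinarith

lemma tail_far (hMsBasic : St_MsBasic) (hM1 : St_M1) (hM3 : St_M3)
    (n : ℕ) (hn : 1 ≤ n) (x : E3) (hw : 0 < ww x) (hx : 2 < ‖x‖) :
    Tt x ((n : ℝ) ^ ((2 : ℝ) / 3) * (ww x) ^ (-(1 / 3) : ℝ)) ≤ 2 / n := by
  have hn0 : (0 : ℝ) < n := by exact_mod_cast hn
  have hR := RR_lt_one
  have hR0 := RR_pos
  set w := ww x with hwdef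
  set a : ℝ := (n : ℝ) ^ ((2 : ℝ) / 3) * w ^ (-(1 / 3) : ℝ) with hadef
  have ha : 0 < a := by positivity
  set d := ‖x‖ - RR with hd
  have hd0 : ‖x‖ / 2 ≤ d := by linarith
  have hdpos : 0 < d := by linarith
  have hwx : w ≤ ‖x‖ ^ 2 := by
    rw [hwdef]
    unfold ww
    rw [abs_le]
    constructor
    · nlinarith
    · nlinarith
  -- the exponential integral
  have hneg : -(d ^ 2) < 0 := by
    have : 0 < d ^ 2 := by positivity
    linarith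
  have hi : IntegrableOn (fun s : ℝ => exp (-(d ^ 2) * s)) (Ioi a) :=
    integrableOn_exp_mul_Ioi hneg a
  have hb : Tt x a ≤ ∫ s in Ioi a, 1 / (2 * a) * exp (-(d ^ 2) * s) := by
    unfold Tt
    refine setIntegral_mono_on (tail_int hMsBasic hM1 x a ha) (hi.const_mul _)
      measurableSet_Ioi fun s hs => ?_
    have hs0 : 0 < s := ha.trans hs
    have h3 : ms s x ≤ exp (-(d ^ 2) * s) := by
      refine (hM3 s x hs0 (by linarith)).trans (le_of_eq ?_)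
      congr 1
      ring
    have h4 : 1 / (2 * s) ≤ 1 / (2 * a) := by
      refine one_div_le_one_div_of_le (by positivity) ?_
      have : a < s := hs
      linarith
    calc ms s x / (2 * s) = ms s x * (1 / (2 * s)) := by ring
      _ ≤ exp (-(d ^ 2) * s) * (1 / (2 * a)) :=
          mul_le_mul h3 h4 (by positivity) (exp_pos _).le
      _ = _ := by ring
  refine hb.trans ?_
  rw [integral_const_mul, integral_exp_mul_Ioi hneg]
  set X := a * d ^ 2 with hXdef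
  have hX : 0 < X := by positivity
  have h5 : 1 / (2 * a) * (-exp (-(d ^ 2) * a) / -(d ^ 2)) = exp (-X) / (2 * X) := by
    have h6 : -(d ^ 2) * a = -X := by
      rw [hXdef]
      ring
    rw [h6, neg_div_neg_eq, hXdef]
    field_simp
  rw [h5]
  -- `n ≤ (2 X) ^ (3 / 2)`
  have h6 : (n : ℝ) ^ ((2 : ℝ) / 3) ≤ 2 * X := by
    have hx0 : 0 < ‖x‖ := by linarith
    have h7 : ‖x‖ ^ (-(2 / 3) : ℝ) ≤ w ^ (-(1 / 3) : ℝ) := by
      have h8 : (‖x‖ ^ 2) ^ (-(1 / 3) : ℝ) = ‖x‖ ^ (-(2 / 3) : ℝ) := by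
        rw [← rpow_natCast ‖x‖ 2, ← rpow_mul hx0.le]
        norm_num
      rw [← h8]
      exact rpow_le_rpow_of_nonpos hw hwx (by norm_num)
    have h9 : 2 ≤ ‖x‖ ^ (-(2 / 3) : ℝ) * ‖x‖ ^ 2 := by
      have h10 : ‖x‖ ^ (-(2 / 3) : ℝ) * ‖x‖ ^ 2 = ‖x‖ ^ ((4 : ℝ) / 3) := by
        rw [← rpow_natCast ‖x‖ 2, ← rpow_add hx0]
        norm_num
      rw [h10]
      calc (2 : ℝ) = 2 ^ (1 : ℝ) := by rw [rpow_one]
        _ ≤ 2 ^ ((4 : ℝ) / 3) := rpow_le_rpow_of_exponent_le (by norm_num) (by norm_num)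
        _ ≤ ‖x‖ ^ ((4 : ℝ) / 3) := rpow_le_rpow (by norm_num) hx.le (by norm_num)
    have h11 : ‖x‖ ^ 2 / 4 ≤ d ^ 2 := by nlinarith
    calc (n : ℝ) ^ ((2 : ℝ) / 3) = (n : ℝ) ^ ((2 : ℝ) / 3) * (2 * 2 / 4) := by ring
      _ ≤ (n : ℝ) ^ ((2 : ℝ) / 3) * (2 * (‖x‖ ^ (-(2 / 3) : ℝ) * ‖x‖ ^ 2) / 4) := by gcongr
      _ = 2 * ((n : ℝ) ^ ((2 : ℝ) / 3) * ‖x‖ ^ (-(2 / 3) : ℝ) * (‖x‖ ^ 2 / 4)) := by ring
      _ ≤ 2 * ((n : ℝ) ^ ((2 : ℝ) / 3) * w ^ (-(1 / 3) : ℝ) * d ^ 2) := by gcongr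
      _ = 2 * X := by rw [hXdef, hadef]
  have h7 : (n : ℝ) ≤ (2 * X) ^ ((3 : ℝ) / 2) := by
    have h8 : ((n : ℝ) ^ ((2 : ℝ) / 3)) ^ ((3 : ℝ) / 2) = n := by
      rw [← rpow_mul hn0.le]
      norm_num
    rw [← h8]
    exact rpow_le_rpow (by positivity) h6 (by norm_num)
  have h8 : (2 * X) ^ ((3 : ℝ) / 2) = 2 * X * √(2 * X) := by
    rw [sqrt_eq_rpow, show (3 : ℝ) / 2 = 1 + 1 / 2 by norm_num, rpow_add (by positivity), rpow_one]
  have h9 : √(2 * X) ≤ 2 * (1 + X) := by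
    rw [sqrt_le_left (by positivity)]
    nlinarith
  have h10 : exp (-X) * (1 + X) ≤ 1 := by
    have h11 := add_one_le_exp X
    have h12 : exp (-X) * exp X = 1 := by rw [← exp_add, neg_add_cancel, exp_zero]
    calc exp (-X) * (1 + X) ≤ exp (-X) * exp X :=
          mul_le_mul_of_nonneg_left (by linarith) (exp_pos _).le
      _ = 1 := h12
  rw [div_le_div_iff₀ (by positivity) hn0]
  calc exp (-X) * n ≤ exp (-X) * (2 * X * √(2 * X)) := by
        rw [← h8]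
        exact mul_le_mul_of_nonneg_left h7 (exp_pos _).le
    _ ≤ exp (-X) * (2 * X * (2 * (1 + X))) := by gcongr
    _ = 2 * (2 * X) * (exp (-X) * (1 + X)) := by ring
    _ ≤ 2 * (2 * X) * 1 := by gcongr
    _ = 2 * (2 * X) := by ring

theorem st_Tail (hMap : St_Map) (hMsBasic : St_MsBasic) (hM1 : St_M1) (hM2 : St_M2) (hM3 : St_M3) :
    St_Tail := by
  refine ⟨tail_int hMsBasic hM1, ?_⟩
  obtain ⟨C, hC, h2⟩ := hM2
  refine ⟨30 * C + 2, by positivity, fun n hn x hw => ?_⟩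
  have hn0 : (0 : ℝ) < n := by exact_mod_cast hn
  rcases le_or_gt ‖x‖ 2 with hx | hx
  · refine (tail_near hMsBasic hM1 hC h2 n hn x hw hx).trans ?_
    gcongr
    linarith
  · refine (tail_far hMsBasic hM1 hM3 n hn x hw hx).trans ?_
    gcongr
    linarith

end Pool.Agent.F1
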