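import Pool.Agent.F1.Pot
import Pool.Agent.F1.Basic

/-!
# F1 / UGrow: the potential at infinity
-/

set_option autoImplicit false

open MeasureTheory Set Real
open scoped ENNReal InnerProductSpace
open Pool.Agent.Helper44.Ball3 (E3 sig)

namespace Pool.Agent.F1

theorem st_UGrow (hMap : St_Map) (hPot : St_Pot) : St_UGrow := by
  have := isProb hMap
  refine ⟨?_, fun x => ?_⟩
  · have hmeas : Measurable (fun q : E3 × E3 => -log ‖q.1 - q.2‖) := by fun_prop
    exact (hmeas.stronglyMeasurable.integral_prod_right').measurable
  · have h1 : -log (‖x‖ + 1) ≤ U x := by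
      have h2 : ∫ _y, -log (‖x‖ + 1) ∂mu ≤ ∫ y, -log ‖x - y‖ ∂mu := by
        refine integral_mono_ae (integrable_const _) (hPot.1 x).neg ?_
        filter_upwards [ae_mu_norm] with y hy
        have h3 : ‖x - y‖ ≤ ‖x‖ + 1 := (norm_sub_le _ _).trans (by linarith [RR_lt_one])
        refine neg_le_neg ?_
        rcases eq_or_lt_of_le (norm_nonneg (x - y)) with h4 | h4
        · rw [← h4, log_zero]
          exact log_nonneg (by linarith [norm_nonneg x])
        · exact log_le_log h4 h3
      simpa [U] using h2
    unfold Phi
    linarith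

end Pool.Agent.F1
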