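import Pool.Agent.F1.Pot
import Pool.Agent.F1.Basic

/-!
# F1 / Umix: the potential as a mixture of Gaussians
-/

set_option autoImplicit false

open MeasureTheory Set Real
open scoped ENNReal InnerProductSpace
open Pool.Agent.Helper44.Ball3 (E3 sig)

namespace Pool.Agent.F1

theorem umix_gen {Y : Type*} [MeasurableSpace Y] (ν : Measure Y) [IsProbabilityMeasure ν]
    (hFrull : St_Frull) (g : Y → ℝ) (hg : Measurable g) (hg0 : ∀ y, 0 ≤ g y)
    (hpos : ∀ᵐ y ∂ν, 0 < g y) (hlog : Integrable (fun y => log (g y)) ν) :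
    IntegrableOn (fun s => ((∫ y, exp (-(s * g y)) ∂ν) - exp (-s)) / s) (Ioi 0) ∧
      ∫ s in Ioi 0, ((∫ y, exp (-(s * g y)) ∂ν) - exp (-s)) / s = -∫ y, log (g y) ∂ν := by
  set F : ℝ × Y → ℝ := fun q => (exp (-(q.1 * g q.2)) - exp (-q.1)) / q.1 with hF
  have hmeas : Measurable F := by
    rw [hF]
    fun_prop
  have hint : Integrable F ((volume.restrict (Ioi 0)).prod ν) := by
    refine ⟨hmeas.aestronglyMeasurable, ?_⟩
    rw [HasFiniteIntegral, lintegral_prod_symm' _ (by fun_prop)]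
    have h1 : ∫⁻ y, (∫⁻ s in Ioi 0, ‖F (s, y)‖ₑ) ∂ν = ∫⁻ y, ‖log (g y)‖ₑ ∂ν := by
      refine lintegral_congr_ae ?_
      filter_upwards [hpos] with y hy
      have h2 := (hFrull (g y) hy).1
      simp only [hF, Real.enorm_eq_ofReal_abs]
      exact h2
    rw [h1]
    exact hlog.2
  have hs : ∀ s ∈ Ioi (0 : ℝ), ∫ y, F (s, y) ∂ν = ((∫ y, exp (-(s * g y)) ∂ν) - exp (-s)) / s := by
    intro s hs
    have hs0 : (0 : ℝ) < s := hs
    have hi : Integrable (fun y => exp (-(s * g y))) ν := by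
      refine Integrable.of_bound (C := 1) (by fun_prop) (Filter.Eventually.of_forall fun y => ?_)
      rw [Real.norm_eq_abs, abs_of_pos (exp_pos _)]
      exact exp_le_one_iff.2 (by have := mul_nonneg hs0.le (hg0 y); linarith)
    simp only [hF]
    rw [integral_div, integral_sub hi (integrable_const _)]
    simp
  refine ⟨?_, ?_⟩
  · have h1 := hint.integral_prod_left
    refine h1.congr ?_
    rw [Filter.EventuallyEq, ae_restrict_iff' measurableSet_Ioi]
    exact Filter.Eventually.of_forall hs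
  · rw [← setIntegral_congr_fun measurableSet_Ioi hs, ← integral_prod _ hint,
      integral_prod_symm _ hint, ← integral_neg]
    refine integral_congr_ae ?_
    filter_upwards [hpos] with y hy
    exact (hFrull (g y) hy).2.2

theorem st_Umix (hMap : St_Map) (_hMsBasic : St_MsBasic) (hFrull : St_Frull) (hPot : St_Pot) :
    St_Umix := by
  intro x
  have := isProb hMap
  have hpos : ∀ᵐ y ∂mu, 0 < ‖x - y‖ ^ 2 := by
    filter_upwards [ae_ne_mu x] with y hy
    have h1 : 0 < ‖x - y‖ := norm_pos_iff.2 (sub_ne_zero.2 (Ne.symm hy))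
    positivity
  have hl : ∀ y : E3, log (‖x - y‖ ^ 2) = 2 * log ‖x - y‖ := by
    intro y
    rw [log_pow]
    norm_num
  have hlog : Integrable (fun y => log (‖x - y‖ ^ 2)) mu := by
    simp only [hl]
    exact (hPot.1 x).const_mul 2
  have h := umix_gen mu hFrull (fun y => ‖x - y‖ ^ 2) (by fun_prop) (fun y => by positivity)
    hpos hlog
  refine ⟨h.1, ?_⟩
  rw [show (∫ s in Ioi 0, (ms s x - exp (-s)) / s) =
    ∫ s in Ioi 0, ((∫ y, exp (-(s * ‖x - y‖ ^ 2)) ∂mu) - exp (-s)) / s from rfl, h.2]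
  simp only [hl]
  rw [integral_const_mul, U, integral_neg]
  ring

end Pool.Agent.F1
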