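import Pool.Agent.F1.Basic

/-!
# F1: module Upper
-/

set_option autoImplicit false

open MeasureTheory Set Real
open scoped ENNReal InnerProductSpace
open Pool.Agent.Helper44.Ball3 (E3 sig lintegral_prod_pi)

namespace Pool.Agent.F1

theorem st_Upper (hPtw : St_Ptw) (hOneInt : St_OneInt) (hGen : St_Gen) (hUGrow : St_UGrow) :
    St_Upper := by
  obtain ⟨C, hC⟩ := hPtw
  set g : E3 → ℝ := fun x => exp (-2 * Phi x) * (ww x) ^ (-(1 / 6) : ℝ) with hg
  have hgm : Measurable g := by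
    have h1 : Measurable Phi := by
      unfold Phi
      exact ((hUGrow.1.add (by fun_prop)).sub measurable_const)
    have h2 := measurable_ww
    exact ((h1.const_mul (-2)).exp).mul (h2.pow_const _)
  have hg0 : ∀ x, 0 ≤ g x := fun x => mul_nonneg (exp_pos _).le (rpow_nonneg (ww_nonneg x) _)
  set J : ℝ := (∫⁻ x, ENNReal.ofReal (g x)).toReal with hJ
  have hJe : ∫⁻ x, ENNReal.ofReal (g x) = ENNReal.ofReal J :=
    (ENNReal.ofReal_toReal hOneInt.ne).symm
  have hJ0 : 0 ≤ J := ENNReal.toReal_nonneg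
  refine ⟨C + J, ?_⟩
  intro n hn
  have hn0 : (0 : ℝ) < n := by exact_mod_cast hn
  unfold Zn
  have h1 : ∫⁻ y : Fin n → E3, ENNReal.ofReal (exp (-HH n y)) ≤
      ∫⁻ y : Fin n → E3, ENNReal.ofReal (exp (-((n : ℝ) ^ 2 * (kap + 1 / 4)))) *
        ∏ i, (ENNReal.ofReal (exp C * (n : ℝ) ^ ((1 : ℝ) / 3)) * ENNReal.ofReal (g (y i))) := by
    refine lintegral_mono_ae ?_
    filter_upwards [hGen n] with y hy
    refine (ENNReal.ofReal_le_ofReal (hC n y hn hy.1 hy.2)).trans (le_of_eq ?_)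
    rw [ENNReal.ofReal_mul (exp_pos _).le, ENNReal.ofReal_prod_of_nonneg]
    · congr 1
      refine Finset.prod_congr rfl fun i _ => ?_
      rw [ENNReal.ofReal_mul (by positivity)]
    · intro i _
      exact mul_nonneg (by positivity) (hg0 _)
  have hm : Measurable fun x : E3 => ENNReal.ofReal (exp C * (n : ℝ) ^ ((1 : ℝ) / 3)) *
      ENNReal.ofReal (g x) := hgm.ennreal_ofReal.const_mul _
  have h2 : ∫⁻ y : Fin n → E3, ENNReal.ofReal (exp (-((n : ℝ) ^ 2 * (kap + 1 / 4)))) *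
        ∏ i, (ENNReal.ofReal (exp C * (n : ℝ) ^ ((1 : ℝ) / 3)) * ENNReal.ofReal (g (y i))) =
      ENNReal.ofReal (exp (-((n : ℝ) ^ 2 * (kap + 1 / 4)))) *
        (ENNReal.ofReal (exp C * (n : ℝ) ^ ((1 : ℝ) / 3)) * ENNReal.ofReal J) ^ n := by
    have hm' : Measurable fun y : Fin n → E3 => ∏ i,
        (ENNReal.ofReal (exp C * (n : ℝ) ^ ((1 : ℝ) / 3)) * ENNReal.ofReal (g (y i))) :=
      Finset.measurable_fun_prod _ fun i _ => hm.comp (measurable_pi_apply i)
    rw [lintegral_const_mul _ hm']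
    congr 1
    have h3 := lintegral_prod_pi (fun _ : Fin n => (volume : Measure E3)) (f := fun _ x =>
      ENNReal.ofReal (exp C * (n : ℝ) ^ ((1 : ℝ) / 3)) * ENNReal.ofReal (g x)) fun _ => hm
    rw [← volume_pi] at h3
    rw [h3, Finset.prod_const, Finset.card_univ, Fintype.card_fin]
    rw [lintegral_const_mul _ hgm.ennreal_ofReal, hJe]
  rw [h2] at h1
  refine h1.trans ?_
  rw [← ENNReal.ofReal_mul (by positivity), ← ENNReal.ofReal_pow (by positivity),
    ← ENNReal.ofReal_mul (exp_pos _).le]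
  refine ENNReal.ofReal_le_ofReal ?_
  have h4 : exp C * (n : ℝ) ^ ((1 : ℝ) / 3) * J ≤ exp (C + J + log n / 3) := by
    have h5 : J ≤ exp J := by
      have := add_one_le_exp J
      linarith
    rw [rpow_def_of_pos hn0]
    calc exp C * exp (log n * (1 / 3)) * J ≤ exp C * exp (log n * (1 / 3)) * exp J := by
          gcongr
      _ = exp (C + J + log n / 3) := by
          rw [← exp_add, ← exp_add]
          congr 1
          ring
  calc exp (-((n : ℝ) ^ 2 * (kap + 1 / 4))) * (exp C * (n : ℝ) ^ ((1 : ℝ) / 3) * J) ^ n ≤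
        exp (-((n : ℝ) ^ 2 * (kap + 1 / 4))) * exp (C + J + log n / 3) ^ n := by
        gcongr
    _ = exp (-((n : ℝ) ^ 2 * (kap + 1 / 4)) + n * log n / 3 + (C + J) * n) := by
        rw [← exp_nat_mul, ← exp_add]
        congr 1
        ring

end Pool.Agent.F1
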