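import Pool.Agent.F1.Map
import Pool.Agent.F1.Rot
import Pool.Agent.F1.Marg
import Pool.Agent.F1.PW
import Pool.Agent.F1.Sig2
import Pool.Agent.F1.Pot
import Pool.Agent.F1.Sq
import Pool.Agent.F1.LogInt
import Pool.Agent.F1.UGrow
import Pool.Agent.F1.Frull
import Pool.Agent.F1.Cut
import Pool.Agent.F1.MsBasic
import Pool.Agent.F1.Pos
import Pool.Agent.F1.M1
import Pool.Agent.F1.M2
import Pool.Agent.F1.M3
import Pool.Agent.F1.Tail
import Pool.Agent.F1.Umix
import Pool.Agent.F1.Imix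
import Pool.Agent.F1.Low
import Pool.Agent.F1.Ptw
import Pool.Agent.F1.OneInt
import Pool.Agent.F1.Gen
import Pool.Agent.F1.Upper
import Pool.Agent.F1.Scale
import Pool.Agent.F1.Main

/-!
# F1: the upper bound, assembled
-/

set_option autoImplicit false

namespace Pool.Agent.F1

theorem st_Pot' : St_Pot := st_Pot (st_Marg st_Map st_Rot) st_PW st_Sig2

theorem st_MsBasic' : St_MsBasic := st_MsBasic st_Map

theorem st_LogInt' : St_LogInt := st_LogInt st_Map st_Pot' (st_Sq st_Map)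

theorem st_UGrow' : St_UGrow := st_UGrow st_Map st_Pot'

theorem st_M1' : St_M1 := st_M1 st_Map st_Rot st_MsBasic'

theorem st_Tail' : St_Tail :=
  st_Tail st_Map st_MsBasic' st_M1' (st_M2 st_Map st_MsBasic' st_M1') (st_M3 st_Map)

theorem st_Low' : St_Low :=
  st_Low st_MsBasic' (st_Pos st_Map st_MsBasic') st_Tail' st_Cut st_Frull
    (st_Umix st_Map st_MsBasic' st_Frull st_Pot')
    (st_Imix st_Map st_MsBasic' st_Frull st_LogInt')

theorem st_Upper' : St_Upper :=
  st_Upper (st_Ptw st_Low' st_Tail' st_Pot') (st_OneInt st_Map st_Pot' st_UGrow') st_Gen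
    st_UGrow'

/-- the theorem, from the lower bound -/
theorem full_of_lower (h : St_Lower) :
    ∃ C : ℝ, ∀ n : ℕ, 1 ≤ n → 0 < Fone n ∧
      |Real.log (Fone n) - ((n : ℝ) ^ 2 * Real.log n / 2 - (Real.log 6 / 2 - 1 / 4) * n ^ 2 +
        4 / 3 * n * Real.log n)| ≤ C * n :=
  main_full st_Upper' h st_Scale

end Pool.Agent.F1
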