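import Pool.Agent.F1.Umix
import Pool.Agent.F1.Basic

/-!
# F1 / Imix: the energy as a mixture of Gaussians
-/

set_option autoImplicit false

open MeasureTheory Set Real
open scoped ENNReal InnerProductSpace
open Pool.Agent.Helper44.Ball3 (E3 sig)

namespace Pool.Agent.F1

theorem imix_ne (hMap : St_Map) : ∀ᵐ q ∂(mu.prod mu), q.1 ≠ q.2 := by
  have := isProb hMap
  have hm : MeasurableSet {q : E3 × E3 | ¬ (q.1 ≠ q.2)} := by
    simp only [not_not]
    exact measurableSet_eq_fun measurable_fst measurable_snd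
  rw [ae_iff, Measure.measure_prod_null hm]
  refine Filter.Eventually.of_forall fun x => ?_
  have h1 : Prod.mk x ⁻¹' {q : E3 × E3 | ¬ (q.1 ≠ q.2)} = {x} := by
    ext y
    simp [eq_comm]
  simp only [h1]
  exact measure_singleton x

theorem st_Imix (hMap : St_Map) (_hMsBasic : St_MsBasic) (hFrull : St_Frull)
    (hLogInt : St_LogInt) : St_Imix := by
  have := isProb hMap
  have hpos : ∀ᵐ q ∂(mu.prod mu), 0 < ‖q.1 - q.2‖ ^ 2 := by
    filter_upwards [imix_ne hMap] with q hq
    have h1 : 0 < ‖q.1 - q.2‖ := norm_pos_iff.2 (sub_ne_zero.2 hq)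
    positivity
  have hl : ∀ q : E3 × E3, log (‖q.1 - q.2‖ ^ 2) = 2 * log ‖q.1 - q.2‖ := by
    intro q
    rw [log_pow]
    norm_num
  have hlog : Integrable (fun q : E3 × E3 => log (‖q.1 - q.2‖ ^ 2)) (mu.prod mu) := by
    simp only [hl]
    exact hLogInt.1.const_mul 2
  have h := umix_gen (mu.prod mu) hFrull (fun q : E3 × E3 => ‖q.1 - q.2‖ ^ 2) (by fun_prop)
    (fun q => by positivity) hpos hlog
  have hs : ∀ s ∈ Ioi (0 : ℝ), ((∫ q : E3 × E3, exp (-(s * ‖q.1 - q.2‖ ^ 2)) ∂(mu.prod mu)) -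
      exp (-s)) / s = ((∫ x, ms s x ∂mu) - exp (-s)) / s := by
    intro s hs
    have hs0 : (0 : ℝ) < s := hs
    have hi : Integrable (fun q : E3 × E3 => exp (-(s * ‖q.1 - q.2‖ ^ 2))) (mu.prod mu) := by
      refine Integrable.of_bound (C := 1) (by fun_prop) (Filter.Eventually.of_forall fun q => ?_)
      rw [Real.norm_eq_abs, abs_of_pos (exp_pos _)]
      exact exp_le_one_iff.2 (by have : 0 ≤ s * ‖q.1 - q.2‖ ^ 2 := by positivity
                                 linarith)
    rw [integral_prod _ hi]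
    rfl
  refine ⟨?_, ?_⟩
  · exact (integrableOn_congr_fun hs measurableSet_Ioi).1 h.1
  · rw [← setIntegral_congr_fun measurableSet_Ioi hs, h.2]
    simp only [hl]
    rw [integral_const_mul, hLogInt.2]
    ring

end Pool.Agent.F1
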