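import Pool.Agent.F1.Stmts

/-!
# Lower bound for the Gaussian integral: definitions and statements of the block L
-/

set_option autoImplicit false

open MeasureTheory Set Real
open scoped ENNReal
open Pool.Agent.Helper44.Ball3 (E3 sig)

namespace Pool.Agent.F1

/-- The reciprocal of the equilibrium density, in the parameters (on the unit cube). -/
noncomputable def jac (p : C3) : ℝ := 2 * π ^ 2 / 3 * (RR * √(1 - p.1) * sin (π * p.2.2))

/-- The cell number `i` of the `k × k × k` grid of the unit cube. -/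
noncomputable def cell (k i : ℕ) : Set C3 :=
  Ioo (((i % k : ℕ) : ℝ) / k) (((i % k : ℕ) : ℝ) / k + 1 / k) ×ˢ
    Ioo (((i / k % k : ℕ) : ℝ) / k) (((i / k % k : ℕ) : ℝ) / k + 1 / k) ×ˢ
      Ioo (((i / k / k : ℕ) : ℝ) / k) (((i / k / k : ℕ) : ℝ) / k + 1 / k)

/-- The trial densities: the uniform densities of the `k ^ 3` cells, and `n - k ^ 3` times the
uniform density of the cube. -/
noncomputable def dens (k i : ℕ) : C3 → ℝ≥0∞ :=
  if i < k ^ 3 then (cell k i).indicator fun _ => (k : ℝ≥0∞) ^ 3 else fun _ => 1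

/-- The trial measures. -/
noncomputable def nuu (k i : ℕ) : Measure C3 := lam.withDensity (dens k i)

/-- The logarithmic self energy (with the sign of `log`). -/
noncomputable def selfE (nu : Measure C3) : ℝ :=
  ∫ q : C3 × C3, log ‖TT q.1 - TT q.2‖ ∂(nu.prod nu)

/-- The exponent of the trial integral. -/
noncomputable def GG (n : ℕ) (p : Fin n → C3) : ℝ :=
  -HH n (fun i => TT (p i)) + ∑ i, log (jac (p i))

/-- elementary facts on the parametrisation -/
def St_LJac : Prop := ∀ p : C3, p ∈ Ioo (0 : ℝ) 1 ×ˢ Ioo (0 : ℝ) 1 ×ˢ Ioo (0 : ℝ) 1 →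
  0 < jac p ∧ rho (TT p) = 1 / jac p ∧
    ‖TT p‖ ^ 2 = 2 / 3 * (1 - (1 - p.1) * sin (π * p.2.2) ^ 2)

/-- change of variables, `n` variables -/
def St_LCV : Prop := ∀ (n : ℕ) (F : (Fin n → E3) → ℝ≥0∞), Measurable F →
  ∫⁻ p, F (fun i => TT (p i)) * ∏ i, ENNReal.ofReal (jac (p i)) ∂(Measure.pi fun _ : Fin n => lam)
    ≤ ∫⁻ y, F y

/-- the trial measures are probability measures with sum `n • lam` -/
def St_LSum : Prop := ∀ n k : ℕ, 0 < k → k ^ 3 ≤ n →
  (∀ i, IsProbabilityMeasure (nuu k i)) ∧ (∀ i, Measurable (dens k i)) ∧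
    (∀ x, ∑ i : Fin n, dens k i x ≤ n) ∧ ∑ i : Fin n, nuu k i = (n : ℝ≥0∞) • lam

/-- the self energies of the cells -/
def St_LCell : Prop := ∃ C : ℝ, ∀ k : ℕ, 0 < k →
  ∑ i ∈ Finset.range (k ^ 3), selfE (nuu k i) ≤ (k : ℝ) ^ 3 * (C - log k)

/-- the mean of the exponent -/
def St_LEn : Prop := ∀ n k : ℕ, 0 < k → k ^ 3 ≤ n →
  Integrable (GG n) (Measure.pi fun i : Fin n => nuu k i) ∧
    ∫ p, GG n p ∂(Measure.pi fun i : Fin n => nuu k i) =
      -(n : ℝ) ^ 2 * (kap + 1 / 4) - ∑ i : Fin n, selfE (nuu k i) +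
        n * ∫ x, log (jac x) ∂lam

end Pool.Agent.F1
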