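import Pool.Agent.F1.Basic

/-!
# F1: module Map
-/

set_option autoImplicit false

open MeasureTheory Set Real
open scoped ENNReal InnerProductSpace
open Pool.Agent.Helper44.Ball3 (E3 sig)

namespace Pool.Agent.F1

open Pool.Agent.Helper44.Ball3 in
theorem map_measurable_TT : Measurable TT := by
  unfold TT
  exact measurable_vec (by fun_prop) (by fun_prop) (by fun_prop)

/-- the substitution `z = q cos (π o)` -/
theorem map_cos {q : ℝ} (hq : 0 < q) (c : ℝ) (hc : 0 ≤ c) (h : ℝ → ℝ≥0∞) :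
    ∫⁻ z : ℝ, ENNReal.ofReal (c / √(q ^ 2 - z ^ 2)) * h z =
      ∫⁻ o in Ioo (0 : ℝ) 1, ENNReal.ofReal (c * π) * h (q * cos (π * o)) := by
  have h1 : ∫⁻ z : ℝ, ENNReal.ofReal (c / √(q ^ 2 - z ^ 2)) * h z =
      ∫⁻ z in Ioo (-q) q, ENNReal.ofReal (c / √(q ^ 2 - z ^ 2)) * h z := by
    rw [← lintegral_indicator measurableSet_Ioo]
    refine lintegral_congr fun z => ?_
    by_cases hz : z ∈ Ioo (-q) q
    · rw [indicator_of_mem hz]
    · rw [indicator_of_notMem hz]
      have h2 : q ^ 2 - z ^ 2 ≤ 0 := by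
        by_contra h3
        apply hz
        have h4 : |z| < q := by
          apply abs_lt_of_sq_lt_sq (by linarith) hq.le
        exact ⟨(abs_lt.1 h4).1, (abs_lt.1 h4).2⟩
      rw [Real.sqrt_eq_zero_of_nonpos h2, div_zero, ENNReal.ofReal_zero, zero_mul]
  have him : (fun o : ℝ => q * cos (π * o)) '' (Ioo 0 1) = Ioo (-q) q := by
    ext u
    constructor
    · rintro ⟨t, ht, rfl⟩
      have h0 : 0 < π * t := mul_pos pi_pos ht.1
      have h1 : π * t < π := by nlinarith [pi_pos, ht.2]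
      have h2 := Real.cos_lt_cos_of_nonneg_of_le_pi h0.le le_rfl h1
      have h3 := Real.cos_lt_cos_of_nonneg_of_le_pi le_rfl h1.le h0
      rw [cos_pi] at h2
      rw [cos_zero] at h3
      constructor
      · show -q < q * cos (π * t)
        nlinarith
      · show q * cos (π * t) < q
        nlinarith
    · intro hu
      have h2 : -1 < u / q := by rw [lt_div_iff₀ hq]; linarith [hu.1]
      have h3 : u / q < 1 := by rw [div_lt_iff₀ hq]; linarith [hu.2]
      refine ⟨arccos (u / q) / π, ⟨div_pos (arccos_pos.mpr h3) pi_pos, ?_⟩, ?_⟩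
      · rw [div_lt_one pi_pos]
        rcases (arccos_le_pi (u / q)).lt_or_eq with h | h
        · exact h
        · exfalso
          have := arccos_eq_pi.mp h
          linarith
      · show q * cos (π * (arccos (u / q) / π)) = u
        rw [mul_div_cancel₀ _ pi_ne_zero, cos_arccos h2.le h3.le]
        field_simp
  have hinj : InjOn (fun o : ℝ => q * cos (π * o)) (Ioo 0 1) := by
    intro s hs t ht hst
    have h2 : cos (π * s) = cos (π * t) := mul_left_cancel₀ hq.ne' hst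
    have h3 := injOn_cos ⟨(mul_pos pi_pos hs.1).le, by nlinarith [pi_pos, hs.2]⟩
      ⟨(mul_pos pi_pos ht.1).le, by nlinarith [pi_pos, ht.2]⟩ h2
    exact mul_left_cancel₀ pi_ne_zero h3
  have h := lintegral_image_eq_lintegral_abs_deriv_mul (s := Ioo (0 : ℝ) 1)
    (f := fun o : ℝ => q * cos (π * o)) (f' := fun o => q * (-sin (π * o) * π))
    measurableSet_Ioo (fun x _ => by
      have h2 : HasDerivAt (fun o : ℝ => π * o) π x := by
        simpa using (hasDerivAt_id x).const_mul π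
      exact ((h2.cos).const_mul q).hasDerivWithinAt) hinj
    (fun z => ENNReal.ofReal (c / √(q ^ 2 - z ^ 2)) * h z)
  rw [h1, ← him, h]
  refine setLIntegral_congr_fun measurableSet_Ioo fun t ht => ?_
  have h0 : 0 < π * t := mul_pos pi_pos ht.1
  have h1' : π * t < π := by nlinarith [pi_pos, ht.2]
  have hs : 0 < sin (π * t) := sin_pos_of_pos_of_lt_pi h0 h1'
  have h5 : √(q ^ 2 - (q * cos (π * t)) ^ 2) = q * sin (π * t) := by
    have h6 : q ^ 2 - (q * cos (π * t)) ^ 2 = (q * sin (π * t)) ^ 2 := by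
      have := sin_sq_add_cos_sq (π * t)
      linear_combination (-(q ^ 2)) * this
    rw [h6, Real.sqrt_sq (by positivity)]
  have h7 : |q * (-sin (π * t) * π)| = q * sin (π * t) * π := by
    have h8 : q * (-sin (π * t) * π) = -(q * sin (π * t) * π) := by ring
    rw [h8, abs_neg, abs_of_pos (by positivity)]
  rw [h5, h7, ← mul_assoc, ← ENNReal.ofReal_mul (by positivity)]
  congr 2
  field_simp

/-- the substitution `r = RR sqrt u` -/
theorem map_rad (H : ℝ → ℝ≥0∞) (hH : ∀ r, RR ≤ r → H r = 0) :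
    ∫⁻ r in Ioi (0 : ℝ), ENNReal.ofReal r * H r =
      ∫⁻ u in Ioo (0 : ℝ) 1, ENNReal.ofReal (1 / 3) * H (RR * √u) := by
  have hR := RR_pos
  have h1 : ∫⁻ r in Ioi (0 : ℝ), ENNReal.ofReal r * H r =
      ∫⁻ r in Ioo 0 RR, ENNReal.ofReal r * H r := by
    rw [← lintegral_indicator measurableSet_Ioo, ← lintegral_indicator measurableSet_Ioi]
    refine lintegral_congr fun r => ?_
    by_cases hr : r ∈ Ioo 0 RR
    · rw [indicator_of_mem hr, indicator_of_mem (show r ∈ Ioi (0 : ℝ) from hr.1)]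
    · rw [indicator_of_notMem hr]
      by_cases h0 : r ∈ Ioi (0 : ℝ)
      · rw [indicator_of_mem h0, hH r, mul_zero]
        by_contra h2
        exact hr ⟨h0, not_le.1 h2⟩
      · rw [indicator_of_notMem h0]
  have him : (fun u : ℝ => RR * √u) '' (Ioo 0 1) = Ioo 0 RR := by
    ext r
    constructor
    · rintro ⟨u, hu, rfl⟩
      have h2 : 0 < √u := Real.sqrt_pos.2 hu.1
      have h3 : √u < 1 := by
        rw [Real.sqrt_lt' one_pos]
        simpa using hu.2
      constructor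
      · show 0 < RR * √u
        positivity
      · show RR * √u < RR
        nlinarith
    · intro hr
      have h2 : 0 < r / RR := div_pos hr.1 hR
      have h3 : r / RR < 1 := by rw [div_lt_one hR]; exact hr.2
      refine ⟨(r / RR) ^ 2, ⟨by positivity, by nlinarith⟩, ?_⟩
      show RR * √((r / RR) ^ 2) = r
      rw [Real.sqrt_sq h2.le]
      field_simp
  have hinj : InjOn (fun u : ℝ => RR * √u) (Ioo 0 1) := by
    intro s hs t ht hst
    have h2 : √s = √t := mul_left_cancel₀ hR.ne' hst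
    exact (Real.sqrt_inj hs.1.le ht.1.le).1 h2
  have h := lintegral_image_eq_lintegral_abs_deriv_mul (s := Ioo (0 : ℝ) 1)
    (f := fun u : ℝ => RR * √u) (f' := fun u => RR * (1 / (2 * √u)))
    measurableSet_Ioo (fun x hx => ((Real.hasDerivAt_sqrt hx.1.ne').const_mul RR).hasDerivWithinAt)
    hinj (fun r => ENNReal.ofReal r * H r)
  rw [h1, ← him, h]
  refine setLIntegral_congr_fun measurableSet_Ioo fun u hu => ?_
  have h2 : 0 < √u := Real.sqrt_pos.2 hu.1
  rw [abs_of_pos (by positivity), ← mul_assoc, ← ENNReal.ofReal_mul (by positivity)]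
  congr 2
  have h3 := RR_sq
  field_simp
  linarith

/-- the angle -/
theorem map_phi (g : ℝ → ℝ≥0∞) (hg : ∀ x, g (x + 2 * π) = g x) :
    ∫⁻ φ in Ioo (-π) π, g φ = ∫⁻ v in Ioo (0 : ℝ) 1, ENNReal.ofReal (2 * π) * g (2 * π * v) := by
  have h2π : (0 : ℝ) < 2 * π := by positivity
  have hper : Function.Periodic g (2 * π) := hg
  have h1 : ∫⁻ φ in Ioc (-π) (-π + 2 * π), g φ = ∫⁻ φ in Ioc (0 : ℝ) (0 + 2 * π), g φ := by
    refine (isAddFundamentalDomain_Ioc h2π (-π)).setLIntegral_eq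
      (isAddFundamentalDomain_Ioc h2π 0) g ?_
    rintro ⟨n, hn⟩ x
    obtain ⟨k, rfl⟩ := AddSubgroup.mem_zmultiples_iff.1 hn
    show g (k • (2 * π) + x) = g x
    rw [add_comm]
    exact hper.zsmul k x
  have h2 : ∫⁻ φ in Ioo (-π) π, g φ = ∫⁻ φ in Ioc (-π) (-π + 2 * π), g φ := by
    have h3 : -π + 2 * π = π := by ring
    rw [h3]
    exact setLIntegral_congr Ioo_ae_eq_Ioc
  have h3 : ∫⁻ φ in Ioc (0 : ℝ) (0 + 2 * π), g φ = ∫⁻ φ in Ioo (0 : ℝ) (2 * π), g φ := by
    rw [zero_add]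
    exact (setLIntegral_congr Ioo_ae_eq_Ioc).symm
  have him : (fun v : ℝ => 2 * π * v) '' (Ioo 0 1) = Ioo 0 (2 * π) := by
    ext r
    constructor
    · rintro ⟨u, hu, rfl⟩
      refine ⟨mul_pos h2π hu.1, ?_⟩
      show 2 * π * u < 2 * π
      nlinarith [hu.2]
    · intro hr
      refine ⟨r / (2 * π), ⟨div_pos hr.1 h2π, by rw [div_lt_one h2π]; exact hr.2⟩, ?_⟩
      show 2 * π * (r / (2 * π)) = r
      field_simp
  have hinj : InjOn (fun v : ℝ => 2 * π * v) (Ioo 0 1) := by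
    intro s _ t _ hst
    exact mul_left_cancel₀ h2π.ne' hst
  have h := lintegral_image_eq_lintegral_abs_deriv_mul (s := Ioo (0 : ℝ) 1)
    (f := fun v : ℝ => 2 * π * v) (f' := fun _ => 2 * π)
    measurableSet_Ioo (fun x _ => by
      have h4 : HasDerivAt (fun v : ℝ => 2 * π * v) (2 * π) x := by
        simpa using (hasDerivAt_id x).const_mul (2 * π)
      exact h4.hasDerivWithinAt) hinj g
  rw [h2, h1, h3, ← him, h]
  refine setLIntegral_congr_fun measurableSet_Ioo fun v _ => ?_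
  rw [abs_of_pos h2π]

theorem map_norm_sq (a b z : ℝ) : ‖(!₂[a, b, z] : E3)‖ ^ 2 = a ^ 2 + b ^ 2 + z ^ 2 := by
  rw [EuclideanSpace.norm_sq_eq]
  simp [Fin.sum_univ_three]

open Pool.Agent.Helper44.Ball3 in
theorem map_polar2 {K : ℝ × ℝ → ℝ≥0∞} (hK : Measurable K) :
    ∫⁻ p, K p = ∫⁻ r in Ioi (0 : ℝ), ENNReal.ofReal r *
      ∫⁻ φ in Ioo (-π) π, K (r * cos φ, r * sin φ) := by
  have hm : Measurable fun q : ℝ × ℝ => ENNReal.ofReal q.1 * K (q.1 * cos q.2, q.1 * sin q.2) :=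
    (by fun_prop : Measurable fun q : ℝ × ℝ => ENNReal.ofReal q.1).mul
      (hK.comp (by fun_prop : Measurable fun q : ℝ × ℝ => (q.1 * cos q.2, q.1 * sin q.2)))
  rw [← lintegral_comp_polarCoord_symm, polarCoord_target]
  have h1 : ∀ q : ℝ × ℝ, ENNReal.ofReal q.1 • K (polarCoord.symm q) =
      ENNReal.ofReal q.1 * K (q.1 * cos q.2, q.1 * sin q.2) := fun q => rfl
  simp only [h1]
  rw [setLIntegral_prod_Ioo hm]
  refine lintegral_congr fun r => ?_
  exact lintegral_const_mul' _ _ ENNReal.ofReal_ne_top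

open Pool.Agent.Helper44.Ball3 in
theorem map_meas_vec {α : Type} [MeasurableSpace α] {f g h : α → ℝ} {G : E3 → ℝ≥0∞}
    (hG : Measurable G) (hf : Measurable f) (hg : Measurable g) (hh : Measurable h) :
    Measurable fun a => G !₂[f a, g a, h a] := hG.comp (measurable_vec hf hg hh)

open Pool.Agent.Helper44.Ball3 in
theorem map_cyl {G : E3 → ℝ≥0∞} (hG : Measurable G) :
    ∫⁻ y, G y = ∫⁻ r in Ioi (0 : ℝ), ENNReal.ofReal r *
      ∫⁻ φ in Ioo (-π) π, ∫⁻ z : ℝ, G !₂[r * cos φ, r * sin φ, z] := by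
  rw [lintegral_E3 hG]
  have hm1 : Measurable fun x : ℝ × (ℝ × ℝ) => G !₂[x.2.1, x.2.2, x.1] :=
    map_meas_vec hG (by fun_prop) (by fun_prop) (by fun_prop)
  rw [lintegral_lintegral_swap hm1.aemeasurable]
  have hm2 : Measurable fun x : (ℝ × ℝ) × ℝ => G !₂[x.1.1, x.1.2, x.2] :=
    map_meas_vec hG (by fun_prop) (by fun_prop) (by fun_prop)
  exact map_polar2 (K := fun p : ℝ × ℝ => ∫⁻ z : ℝ, G !₂[p.1, p.2, z])
    hm2.lintegral_prod_right'

theorem map_in {F : E3 → ℝ≥0∞} {c : ℝ} (hc : c = 3 / (2 * π ^ 2)) {r : ℝ} (hr : 0 < r)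
    (hr1 : r < RR) (φ : ℝ) :
    ∫⁻ z : ℝ, ENNReal.ofReal (rho !₂[r * cos φ, r * sin φ, z]) *
        F !₂[r * cos φ, r * sin φ, z] =
      ∫⁻ o in Ioo (0 : ℝ) 1, ENNReal.ofReal (c * π) *
        F !₂[r * cos φ, r * sin φ, √(2 / 3 - r ^ 2) * cos (π * o)] := by
  have hc0 : 0 ≤ c := by rw [hc]; positivity
  have h1 : 0 < 2 / 3 - r ^ 2 := by
    have := RR_sq
    nlinarith
  rw [← map_cos (Real.sqrt_pos.2 h1) c hc0 (fun z => F !₂[r * cos φ, r * sin φ, z])]
  refine lintegral_congr fun z => ?_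
  have h2 : 2 / 3 - ((r * cos φ) ^ 2 + (r * sin φ) ^ 2 + z ^ 2) = 2 / 3 - r ^ 2 - z ^ 2 := by
    have := sin_sq_add_cos_sq φ
    linear_combination (-(r ^ 2)) * this
  have h3 : rho !₂[r * cos φ, r * sin φ, z] = c / √(√(2 / 3 - r ^ 2) ^ 2 - z ^ 2) := by
    unfold rho
    rw [map_norm_sq, Real.sq_sqrt h1.le, h2, hc]
  rw [h3]

theorem map_out {F : E3 → ℝ≥0∞} {r : ℝ} (hr : RR ≤ r) (φ : ℝ) :
    ∫⁻ z : ℝ, ENNReal.ofReal (rho !₂[r * cos φ, r * sin φ, z]) *
        F !₂[r * cos φ, r * sin φ, z] = 0 := by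
  have h1 : ∀ z : ℝ, rho !₂[r * cos φ, r * sin φ, z] = 0 := by
    intro z
    apply rho_eq_zero
    rw [map_norm_sq]
    have h3 := sin_sq_add_cos_sq φ
    have h4 := RR_sq
    have h5 := RR_pos
    have h6 : (r * cos φ) ^ 2 + (r * sin φ) ^ 2 = r ^ 2 := by
      linear_combination (r ^ 2) * h3
    nlinarith [sq_nonneg z]
  simp [h1]

theorem map_lam {F : E3 → ℝ≥0∞} (hF : Measurable F) :
    ∫⁻ p, F (TT p) ∂lam = ∫⁻ u in Ioo (0 : ℝ) 1, ∫⁻ v in Ioo (0 : ℝ) 1,
      ∫⁻ o in Ioo (0 : ℝ) 1, F (TT (u, v, o)) := by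
  have hFT : Measurable fun p : C3 => F (TT p) := hF.comp map_measurable_TT
  unfold lam
  rw [Measure.volume_eq_prod, ← Measure.prod_restrict, lintegral_prod _ hFT.aemeasurable]
  refine lintegral_congr fun u => ?_
  have h1 : Measurable fun p : ℝ × ℝ => F (TT (u, p)) :=
    hFT.comp (by fun_prop : Measurable fun p : ℝ × ℝ => ((u, p) : C3))
  rw [Measure.volume_eq_prod, ← Measure.prod_restrict, lintegral_prod _ h1.aemeasurable]

theorem map_lint {F : E3 → ℝ≥0∞} (hF : Measurable F) :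
    ∫⁻ y, F y ∂mu = ∫⁻ p, F (TT p) ∂lam := by
  have hG : Measurable fun y : E3 => ENNReal.ofReal (rho y) * F y :=
    measurable_rho.ennreal_ofReal.mul hF
  rw [lintegral_mu hF, map_cyl hG]
  obtain ⟨c, hc⟩ : ∃ c : ℝ, c = 3 / (2 * π ^ 2) := ⟨_, rfl⟩
  have hc0 : 0 ≤ c := by rw [hc]; positivity
  rw [map_rad (fun r => ∫⁻ φ in Ioo (-π) π, ∫⁻ z : ℝ,
    ENNReal.ofReal (rho !₂[r * cos φ, r * sin φ, z]) * F !₂[r * cos φ, r * sin φ, z]) (by
      intro r hr
      simp only [map_out hr]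
      simp)]
  rw [map_lam hF]
  refine setLIntegral_congr_fun measurableSet_Ioo fun u hu => ?_
  have hR := RR_pos
  have hsu : 0 < √u := Real.sqrt_pos.2 hu.1
  have hsu1 : √u < 1 := by
    rw [Real.sqrt_lt' one_pos]
    simpa using hu.2
  have hr0 : 0 < RR * √u := by positivity
  have hr1 : RR * √u < RR := by nlinarith
  have hq : √(2 / 3 - (RR * √u) ^ 2) = RR * √(1 - u) := by
    have h1 : 2 / 3 - (RR * √u) ^ 2 = RR ^ 2 * (1 - u) := by
      rw [mul_pow, Real.sq_sqrt hu.1.le, RR_sq]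
      ring
    rw [h1, Real.sqrt_mul (sq_nonneg _), Real.sqrt_sq hR.le]
  have h1 : ∫⁻ φ in Ioo (-π) π, ∫⁻ z : ℝ,
      ENNReal.ofReal (rho !₂[RR * √u * cos φ, RR * √u * sin φ, z]) *
        F !₂[RR * √u * cos φ, RR * √u * sin φ, z] =
      ∫⁻ φ in Ioo (-π) π, ∫⁻ o in Ioo (0 : ℝ) 1, ENNReal.ofReal (c * π) *
        F !₂[RR * √u * cos φ, RR * √u * sin φ, RR * √(1 - u) * cos (π * o)] := by
    refine lintegral_congr fun φ => ?_
    rw [map_in hc hr0 hr1 φ, hq]
  rw [h1, map_phi (fun φ => ∫⁻ o in Ioo (0 : ℝ) 1, ENNReal.ofReal (c * π) *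
    F !₂[RR * √u * cos φ, RR * √u * sin φ, RR * √(1 - u) * cos (π * o)]) (by
      intro x
      simp only [cos_add_two_pi, sin_add_two_pi])]
  rw [← lintegral_const_mul' _ _ ENNReal.ofReal_ne_top]
  refine lintegral_congr fun v => ?_
  rw [lintegral_const_mul' _ _ ENNReal.ofReal_ne_top, ← mul_assoc, ← mul_assoc,
    ← ENNReal.ofReal_mul (by norm_num), ← ENNReal.ofReal_mul (by positivity)]
  have h2 : 1 / 3 * (2 * π) * (c * π) = 1 := by
    rw [hc]
    field_simp
  rw [h2, ENNReal.ofReal_one, one_mul]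
  rfl

theorem st_Map : St_Map := by
  refine ⟨map_measurable_TT, ?_⟩
  refine Measure.ext fun s hs => ?_
  have h1 := map_lint (F := s.indicator fun _ => 1) (measurable_const.indicator hs)
  rw [lintegral_indicator hs, setLIntegral_const, one_mul] at h1
  rw [h1, Measure.map_apply map_measurable_TT hs]
  have h2 : ∀ p, s.indicator (fun _ => (1 : ℝ≥0∞)) (TT p) =
      (TT ⁻¹' s).indicator (fun _ => 1) p := fun p => rfl
  simp only [h2]
  rw [lintegral_indicator (map_measurable_TT hs), setLIntegral_const, one_mul]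

end Pool.Agent.F1
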