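import Mathlib

set_option autoImplicit false

/-!
# F1 / P1: the logarithmic potential of the semicircle law

`∫_0^π log |t - cos φ| sin^2 φ dφ = (π/2) (t^2 - 1/2 - log 2)` for `|t| ≤ 1`, and `≤` for all `t`.
-/

namespace Pool.Agent.F1

open MeasureTheory Real Set intervalIntegral

lemma cont_sin_log_sin : Continuous fun x : ℝ => sin x * log (sin x) :=
  continuous_mul_log.comp continuous_sin

lemma int_cos2_log_sin : ∫ x in (0 : ℝ)..π, cos (2 * x) * log (sin x) = -(π / 2) := by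
  have hint : IntervalIntegrable (fun x : ℝ => cos (2 * x) * log (sin x)) volume 0 π :=
    intervalIntegrable_log_sin.continuousOn_mul (by fun_prop)
  have hint2 : IntervalIntegrable (fun x : ℝ => cos x ^ 2) volume 0 π :=
    Continuous.intervalIntegrable (by fun_prop) _ _
  have h1 : ∫ x in (0 : ℝ)..π, (cos (2 * x) * log (sin x) + cos x ^ 2) =
      cos π * (sin π * log (sin π)) - cos 0 * (sin 0 * log (sin 0)) := by
    refine integral_eq_sub_of_hasDerivAt_of_le pi_pos.le
      (f := fun x => cos x * (sin x * log (sin x))) ?_ ?_ (hint.add hint2)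
    · exact (continuous_cos.mul cont_sin_log_sin).continuousOn
    · intro x hx
      have hs : 0 < sin x := sin_pos_of_pos_of_lt_pi hx.1 hx.2
      have hd := (hasDerivAt_cos x).mul ((hasDerivAt_sin x).mul
        (((hasDerivAt_log hs.ne').comp x (hasDerivAt_sin x))))
      refine hd.congr_deriv ?_
      simp only [Function.comp, Pi.mul_apply]
      have h2 : cos (2 * x) = cos x ^ 2 - sin x ^ 2 := by
        rw [cos_two_mul]; nlinarith [sin_sq_add_cos_sq x]
      rw [h2]
      field_simp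
      ring
  rw [integral_add hint hint2, integral_cos_sq] at h1
  simp at h1
  linarith

lemma int_cos4_log_sin : ∫ x in (0 : ℝ)..π, cos (4 * x) * log (sin x) = -(π / 4) := by
  have hint : IntervalIntegrable (fun x : ℝ => cos (4 * x) * log (sin x)) volume 0 π :=
    intervalIntegrable_log_sin.continuousOn_mul (by fun_prop)
  have hint2 : IntervalIntegrable (fun x : ℝ => cos x ^ 2 * cos (2 * x)) volume 0 π :=
    Continuous.intervalIntegrable (by fun_prop) _ _
  have h1 : ∫ x in (0 : ℝ)..π, (cos (4 * x) * log (sin x) + cos x ^ 2 * cos (2 * x)) =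
      cos π * cos (2 * π) * (sin π * log (sin π)) - cos 0 * cos (2 * 0) * (sin 0 * log (sin 0)) := by
    refine integral_eq_sub_of_hasDerivAt_of_le pi_pos.le
      (f := fun x => cos x * cos (2 * x) * (sin x * log (sin x))) ?_ ?_ (hint.add hint2)
    · exact ((continuous_cos.mul (by fun_prop)).mul cont_sin_log_sin).continuousOn
    · intro x hx
      have hs : 0 < sin x := sin_pos_of_pos_of_lt_pi hx.1 hx.2
      have hd := ((hasDerivAt_cos x).mul ((hasDerivAt_cos (2 * x)).comp x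
        ((hasDerivAt_id x).const_mul 2))).mul ((hasDerivAt_sin x).mul
        (((hasDerivAt_log hs.ne').comp x (hasDerivAt_sin x))))
      refine hd.congr_deriv ?_
      simp only [Function.comp, Pi.mul_apply, id]
      have h2 : cos (2 * x) = cos x ^ 2 - sin x ^ 2 := by
        rw [cos_two_mul]; nlinarith [sin_sq_add_cos_sq x]
      have h3 : sin (2 * x) = 2 * sin x * cos x := sin_two_mul x
      have h4 : cos (4 * x) = (cos x ^ 2 - sin x ^ 2) ^ 2 - (2 * sin x * cos x) ^ 2 := by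
        rw [show 4 * x = 2 * (2 * x) by ring, cos_two_mul, h2]
        nlinarith [sin_sq_add_cos_sq (2 * x), sin_sq_add_cos_sq x, h2, h3]
      rw [h4, h3, h2]
      field_simp
      ring
  have h5 : ∫ x in (0 : ℝ)..π, cos x ^ 2 * cos (2 * x) = π / 4 := by
    have h6 : ∫ x in (0 : ℝ)..π, cos x ^ 2 * cos (2 * x) =
        (sin (2 * π) / 4 + π / 4 + sin (4 * π) / 16) - (sin (2 * 0) / 4 + 0 / 4 + sin (4 * 0) / 16) := by
      refine integral_eq_sub_of_hasDerivAt
        (f := fun x => sin (2 * x) / 4 + x / 4 + sin (4 * x) / 16) ?_ hint2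
      intro x _
      have hd := ((((hasDerivAt_sin (2 * x)).comp x ((hasDerivAt_id x).const_mul 2)).div_const 4).add
        ((hasDerivAt_id x).div_const 4)).add
        (((hasDerivAt_sin (4 * x)).comp x ((hasDerivAt_id x).const_mul 4)).div_const 16)
      refine hd.congr_deriv ?_
      have h2 : cos (2 * x) = 2 * cos x ^ 2 - 1 := cos_two_mul x
      have h4 : cos (4 * x) = 2 * (2 * cos x ^ 2 - 1) ^ 2 - 1 := by
        rw [show 4 * x = 2 * (2 * x) by ring, cos_two_mul, h2]
      rw [h4, h2]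
      ring
    rw [h6]
    have h7 : sin (4 * π) = 0 := by
      have := sin_nat_mul_pi 4
      exact_mod_cast this
    simp [h7]
  rw [integral_add hint hint2, h5] at h1
  simp at h1
  linarith

lemma int_sin4_log_sin : ∫ x in (0 : ℝ)..π, sin (4 * x) * log (sin x) = 0 := by
  have h1 : ∫ x in (0 : ℝ)..π, sin (4 * x) * log (sin x) =
      ∫ x in (0 : ℝ)..π, sin (4 * (π - x)) * log (sin (π - x)) := by
    rw [integral_comp_sub_left (fun x => sin (4 * x) * log (sin x)) π]
    simp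
  have h2 : ∀ x : ℝ, sin (4 * (π - x)) * log (sin (π - x)) = -(sin (4 * x) * log (sin x)) := by
    intro x
    have h3 : sin (4 * (π - x)) = - sin (4 * x) := by
      rw [show 4 * (π - x) = -(4 * x) + (2 : ℕ) * (2 * π) by push_cast; ring,
        sin_add_nat_mul_two_pi, sin_neg]
    rw [sin_pi_sub, h3]
    ring
  simp only [h2] at h1
  rw [intervalIntegral.integral_neg] at h1
  linarith

/-- the full period integral -/
lemma int_period (ψ : ℝ) : ∫ x in (0 : ℝ)..π, sin (2 * x - ψ) ^ 2 * log (sin x) =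
    -(π / 2) * log 2 + π / 8 * cos (2 * ψ) := by
  have e : ∀ x : ℝ, sin (2 * x - ψ) ^ 2 * log (sin x) =
      1 / 2 * log (sin x) - cos (2 * ψ) / 2 * (cos (4 * x) * log (sin x)) -
        sin (2 * ψ) / 2 * (sin (4 * x) * log (sin x)) := by
    intro x
    have h1 : sin (2 * x - ψ) ^ 2 = 1 / 2 - cos (4 * x - 2 * ψ) / 2 := by
      rw [sin_sq_eq_half_sub]
      congr 3
      ring
    rw [h1, cos_sub]
    ring
  have i1 : IntervalIntegrable (fun x : ℝ => 1 / 2 * log (sin x)) volume 0 π :=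
    intervalIntegrable_log_sin.const_mul _
  have i2 : IntervalIntegrable (fun x : ℝ => cos (2 * ψ) / 2 * (cos (4 * x) * log (sin x)))
      volume 0 π :=
    (intervalIntegrable_log_sin.continuousOn_mul (by fun_prop)).const_mul _
  have i3 : IntervalIntegrable (fun x : ℝ => sin (2 * ψ) / 2 * (sin (4 * x) * log (sin x)))
      volume 0 π :=
    (intervalIntegrable_log_sin.continuousOn_mul (by fun_prop)).const_mul _
  simp only [e]
  rw [integral_sub (i1.sub i2) i3, integral_sub i1 i2, intervalIntegral.integral_const_mul,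
    intervalIntegral.integral_const_mul, intervalIntegral.integral_const_mul,
    integral_log_sin_zero_pi, int_cos4_log_sin, int_sin4_log_sin]
  ring

lemma log_sin_periodic : Function.Periodic (fun x : ℝ => log (sin x)) π := by
  intro x
  simp only [sin_add_pi, log_neg_eq_log]

/-- `log|cos ψ - cos φ|` away from the zeros -/
lemma log_cos_sub {ψ φ : ℝ} (h1 : sin ((φ + ψ) / 2) ≠ 0) (h2 : sin ((φ - ψ) / 2) ≠ 0) :
    log (cos ψ - cos φ) = log 2 + log (sin ((φ + ψ) / 2)) + log (sin ((φ - ψ) / 2)) := by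
  have e : cos ψ - cos φ = 2 * sin ((φ + ψ) / 2) * sin ((φ - ψ) / 2) := by
    rw [cos_sub_cos]
    rw [show (ψ + φ) / 2 = (φ + ψ) / 2 by ring, show (ψ - φ) / 2 = -((φ - ψ) / 2) by ring, sin_neg]
    ring
  rw [e, log_mul (mul_ne_zero two_ne_zero h1) h2, log_mul two_ne_zero h1]

lemma ae_sin_ne (a : ℝ) : ∀ᵐ φ : ℝ, sin ((φ + a) / 2) ≠ 0 := by
  have hc : Set.Countable {φ : ℝ | sin ((φ + a) / 2) = 0} := by
    have : {φ : ℝ | sin ((φ + a) / 2) = 0} ⊆ Set.range (fun n : ℤ => 2 * (n * π) - a) := by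
      intro φ hφ
      obtain ⟨n, hn⟩ := sin_eq_zero_iff.1 hφ
      exact ⟨n, by simp only; linarith⟩
    exact (Set.countable_range _).mono this
  have h0 := hc.measure_zero volume
  rw [ae_iff]
  simpa using h0

lemma ae_log_cos_sub (ψ : ℝ) : ∀ᵐ φ : ℝ,
    log (cos ψ - cos φ) = log 2 + log (sin ((φ + ψ) / 2)) + log (sin ((φ - ψ) / 2)) := by
  filter_upwards [ae_sin_ne ψ, ae_sin_ne (-ψ)] with φ h1 h2
  exact log_cos_sub h1 (by rwa [← sub_eq_add_neg] at h2)

lemma ii_shift (a u v : ℝ) :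
    IntervalIntegrable (fun φ : ℝ => log (sin ((φ + a) / 2))) volume u v := by
  have h1 : IntervalIntegrable (fun x : ℝ => log (sin x)) volume ((u + a) / 2) ((v + a) / 2) :=
    intervalIntegrable_log_sin
  have h2 : IntervalIntegrable (fun x : ℝ => log (sin (1 / 2 * x))) volume
      ((u + a) / 2 / (1 / 2)) ((v + a) / 2 / (1 / 2)) := h1.comp_mul_left (c := 1 / 2)
  have h3 := h2.comp_add_right a
  have e1 : (u + a) / 2 / (1 / 2) - a = u := by ring
  have e2 : (v + a) / 2 / (1 / 2) - a = v := by ring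
  rw [e1, e2] at h3
  have e3 : (fun φ : ℝ => log (sin ((φ + a) / 2))) = fun x : ℝ => log (sin (1 / 2 * (x + a))) := by
    funext x
    congr 2
    ring
  rw [e3]
  exact h3

/-- the two halves glued together -/
lemma int_two_halves (ψ : ℝ) :
    (∫ φ in (0 : ℝ)..π, log (sin ((φ + ψ) / 2)) * sin φ ^ 2) +
      (∫ φ in (0 : ℝ)..π, log (sin ((φ - ψ) / 2)) * sin φ ^ 2) =
    2 * ∫ x in (0 : ℝ)..π, sin (2 * x - ψ) ^ 2 * log (sin x) := by
  have i1 : ∀ u v : ℝ, IntervalIntegrable (fun φ : ℝ => log (sin ((φ + ψ) / 2)) * sin φ ^ 2)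
      volume u v := fun u v => (ii_shift ψ u v).mul_continuousOn (by fun_prop)
  have h2 : ∫ φ in (0 : ℝ)..π, log (sin ((φ - ψ) / 2)) * sin φ ^ 2 =
      ∫ φ in (-π)..0, log (sin ((φ + ψ) / 2)) * sin φ ^ 2 := by
    have h3 := integral_comp_neg (a := 0) (b := π)
      (fun φ : ℝ => log (sin ((φ + ψ) / 2)) * sin φ ^ 2)
    rw [neg_zero] at h3
    rw [← h3]
    refine integral_congr fun φ _ => ?_
    rw [show (-φ + ψ) / 2 = -((φ - ψ) / 2) by ring, sin_neg, sin_neg, log_neg_eq_log, neg_sq]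
  rw [h2, add_comm, integral_add_adjacent_intervals (i1 _ _) (i1 _ _)]
  have h4 : ∫ φ in (-π)..π, log (sin ((φ + ψ) / 2)) * sin φ ^ 2 =
      2 * ∫ x in ((-π + ψ) / 2)..((π + ψ) / 2), sin (2 * x - ψ) ^ 2 * log (sin x) := by
    have h5 := integral_comp_div_add (a := -π) (b := π)
      (fun x : ℝ => sin (2 * x - ψ) ^ 2 * log (sin x)) (c := 2) two_ne_zero (ψ / 2)
    have e1 : -π / 2 + ψ / 2 = (-π + ψ) / 2 := by ring
    have e2 : π / 2 + ψ / 2 = (π + ψ) / 2 := by ring
    rw [e1, e2, smul_eq_mul] at h5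
    rw [← h5]
    refine integral_congr fun φ _ => ?_
    rw [show 2 * (φ / 2 + ψ / 2) - ψ = φ by ring, show φ / 2 + ψ / 2 = (φ + ψ) / 2 by ring, mul_comm]
  rw [h4]
  have hp : Function.Periodic (fun x : ℝ => sin (2 * x - ψ) ^ 2 * log (sin x)) π := by
    intro x
    simp only [sin_add_pi, log_neg_eq_log]
    rw [show 2 * (x + π) - ψ = (2 * x - ψ) + 2 * π by ring, sin_add_two_pi]
  have h6 := hp.intervalIntegral_add_eq ((-π + ψ) / 2) 0
  rw [show (-π + ψ) / 2 + π = (π + ψ) / 2 by ring, zero_add] at h6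
  rw [h6]

/-- integrability of the kernel, inside -/
lemma sc_ii_cos (ψ u v : ℝ) :
    IntervalIntegrable (fun φ : ℝ => log (cos ψ - cos φ) * sin φ ^ 2) volume u v := by
  have h1 : IntervalIntegrable (fun φ : ℝ => log 2 + log (sin ((φ + ψ) / 2)) +
      log (sin ((φ + -ψ) / 2))) volume u v :=
    ((_root_.intervalIntegrable_const (c := log 2)).add (ii_shift ψ u v)).add (ii_shift (-ψ) u v)
  have h2 : IntervalIntegrable (fun φ : ℝ => log (cos ψ - cos φ)) volume u v := by
    refine h1.congr_ae ?_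
    filter_upwards [ae_restrict_of_ae (ae_log_cos_sub ψ)] with φ hφ
    rw [hφ, sub_eq_add_neg]
  exact h2.mul_continuousOn (by fun_prop)

lemma sc_cos (ψ : ℝ) : ∫ φ in (0 : ℝ)..π, log (cos ψ - cos φ) * sin φ ^ 2 =
    π / 2 * (cos ψ ^ 2 - 1 / 2 - log 2) := by
  have h1 : ∫ φ in (0 : ℝ)..π, log (cos ψ - cos φ) * sin φ ^ 2 =
      ∫ φ in (0 : ℝ)..π, (log 2 * sin φ ^ 2 + log (sin ((φ + ψ) / 2)) * sin φ ^ 2 +
        log (sin ((φ - ψ) / 2)) * sin φ ^ 2) := by
    refine intervalIntegral.integral_congr_ae ?_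
    filter_upwards [ae_log_cos_sub ψ] with φ hφ _
    rw [hφ]
    ring
  have i1 : IntervalIntegrable (fun φ : ℝ => log (sin ((φ + ψ) / 2)) * sin φ ^ 2)
      volume 0 π := (ii_shift ψ 0 π).mul_continuousOn (by fun_prop)
  have i2 : IntervalIntegrable (fun φ : ℝ => log (sin ((φ - ψ) / 2)) * sin φ ^ 2)
      volume 0 π := by
    have := (ii_shift (-ψ) 0 π).mul_continuousOn (g := fun φ => sin φ ^ 2) (by fun_prop)
    simpa only [← sub_eq_add_neg] using this
  have i0 : IntervalIntegrable (fun φ : ℝ => log 2 * sin φ ^ 2) volume 0 π :=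
    Continuous.intervalIntegrable (by fun_prop) _ _
  rw [h1, integral_add (i0.add i1) i2, integral_add i0 i1, add_assoc, int_two_halves, int_period,
    intervalIntegral.integral_const_mul, integral_sin_sq, cos_two_mul]
  simp
  ring

/-- the kernel is integrable for every `t` -/
lemma sc_ii (t : ℝ) :
    IntervalIntegrable (fun φ : ℝ => log (t - cos φ) * sin φ ^ 2) volume 0 π := by
  rcases le_or_gt |t| 1 with h | h
  · obtain ⟨h1, h2⟩ := abs_le.1 h
    have h3 := sc_ii_cos (arccos t) 0 π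
    rwa [cos_arccos h1 h2] at h3
  · refine ContinuousOn.intervalIntegrable ?_
    refine ContinuousOn.mul (ContinuousOn.log (by fun_prop) ?_) (by fun_prop)
    intro φ _ h0
    have h4 : t = cos φ := by linarith
    rw [h4] at h
    exact absurd h (not_lt.2 (abs_cos_le_one φ))

theorem sc_eq {t : ℝ} (ht : |t| ≤ 1) : ∫ φ in (0 : ℝ)..π, log (t - cos φ) * sin φ ^ 2 =
    π / 2 * (t ^ 2 - 1 / 2 - log 2) := by
  obtain ⟨h1, h2⟩ := abs_le.1 ht
  have h3 := sc_cos (arccos t)
  rwa [cos_arccos h1 h2] at h3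

lemma sc_symm (t : ℝ) : ∫ φ in (0 : ℝ)..π, log (-t - cos φ) * sin φ ^ 2 =
    ∫ φ in (0 : ℝ)..π, log (t - cos φ) * sin φ ^ 2 := by
  have h1 := integral_comp_sub_left (a := 0) (b := π)
    (fun φ : ℝ => log (-t - cos φ) * sin φ ^ 2) π
  rw [sub_self, sub_zero] at h1
  rw [← h1]
  refine integral_congr fun φ _ => ?_
  rw [cos_pi_sub, sin_pi_sub, show -t - -cos φ = -(t - cos φ) by ring, log_neg_eq_log]

lemma ii_sin : IntervalIntegrable (fun φ : ℝ => 1 + cos φ) volume 0 π :=
  Continuous.intervalIntegrable (by fun_prop) _ _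

lemma sc_le_one_le {t : ℝ} (ht : 1 ≤ t) : ∫ φ in (0 : ℝ)..π, log (t - cos φ) * sin φ ^ 2 ≤
    π / 2 * (t ^ 2 - 1 / 2 - log 2) := by
  have h1 : ∫ φ in (0 : ℝ)..π, log (t - cos φ) * sin φ ^ 2 ≤
      ∫ φ in (0 : ℝ)..π, (log (1 - cos φ) * sin φ ^ 2 + (t - 1) * (1 + cos φ)) := by
    refine integral_mono_on_of_le_Ioo pi_pos.le (sc_ii t)
      ((sc_ii 1).add (ii_sin.const_mul _)) fun φ hφ => ?_
    have hs : 0 < sin φ := sin_pos_of_pos_of_lt_pi hφ.1 hφ.2
    have hc : 0 < 1 - cos φ := by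
      nlinarith [sin_sq_add_cos_sq φ, neg_one_le_cos φ, cos_le_one φ, sq_nonneg (1 - cos φ),
        mul_pos hs hs]
    have hsc : sin φ ^ 2 = (1 - cos φ) * (1 + cos φ) := by nlinarith [sin_sq_add_cos_sq φ]
    have h2 : log (t - cos φ) ≤ log (1 - cos φ) + (t - 1) / (1 - cos φ) := by
      have h3 : log ((t - cos φ) / (1 - cos φ)) ≤ (t - cos φ) / (1 - cos φ) - 1 :=
        log_le_sub_one_of_pos (div_pos (by linarith) hc)
      rw [log_div (by linarith) hc.ne'] at h3
      have h4 : (t - cos φ) / (1 - cos φ) - 1 = (t - 1) / (1 - cos φ) := by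
        field_simp
        ring
      linarith
    calc log (t - cos φ) * sin φ ^ 2 ≤
        (log (1 - cos φ) + (t - 1) / (1 - cos φ)) * sin φ ^ 2 :=
          mul_le_mul_of_nonneg_right h2 (sq_nonneg _)
      _ = log (1 - cos φ) * sin φ ^ 2 + (t - 1) * (1 + cos φ) := by
          rw [add_mul]
          congr 1
          rw [hsc]
          field_simp
  have h2 : ∫ φ in (0 : ℝ)..π, (log (1 - cos φ) * sin φ ^ 2 + (t - 1) * (1 + cos φ)) =
      π / 2 * (1 ^ 2 - 1 / 2 - log 2) + (t - 1) * π := by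
    rw [intervalIntegral.integral_add (sc_ii 1) (ii_sin.const_mul _), sc_eq (by simp),
      intervalIntegral.integral_const_mul, intervalIntegral.integral_add (by simp) (by simp)]
    simp
  rw [h2] at h1
  have h3 := pi_pos
  have h4 : 0 ≤ π * (t - 1) ^ 2 := by positivity
  nlinarith

/-- the inequality for every `t` -/
theorem sc_le (t : ℝ) : ∫ φ in (0 : ℝ)..π, log (t - cos φ) * sin φ ^ 2 ≤
    π / 2 * (t ^ 2 - 1 / 2 - log 2) := by
  rcases le_or_gt |t| 1 with h | h
  · exact (sc_eq h).le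
  · rcases lt_abs.1 h with h | h
    · exact sc_le_one_le h.le
    · rw [← sc_symm t]
      have := sc_le_one_le h.le
      rwa [neg_sq] at this

lemma sc_ge_one_le {t : ℝ} (ht : 1 ≤ t) :
    π / 2 * (-1 / 2 - log 2) ≤ ∫ φ in (0 : ℝ)..π, log (t - cos φ) * sin φ ^ 2 := by
  have h1 : ∫ φ in (0 : ℝ)..π, log (1 - cos φ) * sin φ ^ 2 ≤
      ∫ φ in (0 : ℝ)..π, log (t - cos φ) * sin φ ^ 2 := by
    refine integral_mono_on_of_le_Ioo pi_pos.le (sc_ii 1) (sc_ii t) fun φ hφ => ?_
    have hs : 0 < sin φ := sin_pos_of_pos_of_lt_pi hφ.1 hφ.2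
    have hc : 0 < 1 - cos φ := by
      nlinarith [sin_sq_add_cos_sq φ, neg_one_le_cos φ, cos_le_one φ, sq_nonneg (1 - cos φ),
        mul_pos hs hs]
    exact mul_le_mul_of_nonneg_right (log_le_log hc (by linarith)) (sq_nonneg _)
  rw [sc_eq (by simp)] at h1
  have := pi_pos
  nlinarith

theorem sc_ge (t : ℝ) :
    π / 2 * (-1 / 2 - log 2) ≤ ∫ φ in (0 : ℝ)..π, log (t - cos φ) * sin φ ^ 2 := by
  rcases le_or_gt |t| 1 with h | h
  · rw [sc_eq h]
    have := pi_pos
    nlinarith [sq_nonneg t]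
  · rcases lt_abs.1 h with h | h
    · exact sc_ge_one_le h.le
    · rw [← sc_symm t]
      exact sc_ge_one_le h.le

lemma abs_log_le (v : ℝ) : |log v| ≤ 2 * |v| - log v := by
  rcases eq_or_ne v 0 with h | h
  · simp [h]
  have h1 : 0 < |v| := abs_pos.2 h
  have h2 := log_le_sub_one_of_pos h1
  rw [log_abs] at h2
  rcases le_total 0 (log v) with h3 | h3
  · rw [abs_of_nonneg h3]
    linarith
  · rw [abs_of_nonpos h3]
    linarith

theorem sc_abs (t : ℝ) :
    ∫ φ in (0 : ℝ)..π, |log (t - cos φ)| * sin φ ^ 2 ≤ 10 * (1 + |t|) := by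
  have i2 : IntervalIntegrable (fun φ : ℝ => |log (t - cos φ)| * sin φ ^ 2) volume 0 π := by
    have h := (sc_ii t).abs
    refine h.congr_ae (Filter.Eventually.of_forall fun φ => ?_)
    simp only [abs_mul, abs_of_nonneg (sq_nonneg (sin φ))]
  have i3 : IntervalIntegrable (fun φ : ℝ => 2 * (1 + |t|) * sin φ ^ 2) volume 0 π :=
    Continuous.intervalIntegrable (by fun_prop) _ _
  have h1 : ∫ φ in (0 : ℝ)..π, |log (t - cos φ)| * sin φ ^ 2 ≤
      ∫ φ in (0 : ℝ)..π, (2 * (1 + |t|) * sin φ ^ 2 - log (t - cos φ) * sin φ ^ 2) := by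
    refine integral_mono_on pi_pos.le i2 (i3.sub (sc_ii t)) fun φ _ => ?_
    have h2 := abs_log_le (t - cos φ)
    have h3 : |t - cos φ| ≤ 1 + |t| := by
      refine (abs_sub _ _).trans ?_
      linarith [abs_cos_le_one φ]
    have h4 : |log (t - cos φ)| ≤ 2 * (1 + |t|) - log (t - cos φ) := by linarith
    calc _ ≤ (2 * (1 + |t|) - log (t - cos φ)) * sin φ ^ 2 :=
          mul_le_mul_of_nonneg_right h4 (sq_nonneg _)
      _ = _ := by ring
  rw [integral_sub i3 (sc_ii t), intervalIntegral.integral_const_mul, integral_sin_sq] at h1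
  have h5 := sc_ge t
  simp at h1
  have h6 := pi_lt_d2
  have h7 := pi_pos
  have h8 : log 2 < 1 := by linarith [log_two_lt_d9]
  have h9 := abs_nonneg t
  have h10 : π / 2 * (-1 / 2 - log 2) ≥ -(3 / 4 * π) := by nlinarith
  nlinarith

end Pool.Agent.F1
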