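import Pool.Agent.F1.Basic
import Pool.Agent.F1.P1

set_option autoImplicit false

namespace Pool.Agent.F1

open MeasureTheory Real Set

lemma log_RR : log RR = log 2 - log 6 / 2 := by
  have h1 : log (RR ^ 2) = 2 * log RR := by rw [log_pow]; norm_num
  rw [RR_sq] at h1
  have h2 : log (2 / 3 : ℝ) = 2 * log 2 - log 6 := by
    rw [show (2 / 3 : ℝ) = 2 ^ 2 / 6 by norm_num, log_div (by norm_num) (by norm_num), log_pow]
    norm_num
  linarith

lemma ae_cos_ne (t : ℝ) : ∀ᵐ φ : ℝ, φ ∈ Ioo 0 π → t - cos φ ≠ 0 := by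
  have hsub : {φ : ℝ | ¬ (φ ∈ Ioo 0 π → t - cos φ ≠ 0)} ⊆ {arccos t} := by
    intro φ hφ
    simp only [mem_ofPred_eq, Classical.not_imp, not_not] at hφ
    obtain ⟨h1, h2⟩ := hφ
    have h3 : t = cos φ := by linarith
    rw [mem_singleton_iff, h3, arccos_cos h1.1.le h1.2.le]
  rw [ae_iff]
  exact measure_mono_null hsub (measure_singleton _)

/-- scaling of the kernel -/
lemma ae_log_scale (t : ℝ) : ∀ᵐ φ : ℝ, φ ∈ Ioo 0 π →
    log (t - RR * cos φ) = log RR + log (t / RR - cos φ) := by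
  filter_upwards [ae_cos_ne (t / RR)] with φ h hφ
  have h1 := h hφ
  have hR := RR_pos
  have e : t - RR * cos φ = RR * (t / RR - cos φ) := by
    field_simp
  rw [e, log_mul hR.ne' h1]

lemma sc_scale (t : ℝ) : ∫ φ in Ioo 0 π, 2 / π * sin φ ^ 2 * log (t - RR * cos φ) =
    log RR + 2 / π * ∫ φ in (0 : ℝ)..π, log (t / RR - cos φ) * sin φ ^ 2 := by
  have h1 : ∫ φ in Ioo 0 π, 2 / π * sin φ ^ 2 * log (t - RR * cos φ) =
      ∫ φ in Ioo 0 π, (2 / π * log RR * sin φ ^ 2 +
        2 / π * (log (t / RR - cos φ) * sin φ ^ 2)) := by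
    refine setIntegral_congr_ae measurableSet_Ioo ?_
    filter_upwards [ae_log_scale t] with φ h hφ
    rw [h hφ]
    ring
  rw [h1, ← integral_Ioc_eq_integral_Ioo, ← intervalIntegral.integral_of_le pi_pos.le,
    intervalIntegral.integral_add (Continuous.intervalIntegrable (by fun_prop) _ _)
      ((sc_ii _).const_mul _), intervalIntegral.integral_const_mul,
    intervalIntegral.integral_const_mul, integral_sin_sq]
  have := pi_pos
  simp
  field_simp

theorem st_ScIn : St_ScIn := by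
  intro t ht
  have hR := RR_pos
  have h1 : |t / RR| ≤ 1 := by
    rw [abs_div, abs_of_pos hR]
    exact (div_le_one hR).2 ht
  rw [sc_scale, sc_eq h1, log_RR, div_pow, RR_sq, kap]
  have := pi_pos
  field_simp
  ring

end Pool.Agent.F1
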