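import Pool.Agent.F1.ScIn

set_option autoImplicit false

namespace Pool.Agent.F1

open MeasureTheory Real Set

lemma sc_io (t : ℝ) :
    IntegrableOn (fun φ => 2 / π * sin φ ^ 2 * log (t - RR * cos φ)) (Ioo 0 π) := by
  have h1 : IntegrableOn (fun φ => 2 / π * log RR * sin φ ^ 2 +
        2 / π * (log (t / RR - cos φ) * sin φ ^ 2)) (Ioo 0 π) := by
    have h2 : IntervalIntegrable (fun φ => 2 / π * log RR * sin φ ^ 2 +
        2 / π * (log (t / RR - cos φ) * sin φ ^ 2)) volume 0 π :=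
      (Continuous.intervalIntegrable (by fun_prop) _ _).add ((sc_ii _).const_mul _)
    exact ((intervalIntegrable_iff_integrableOn_Ioc_of_le pi_pos.le).1 h2).mono_set Ioo_subset_Ioc_self
  refine h1.congr ?_
  rw [Filter.EventuallyEq, ae_restrict_iff' measurableSet_Ioo]
  filter_upwards [ae_log_scale t] with φ h hφ
  rw [h hφ]
  ring

theorem st_ScInt : St_ScInt := by
  refine ⟨sc_io, fun M => ⟨|log RR| + 2 / π * (10 * (1 + |M| / RR)), fun t ht => ?_⟩⟩
  have hR := RR_pos
  have hp := pi_pos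
  have h0 : ∀ φ : ℝ, 0 ≤ 2 / π * sin φ ^ 2 := fun φ => by positivity
  have h1 : ∀ φ : ℝ, ENNReal.ofReal (2 / π * sin φ ^ 2) * ENNReal.ofReal |log (t - RR * cos φ)| =
      ENNReal.ofReal |2 / π * sin φ ^ 2 * log (t - RR * cos φ)| := by
    intro φ
    rw [← ENNReal.ofReal_mul (h0 φ), abs_mul, abs_of_nonneg (h0 φ)]
  simp only [h1]
  rw [← ofReal_integral_eq_lintegral_ofReal (sc_io t).abs
    (Filter.Eventually.of_forall fun φ => abs_nonneg _)]
  refine ENNReal.ofReal_le_ofReal ?_
  have i2 : IntervalIntegrable (fun φ : ℝ => |log (t / RR - cos φ)| * sin φ ^ 2) volume 0 π := by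
    have h := (sc_ii (t / RR)).abs
    refine h.congr_ae (Filter.Eventually.of_forall fun φ => ?_)
    simp only [abs_mul, abs_of_nonneg (sq_nonneg (sin φ))]
  have i3 : IntervalIntegrable (fun φ : ℝ => 2 / π * |log RR| * sin φ ^ 2 +
      2 / π * (|log (t / RR - cos φ)| * sin φ ^ 2)) volume 0 π :=
    (Continuous.intervalIntegrable (by fun_prop) _ _).add (i2.const_mul _)
  have i4 : IntegrableOn (fun φ : ℝ => 2 / π * |log RR| * sin φ ^ 2 +
      2 / π * (|log (t / RR - cos φ)| * sin φ ^ 2)) (Ioo 0 π) :=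
    ((intervalIntegrable_iff_integrableOn_Ioc_of_le pi_pos.le).1 i3).mono_set Ioo_subset_Ioc_self
  have h2 : ∫ φ in Ioo 0 π, |2 / π * sin φ ^ 2 * log (t - RR * cos φ)| ≤
      ∫ φ in Ioo 0 π, (2 / π * |log RR| * sin φ ^ 2 +
        2 / π * (|log (t / RR - cos φ)| * sin φ ^ 2)) := by
    refine setIntegral_mono_on_ae (sc_io t).abs i4 measurableSet_Ioo ?_
    filter_upwards [ae_log_scale t] with φ h hφ
    rw [h hφ, abs_mul, abs_of_nonneg (h0 φ)]
    calc 2 / π * sin φ ^ 2 * |log RR + log (t / RR - cos φ)| ≤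
        2 / π * sin φ ^ 2 * (|log RR| + |log (t / RR - cos φ)|) :=
          mul_le_mul_of_nonneg_left (abs_add_le _ _) (h0 φ)
      _ = _ := by ring
  refine h2.trans ?_
  rw [← integral_Ioc_eq_integral_Ioo, ← intervalIntegral.integral_of_le pi_pos.le,
    intervalIntegral.integral_add (Continuous.intervalIntegrable (by fun_prop) _ _)
      (i2.const_mul _), intervalIntegral.integral_const_mul,
    intervalIntegral.integral_const_mul, integral_sin_sq]
  have h3 := sc_abs (t / RR)
  have h4 : |t / RR| ≤ |M| / RR := by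
    rw [abs_div, abs_of_pos hR]
    exact div_le_div_of_nonneg_right (ht.trans (le_abs_self M)) hR.le
  have h5 : 2 / π * (∫ φ in (0 : ℝ)..π, |log (t / RR - cos φ)| * sin φ ^ 2) ≤
      2 / π * (10 * (1 + |M| / RR)) :=
    mul_le_mul_of_nonneg_left (h3.trans (by linarith)) (by positivity)
  refine add_le_add (le_of_eq ?_) h5
  simp
  field_simp

end Pool.Agent.F1
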