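import Pool.Agent.F1.Defs

/-!
# The integral with Gaussian weight in dimension three: statements of the modules

Paper: `/team-store/F1_paper.md`. Every `St_X` is proved in its own file `X.lean` as
`theorem st_X : St_X`, possibly from other `St_Y`. Block P: the potential of `mu`. Block G: the
upper bound. The lower bound (block L) has its own statements file `LStmts.lean`.
-/

set_option autoImplicit false

open MeasureTheory Set Real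
open scoped ENNReal InnerProductSpace
open Pool.Agent.Helper44.Ball3 (E3 sig)

namespace Pool.Agent.F1

/-! ## Block P -/

/-- the parametrisation -/
def St_Map : Prop := Measurable TT ∧ lam.map TT = mu

/-- rotation invariance -/
def St_Rot : Prop := ∀ L : E3 ≃ₗᵢ[ℝ] E3, mu.map L = mu

/-- the law of the inner product with a unit vector is the semicircle law, in the form of an integral over the angle -/
def St_Marg : Prop := ∀ (w : E3), ‖w‖ = 1 → ∀ h : ℝ → ℝ≥0∞, Measurable h →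
  ∫⁻ y, h ⟪w, y⟫_ℝ ∂mu =
    ∫⁻ φ in Ioo 0 π, ENNReal.ofReal (2 / π * sin φ ^ 2) * h (RR * cos φ)

/-- the logarithmic potential of the semicircle law, inside -/
def St_ScIn : Prop := ∀ t : ℝ, |t| ≤ RR →
  ∫ φ in Ioo 0 π, 2 / π * sin φ ^ 2 * log (t - RR * cos φ) = 3 / 2 * t ^ 2 - kap - 1

/-- integrability, locally uniformly in `t` -/
def St_ScInt : Prop :=
  (∀ t : ℝ, IntegrableOn (fun φ => 2 / π * sin φ ^ 2 * log (t - RR * cos φ)) (Ioo 0 π)) ∧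
  ∀ M : ℝ, ∃ C : ℝ, ∀ t : ℝ, |t| ≤ M →
    ∫⁻ φ in Ioo 0 π, ENNReal.ofReal (2 / π * sin φ ^ 2) *
      ENNReal.ofReal |log (t - RR * cos φ)| ≤ ENNReal.ofReal C

/-- outside, an inequality suffices -/
def St_ScOut : Prop := ∀ t : ℝ, RR ≤ |t| →
  ∫ φ in Ioo 0 π, 2 / π * sin φ ^ 2 * log (t - RR * cos φ) ≤ 3 / 2 * t ^ 2 - kap - 1

/-- the logarithm of the norm as an average of logarithms of linear functionals -/
def St_PW : Prop := ∀ z : E3, z ≠ 0 →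
  Integrable (fun w : E3 => log ⟪z, w⟫_ℝ) sig ∧ ∫ w, log ⟪z, w⟫_ℝ ∂sig = log ‖z‖ - 1

/-- second moments on the sphere -/
def St_Sig2 : Prop := ∀ x : E3,
  Integrable (fun w : E3 => ⟪x, w⟫_ℝ ^ 2) sig ∧ ∫ w, ⟪x, w⟫_ℝ ^ 2 ∂sig = ‖x‖ ^ 2 / 3

/-- the potential of `mu` -/
def St_Pot : Prop := (∀ x : E3, Integrable (fun y => log ‖x - y‖) mu) ∧ (∀ x : E3, 0 ≤ Phi x) ∧
  ∀ x : E3, ‖x‖ ^ 2 ≤ 2 / 3 → Phi x = 0

/-- second moment of `mu` -/
def St_Sq : Prop := Integrable (fun y : E3 => ‖y‖ ^ 2) mu ∧ ∫ y, ‖y‖ ^ 2 ∂mu = 1 / 2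

/-- the energy of `mu` -/
def St_LogInt : Prop := Integrable (fun q : E3 × E3 => log ‖q.1 - q.2‖) (mu.prod mu) ∧
  ∫ q, log ‖q.1 - q.2‖ ∂(mu.prod mu) = -(kap - 1 / 4)

/-- the potential at infinity, and measurability -/
def St_UGrow : Prop := Measurable U ∧ ∀ x : E3, ‖x‖ ^ 2 / 2 - log (‖x‖ + 1) - kap ≤ Phi x

/-! ## Block G -/

/-- the logarithm as a mixture of exponentials -/
def St_Frull : Prop := ∀ r : ℝ, 0 < r →
  ∫⁻ s in Ioi 0, ENNReal.ofReal |(exp (-(s * r)) - exp (-s)) / s| = ENNReal.ofReal |log r| ∧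
  IntegrableOn (fun s => (exp (-(s * r)) - exp (-s)) / s) (Ioi 0) ∧
  ∫ s in Ioi 0, (exp (-(s * r)) - exp (-s)) / s = -log r

/-- the truncated mixture at one point -/
def St_Cut : Prop := ∃ c₀ : ℝ, ∀ a : ℝ, 0 < a →
  IntegrableOn (fun s => ((if s ≤ a then (1 : ℝ) else 0) - exp (-s)) / s) (Ioi 0) ∧
  ∫ s in Ioi 0, ((if s ≤ a then (1 : ℝ) else 0) - exp (-s)) / s = log a + c₀

/-- positivity of the Gaussian kernel -/
def St_Pos : Prop := ∀ (s a : ℝ), 0 < s → ∀ (n : ℕ) (A : Finset (Fin n)) (y : Fin n → E3),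
  0 ≤ (∑ i ∈ A, ∑ j ∈ A, exp (-(s * ‖y i - y j‖ ^ 2))) - 2 * a * ∑ i ∈ A, ms s (y i) +
    a ^ 2 * ∫ x, ms s x ∂mu

/-- `ms` is jointly measurable and between `0` and `1` -/
def St_MsBasic : Prop := Measurable (Function.uncurry ms) ∧ (∀ s x, 0 ≤ ms s x) ∧
  (∀ s x, 0 ≤ s → ms s x ≤ 1) ∧ ∀ s x, 0 ≤ s → Integrable (fun z => exp (-(s * ‖x - z‖ ^ 2))) mu

/-- the global bound -/
def St_M1 : Prop := ∃ C : ℝ, 0 < C ∧ ∀ (s : ℝ) (x : E3), 0 < s → ms s x ≤ C * s ^ (-(5 / 4) : ℝ)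

/-- the bound near a point at which the density is bounded -/
def St_M2 : Prop := ∃ C : ℝ, 0 < C ∧ ∀ (s : ℝ) (x : E3), 0 < s → ‖x‖ ≤ 2 → 0 < ww x →
  ms s x ≤ C * (ww x) ^ (-(1 / 2) : ℝ) * s ^ (-(3 / 2) : ℝ) +
    C * exp (-(s * ww x ^ 2 / 72)) * s ^ (-(5 / 4) : ℝ)

/-- the bound outside -/
def St_M3 : Prop := ∀ (s : ℝ) (x : E3), 0 < s → RR ≤ ‖x‖ → ms s x ≤ exp (-(s * (‖x‖ - RR) ^ 2))

/-- the tail -/
def St_Tail : Prop := (∀ (x : E3) (a : ℝ), 0 < a → IntegrableOn (fun s => ms s x / (2 * s)) (Ioi a)) ∧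
  ∃ C : ℝ, 0 < C ∧ ∀ n : ℕ, 1 ≤ n → ∀ x : E3, 0 < ww x →
    Tt x ((n : ℝ) ^ ((2 : ℝ) / 3) * (ww x) ^ (-(1 / 3) : ℝ)) ≤ C / n

/-- the potential as a mixture -/
def St_Umix : Prop := ∀ x : E3, IntegrableOn (fun s => (ms s x - exp (-s)) / s) (Ioi 0) ∧
  ∫ s in Ioi 0, (ms s x - exp (-s)) / s = 2 * U x

/-- the energy of `mu` as a mixture -/
def St_Imix : Prop :=
  IntegrableOn (fun s => ((∫ x, ms s x ∂mu) - exp (-s)) / s) (Ioi 0) ∧
  ∫ s in Ioi 0, ((∫ x, ms s x ∂mu) - exp (-s)) / s = 2 * (kap - 1 / 4)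

/-- the energy of a configuration of distinct points -/
def St_Low : Prop := ∃ c₀ : ℝ, ∀ (n : ℕ) (y : Fin n → E3) (a : Fin n → ℝ),
  Function.Injective y → (∀ i, 0 < a i) →
  2 * n * ∑ i, (U (y i) - Tt (y i) (a i)) - n ^ 2 * (kap - 1 / 4) -
    ∑ i, (log (a i) + c₀) / 2 ≤ ∑ i, ∑ j, if j = i then 0 else -log ‖y i - y j‖

/-- the pointwise bound -/
def St_Ptw : Prop := ∃ C : ℝ, ∀ (n : ℕ) (y : Fin n → E3), 1 ≤ n → Function.Injective y →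
  (∀ i, 0 < ww (y i)) →
  exp (-HH n y) ≤ exp (-((n : ℝ) ^ 2 * (kap + 1 / 4))) *
    ∏ i, (exp C * (n : ℝ) ^ ((1 : ℝ) / 3) * (exp (-2 * Phi (y i)) * (ww (y i)) ^ (-(1 / 6) : ℝ)))

/-- the one-particle integral -/
def St_OneInt : Prop :=
  ∫⁻ x : E3, ENNReal.ofReal (exp (-2 * Phi x) * (ww x) ^ (-(1 / 6) : ℝ)) < ⊤

/-- almost all configurations are good -/
def St_Gen : Prop := ∀ n : ℕ, ∀ᵐ y : Fin n → E3, Function.Injective y ∧ ∀ i, 0 < ww (y i)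

/-- the upper bound -/
def St_Upper : Prop := ∃ C : ℝ, ∀ n : ℕ, 1 ≤ n →
  Zn n ≤ ENNReal.ofReal (exp (-((n : ℝ) ^ 2 * (kap + 1 / 4)) + n * log n / 3 + C * n))

/-! ## The end -/

/-- the lower bound (block L) -/
def St_Lower : Prop := ∃ C : ℝ, ∀ n : ℕ, 1 ≤ n →
  ENNReal.ofReal (exp (-((n : ℝ) ^ 2 * (kap + 1 / 4)) + n * log n / 3 - C * n)) ≤ Zn n

/-- the integral of the problem, in dimension three -/
noncomputable def Fone (n : ℕ) : ℝ :=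
  ∫ r : Fin n → E3, QQ r * ∏ i, exp (-‖r i‖ ^ 2)

/-- scaling -/
def St_Scale : Prop := ∀ n : ℕ, 1 ≤ n →
  Fone n = exp (((n : ℝ) ^ 2 / 2 + n) * log n) * (Zn n).toReal

/-- the theorem -/
def St_Main : Prop := ∃ C : ℝ, ∀ n : ℕ, 1 ≤ n →
  |log (Fone n) - ((n : ℝ) ^ 2 * log n / 2 - (log 6 / 2 - 1 / 4) * n ^ 2 + 4 / 3 * n * log n)| ≤ C * n

end Pool.Agent.F1
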